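import Pool.Agent.Lib.MP_77fd7e_co.Psi

namespace Pool.Agent.Lib.MP_77fd7e_co

open Finset

set_option linter.unusedSectionVars false

variable {V : Type} [Fintype V] [DecidableEq V] {G : SimpleGraph V} [DecidableRel G.Adj]

theorem anc_move {X : Finset V} {c d p l : V} (n1 : ∀ w, G.Adj c w ↔ w = p ∨ w = d)
    (n2 : ∀ w, G.Adj p w ↔ w = l ∨ w = c) (n3 : ∀ w, G.Adj l w → w = p ∨ dd G w ≤ 1)
    (hl : ¬ Plain G X l) (ml : l ∈ X) (mc : c ∈ X) (pc : Plain G X c) :
    dg G X p = 2 ∧ bs G X p = 5 ∧ (3 ≤ dg G X d → ex G X p ≤ 0) := by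
  have a1 : G.Adj p l := (n2 l).2 (Or.inl rfl)
  have a2 : G.Adj p c := (n2 c).2 (Or.inr rfl)
  have nl : l ≠ c := by rintro rfl; exact hl pc
  have d1 := dg_ge_two ml mc nl a1.symm a2.symm
  have d2 := dg_le_dd (G := G) X p
  have d3 := dd_two_of n2 nl
  refine ⟨by omega, ?_, fun h3 => ex_zero fun u nu hu => ?_⟩
  · rw [bs_two (by omega) ml a1.symm mc a2.symm nl, wt_plain pc,
      wt_two (na_pos a1.symm d1) hl]; rfl
  have n4 : ¬ G.Adj l u := fun a => by
    have := dg_le_dd (G := G) X u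
    rcases n3 u a with h | h
    exacts [nu h, by omega]
  by_cases hud : u = d
  · subst hud
    have : (X.filter fun e => G.Adj e u) ⊆ insert c ((mv G X p).filter fun e => G.Adj e u) := by
      intro e he
      rw [mem_filter] at he
      by_cases hec : e = c
      · simp [hec]
      · refine mem_insert_of_mem (mem_filter.2 ⟨mem_mv.2 ⟨he.1, fun a => ?_⟩, he.2⟩)
        rcases (n2 e).1 a.symm with rfl | rfl
        exacts [n4 he.2, hec rfl]
    have := (card_le_card this).trans (card_insert_le _ _)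
    unfold dg at h3 ⊢
    omega
  · rwa [dg_eq_of (mv_subset X p) fun e he a => mem_mv.2 ⟨he, fun b => by
      rcases (n2 e).1 b.symm with rfl | rfl
      · exact n4 a
      · rcases (n1 u).1 a with h | h
        exacts [nu h, hud h]⟩]

theorem removed_edge {v u : V} (h : dg G (mv G univ v) u < dd G u) : ∃ e, G.Adj e v ∧ G.Adj e u := by
  by_contra hn
  push Not at hn
  have := dg_eq_of (G := G) (v := u) (mv_subset (G := G) univ v)
    fun e he a => mem_mv.2 ⟨he, fun b => hn e b a⟩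
  unfold dd at h
  omega

theorem Tn.not_r0 {c : V} (h : Tn G c) : ¬ R0 G c := fun h' => h'.2.2 h.2.2

theorem two_of_card {s : Finset V} (h : s.card = 2) {a b x : V} (ha : a ∈ s) (hb : b ∈ s)
    (n : a ≠ b) (hx : x ∈ s) : x = a ∨ x = b := by
  have := eq_of_subset_of_card_le (s := {a, b}) (t := s) (by simp [insert_subset_iff, ha, hb])
    (by rw [card_pair n, h])
  rw [← this] at hx
  simpa using hx

namespace Ctx2

variable (C : Ctx2 G)
include C

theorem r0_oneT (h2 : 2 ≤ (sR0 G).card) {r a b : V} (hr : R0 G r) (ha : Tn G a) (hb : Tn G b)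
    (e1 : G.Adj r a) (e2 : G.Adj r b) : a = b := by
  by_contra n
  obtain ⟨p, l, -, hp, -, hl, n1, n2, n3⟩ := C.tn_at ha e1.symm hr.2.1
  obtain ⟨q, m, -, hq, -, hm, n4, n5, n6⟩ := C.tn_at hb e2.symm hr.2.1
  have n7 := fun w => nb2 (w := w) hr.1.le e1 e2 n
  obtain ⟨y, hy, ny⟩ := exists_mem_ne (show 1 < (sR0 G).card by omega) r
  rw [mem_sR0] at hy
  have := (closed_card C.conn [r, a, b, p, q, l, m] (v0 := r) (by simp) (by
    simp only [List.mem_cons, List.not_mem_nil, or_false, forall_eq_or_imp, forall_eq, n1, n2, n3,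
      n4, n5, n6]
    refine ⟨fun w d => ?_, ?_⟩
    · rcases n7 w d with h | h <;> simp [h]
    simp)).1 y
  have := hy.1
  simp only [List.mem_cons, List.not_mem_nil, or_false] at *
  rcases ‹y = r ∨ _› with rfl | rfl | rfl | rfl | rfl | rfl | rfl
  exacts [ny rfl, ha.not_r0 hy, hb.not_r0 hy, hy.2.1 hp, hy.2.1 hq, by omega, by omega]

theorem five_univ (hr2 : ∀ v, ¬ R2 G v) {v : V} (hv : 2 ≤ dg G univ v) (h5 : 5 ≤ bs G univ v)
    (hz : ex G univ v ≤ 0) : ∃ t x b g u, R0 G g ∧ Tn G b ∧ Par G t ∧ dd G x ≤ 1 ∧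
      (∀ w, G.Adj b w ↔ w = t ∨ w = g) ∧ (∀ w, G.Adj t w ↔ w = x ∨ w = b) ∧
      (∀ w, G.Adj x w ↔ w = t) ∧ (∀ w, G.Adj g w ↔ w = b ∨ w = u) ∧ u ≠ b ∧ ¬ G.Adj g v ∧
      ¬ G.Adj t v ∧ dg G (mv G univ v) u = 2 ∧ ex G (mv G univ v) x ≤ 1 ∧
      Tight G (mv G (mv G univ v) x) ∧ Cold G (mv G (mv G univ v) x) := by
  obtain ⟨t, x, b, g, u, mt, a1, d1, a2, d2, mg, n1, a3, a4, n2, p, all, d3, p2, k⟩ :=
    cold_five C.nb C.tight (C.cold_of pp_univ fun c hc => hr2 c hc.1) hv h5 hz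
  have hg := C.five_R0 a1 d1 a2 d2 n1 a3 a4 n2 p all d3 p2
  have ht := C.pend_par (pp_univ.mv hz) mt a1 a2 d1 d2.ge
  have hb := (C.ap_type ⟨t, a2.symm, ht⟩ (d2 ▸ dg_le_dd _ b)).resolve_right (hr2 b)
  obtain ⟨q, l, b1, hq, -, hl, m1, m2, m3⟩ := C.tn_at hb a3.symm hg.2.1
  have := C.ap_eq hq ht b1 a2.symm
  subst this
  have : x = l := ((m2 x).1 a1).resolve_right (by rintro rfl; omega)
  subst this
  exact ⟨q, x, b, g, u, hg, hb, hq, hl, m1, m2, m3,
    fun w => ⟨all w, by rintro (rfl | rfl); exacts [a3, a4]⟩, n2, (mem_mv.1 mg).2,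
    (mem_mv.1 mt).2, d3, k⟩

theorem beta (hr2 : ∀ v, ¬ R2 G v) (h0 : (sR0 G).card = 2)
    (hT : (sT G).card = (s3 G).card + 2) {c y : V} (hc : Tn G c) (a : G.Adj c y)
    (dy : dd G y = 3) : False := by
  have py := C.three_not_par dy
  obtain ⟨p, l, -, hp, -, hl, n1, n2, n3⟩ := C.tn_at hc a py
  obtain ⟨q1, q2, q3⟩ := C.par_move n1 n2 n3 hl (mem_univ l) (mem_univ c)
    (plain_univ hc.1.ge hc.2.1)
  have x0 := q3 dy.ge
  obtain ⟨t, x, b, g, u, hg, hb, ht, hx, m1, m2, m3, m4, ub, gp, tp, du, x1, tZ, cZ⟩ :=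
    C.five_univ hr2 q1.ge q2.ge x0
  have agb : G.Adj g b := (m4 b).2 (Or.inl rfl)
  have agu : G.Adj g u := (m4 u).2 (Or.inr rfl)
  have atb : G.Adj t b := (m2 b).2 (Or.inr rfl)
  have atx : G.Adj t x := (m2 x).2 (Or.inl rfl)
  have dp := C.par_two hp
  have dt := C.par_two ht
  have db := hb.1
  have dg' := hg.1
  have dc := hc.1
  have du2 : dd G u = 2 := by
    by_contra hn
    have du3 : dd G u = 3 := by
      have := C.dd_le u
      have := dg_le_dd (G := G) (mv G univ p) u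
      omega
    obtain ⟨e, e1, e2⟩ := removed_edge (G := G) (v := p) (u := u) (by omega)
    have uy : u = y := by
      rcases (n2 e).1 e1.symm with rfl | rfl
      · rw [(n3 u).1 e2] at du3; omega
      · exact ((n1 u).1 e2).resolve_left (by rintro rfl; omega)
    subst uy
    obtain ⟨r1, r2, r3⟩ := anc_move (X := univ) m4 m1 (fun w e => by
      rcases (m2 w).1 e with rfl | rfl
      exacts [Or.inr hx, Or.inl rfl]) (not_plain_par ht) (mem_univ t) (mem_univ g)
      (plain_univ hg.1.ge hg.2.1)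
    obtain ⟨t2, x2, b2, g2, u2, hg2, hb2, ht2, -, m5, -, -, m8, ub2, gb, -, du', -⟩ :=
      C.five_univ hr2 r1.ge r2.ge (r3 dy.ge)
    have gg : g ≠ g2 := fun e => gb (e ▸ agb)
    have a2 : G.Adj g2 u2 := (m8 u2).2 (Or.inr rfl)
    have a3 : G.Adj g2 b2 := (m8 b2).2 (Or.inl rfl)
    rcases C.types u2 with h | h | h | h | h
    · have := dg_le_dd (G := G) (mv G univ b) u2; omega
    · exact hg2.2.2 ⟨u2, a2, h⟩
    · exact ub2 (C.r0_oneT h0.ge hg2 h hb2 a2 a3)
    · rcases two_of_card h0 (mem_sR0.2 hg) (mem_sR0.2 hg2) gg (mem_sR0.2 h) with rfl | rfl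
      · rcases (m4 g2).1 a2.symm with rfl | rfl
        exacts [hb.not_r0 hg2, by have := hg2.1; omega]
      · exact a2.ne rfl
    · obtain ⟨e, e1, e2⟩ := removed_edge (G := G) (v := b) (u := u2) (by omega)
      have uu : u2 = u := by
        rcases (m1 e).1 e1.symm with rfl | rfl
        · rcases (m2 u2).1 e2 with rfl | rfl <;> omega
        · exact ((m4 u2).1 e2).resolve_left (by rintro rfl; omega)
      subst uu
      refine C.two_roots (fun w => (m4 w).trans or_comm) (fun w => (m8 w).trans or_comm) ub ub2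
        ?_ (plain_univ hb.1.ge hb.2.1) (plain_univ hb2.1.ge hb2.2.1) a.symm
        (fun e => hc.not_r0 (e ▸ hg)) (fun e => hc.not_r0 (e ▸ hg2)) hc.1.ge hc.not_r0
      rintro rfl
      rcases (m1 g2).1 a3.symm with rfl | rfl
      exacts [hg2.2.1 ht, gg rfl]
  have hu : R0 G u := by
    rcases C.types u with h | h | h | h | h
    exacts [by omega, absurd ⟨u, agu, h⟩ hg.2.2, absurd (C.r0_oneT h0.ge hg h hb agu agb) ub, h,
      by omega]
  have all0 : ∀ r, R0 G r → r = g ∨ r = u := fun r hr =>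
    two_of_card h0 (mem_sR0.2 hg) (mem_sR0.2 hu) agu.ne (mem_sR0.2 hr)
  obtain ⟨a', ag, aua⟩ := nb_other du2.ge g
  have m9 : ∀ w, G.Adj u w ↔ w = g ∨ w = a' := fun w =>
    ⟨nb2 du2.le agu.symm aua ag.symm, by rintro (rfl | rfl); exacts [agu.symm, aua]⟩
  have ta : ¬ Tn G a' := fun h => by
    obtain ⟨q, m, -, hq, -, hm, n4, n5, n6⟩ := C.tn_at h aua.symm hu.2.1
    have := (closed_card C.conn [g, u, b, t, x, a', q, m] (v0 := g) (by simp) (by
      simp only [List.mem_cons, List.not_mem_nil, or_false, forall_eq_or_imp, forall_eq, m1, m2,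
        m3, m4, m9, n4, n5, n6]
      simp)).1 y
    have := h.1
    have := C.par_two hq
    simp only [List.mem_cons, List.not_mem_nil, or_false] at *
    rcases ‹y = g ∨ _› with rfl | rfl | rfl | rfl | rfl | rfl | rfl | rfl <;> omega
  have da : dd G a' = 3 := by
    have := nonleaf hu.2.1 aua
    rcases C.types a' with h | h | h | h | h
    · omega
    · exact absurd ⟨a', aua, h⟩ hu.2.2
    · exact absurd h ta
    · rcases all0 a' h with e | e
      exacts [absurd e ag, absurd e.symm aua.ne]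
    · exact h
  have mY : ∀ e, e ∈ mv G univ p ↔ e ≠ l ∧ e ≠ c := fun e => by
    rw [mem_mv, G.adj_comm, n2]; simp
  have mt : t ∈ mv G univ p := mem_mv.2 ⟨mem_univ t, tp⟩
  have dx : dg G (mv G univ p) x ≤ 1 := (dg_le_dd _ x).trans hx
  have mZ : ∀ e, e ∈ mv G (mv G univ p) x ↔ (e ≠ l ∧ e ≠ c) ∧ e ≠ t := fun e => by
    rw [mem_mv_priv mt atx dx, mY]
  have hZ := mv_subset (G := G) (mv G univ p) x
  have mg : g ∈ mv G (mv G univ p) x :=
    (mem_mv_priv mt atx dx).2 ⟨mem_mv.2 ⟨mem_univ g, gp⟩, fun e => hg.2.1 (e ▸ ht)⟩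
  have pY := pp_univ.mv x0
  have db1 : dg G (mv G (mv G univ p) x) b ≤ 1 := by
    have := dg_lt hZ mt (fun m => ((mZ t).1 m).2 rfl) atb
    have := dg_le_dd (G := G) (mv G univ p) b
    omega
  have ppx : ∀ e ∈ mv G (mv G univ p) x, 2 ≤ dd G e → ¬ Par G e → e ≠ g →
      Plain G (mv G (mv G univ p) x) e := fun e me h1 h2 h3 => by
    refine (plain_split hZ me).2 ⟨pY e (hZ me) h1 h2, ?_⟩
    by_contra hk
    have pg := pY g (hZ mg) hg.1.ge hg.2.1
    have := sd_plain hZ me (pY e (hZ me) h1 h2) (by omega)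
    have := dg_pos mg agb
    have := sd_plain hZ mg pg (kk_pos agb (pg.dg agb) (by omega))
    have := sd2_le_ex me mg h3
    omega
  have bc : b ≠ c := by
    rintro rfl
    rcases (m1 y).1 a with rfl | rfl <;> omega
  have uniq : ∀ y' c', dd G y' = 3 → Tn G c' → G.Adj c' y' → y' = y := by
    intro y' c' dy' hc' ac'
    by_contra ny
    obtain ⟨p', l', b1, hp', b2, hl', n4, n5, n6⟩ := C.tn_at hc' ac' (C.three_not_par dy')
    have cc : c' ≠ c := by
      rintro rfl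
      rcases (n1 y').1 ac' with rfl | rfl
      exacts [by omega, ny rfl]
    have ml' := (mZ l').2 ⟨⟨fun e => cc (C.par_uniq hp (((n3 p').1 (e ▸ b2.symm)) ▸ b1.symm)
      ((n2 c).2 (Or.inr rfl)) hc'.1.ge hc.1.ge), by rintro rfl; omega⟩, by rintro rfl; omega⟩
    have mc' := (mZ c').2 ⟨⟨by rintro rfl; have := hc'.1; omega, cc⟩, fun e => hc'.2.1 (e ▸ ht)⟩
    obtain ⟨r1, r2, r3⟩ := C.par_move n4 n5 n6 hl' ml' mc'
      (ppx c' mc' hc'.1.ge hc'.2.1 fun e => hc'.not_r0 (e ▸ hg))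
    have x2 := r3 (by
      rw [dg_full fun e b3 => (mZ e).2 ⟨⟨?_, ?_⟩, ?_⟩, dy']
      · rintro rfl; rw [(n3 y').1 b3.symm] at dy'; omega
      · rintro rfl
        rcases (n1 y').1 b3.symm with rfl | rfl
        exacts [by omega, ny rfl]
      · rintro rfl
        rcases (m2 y').1 b3.symm with rfl | rfl <;> omega)
    obtain ⟨t', x', b', g', u', mt', a1, d1, a2, d2, mg', k1, a3, a4, k2, pl, all, d3, p2, -⟩ :=
      cold_five C.nb tZ cZ r1.ge r2.ge x2
    have hW := mv_subset (G := G) (mv G (mv G univ p) x) p'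
    rcases all0 g' (C.five_R0 a1 d1 a2 d2 k1 a3 a4 k2 pl all d3 p2) with rfl | rfl
    · have := pl.dg agb
      have := dg_mono (G := G) hW b
      omega
    by_cases pt : Par G t'
    · rcases (m9 b').1 a3 with rfl | rfl
      exacts [hg.2.2 ⟨t', a2.symm, pt⟩, hr2 b' ⟨da, t', a2.symm, pt⟩]
    by_cases tg : t' = g
    · subst tg
      rcases (m4 b').1 a2 with rfl | rfl
      · rcases (m9 b').1 a3 with e | e
        exacts [agb.ne e.symm, ta (e ▸ hb)]
      · exact a3.ne rfl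
    · have := (z_plain hW (sd_zero_of_ex x2) mt' (ppx t' (hW mt')
        (dd_ge2 a1 a2 (by rintro rfl; omega)) pt tg)).dg a1
      omega
  have tle : ((sT G).filter fun c' => G.Adj y c').card ≤ 2 := by
    by_contra hn
    obtain ⟨c1, c2, c3, k1, k2, k3, e12, e13, e23⟩ := two_lt_card_iff.1 (not_le.1 hn)
    simp only [mem_filter, mem_sT] at k1 k2 k3
    obtain ⟨-, ny⟩ := C.nb3_iff k1.2.symm k2.2.symm k3.2.symm e12 e13 e23
    obtain ⟨p1, l1, -, hp1, -, hl1, f1, g1, i1⟩ := C.tn_at k1.1 k1.2.symm py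
    obtain ⟨p2, l2, -, hp2, -, hl2, f2, g2, i2⟩ := C.tn_at k2.1 k2.2.symm py
    obtain ⟨p3, l3, -, hp3, -, hl3, f3, g3, i3⟩ := C.tn_at k3.1 k3.2.symm py
    have := (closed_card C.conn [y, c1, c2, c3, p1, p2, p3, l1, l2, l3] (v0 := y) (by simp) (by
      simp only [List.mem_cons, List.not_mem_nil, or_false, forall_eq_or_imp, forall_eq, ny, f1, f2,
        f3, g1, g2, g3, i1, i2, i3]
      simp)).1 g
    simp only [List.mem_cons, List.not_mem_nil, or_false] at this
    rcases this with rfl | rfl | rfl | rfl | rfl | rfl | rfl | rfl | rfl | rfl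
    exacts [by omega, k1.1.not_r0 hg, k2.1.not_r0 hg, k3.1.not_r0 hg, hg.2.1 hp1, hg.2.1 hp2,
      hg.2.1 hp3, by omega, by omega, by omega]
  have sub : sT G ⊆ insert b ((sT G).filter fun c' => G.Adj y c') := fun c' h => by
    have h' := mem_sT.1 h
    obtain ⟨d, k1, -, k2 | k2⟩ := C.tn_nb h'
    · rcases all0 d k2 with rfl | rfl
      · rcases (m4 c').1 k1.symm with rfl | rfl
        exacts [mem_insert_self _ _, absurd hu h'.not_r0]
      · rcases (m9 c').1 k1.symm with rfl | rfl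
        exacts [absurd hg h'.not_r0, absurd h' ta]
    · exact mem_insert_of_mem (mem_filter.2 ⟨h, (uniq d c' k2 h' k1 ▸ k1).symm⟩)
  have := (card_le_card sub).trans (card_insert_le _ _)
  have ay : a' = y := card_le_one.1 (show (s3 G).card ≤ 1 by omega) _ (mem_s3.2 da) _ (mem_s3.2 dy)
  subst ay
  obtain ⟨y3, f1, f2, f3⟩ := nb_third dy.ge u c
  have mx := (mZ x).2 ⟨⟨fun e => tp (by
    rw [(m3 p).1 (e ▸ ((n2 l).2 (Or.inl rfl)).symm)] at n2
    rcases (n2 b).1 atb with h | h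
    exacts [by rw [h] at db; omega, absurd h bc]), by rintro rfl; omega⟩, by rintro rfl; omega⟩
  have mb := (mZ b).2 ⟨⟨by rintro rfl; omega, bc⟩, fun e => hb.2.1 (e ▸ ht)⟩
  have mu := (mZ u).2 ⟨⟨by rintro rfl; omega, fun e => hc.not_r0 (e ▸ hu)⟩,
    fun e => hu.2.1 (e ▸ ht)⟩
  obtain ⟨r1, r2, -⟩ := C.par_move m1 m2 m3 hx mx mb (ppx b mb hb.1.ge hb.2.1 agb.ne.symm)
  have hW := mv_subset (G := G) (mv G (mv G univ p) x) t
  have mu' : u ∈ mv G (mv G (mv G univ p) x) t := mem_mv.2 ⟨mu, fun e => by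
    rcases (m2 u).1 e.symm with h | h
    exacts [by rw [h] at du2; omega, ub h]⟩
  have pu := ppx u mu du2.ge hu.2.1 agu.ne.symm
  rcases touch (v := t) (dg_ge_two mb mu ub.symm agb.symm agu.symm) mu agu.symm (fun f _ e => by
    rcases (m4 f).1 e.symm with rfl | rfl
    exacts [Or.inr atb.symm, Or.inl rfl]) with h | ⟨-, -, k1⟩
  · have := dg_pos mu' agu.symm; omega
  have hot := cold_six C.nb tZ cZ r1.ge r2.ge mu' pu k1
  have d3 := nonleaf py f3
  have p3 : ¬ Par G y3 := fun h => hr2 a' ⟨dy, y3, f3, h⟩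
  have m3' := (mZ y3).2 ⟨⟨by rintro rfl; omega, f2⟩, fun e => p3 (e ▸ ht)⟩
  have m3'' : y3 ∈ mv G (mv G (mv G univ p) x) t := mem_mv.2 ⟨m3', fun e => by
    rcases (m2 y3).1 e.symm with rfl | rfl
    · omega
    · rcases (m1 a').1 f3.symm with rfl | rfl <;> omega⟩
  have i1 := dg_ge_two mu' m3'' f1.symm aua f3.symm
  have i2 := dg_mono (G := G) hW a'
  have i3 : dg G (mv G (mv G univ p) x) a' < dd G a' := dg_lt (subset_univ _) (mem_univ c)
    (fun m => ((mZ c).1 m).1.2 rfl) a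
  have i5 := hot.2 a' aua (by omega) y3 m3'' f1 f3.symm
  have px := ppx y3 m3' d3 p3 (by
    rintro rfl
    rcases (m4 a').1 f3.symm with rfl | rfl <;> omega)
  have i6 := na_split (G := G) hW m3''
  have i7 := px.1
  have := sd_plain hW m3'' px (by omega)
  have := sd_plain hW mu' pu k1
  have := sd2_le_ex m3'' mu' f1
  have := bs_ex_le C.nb tZ r1.ge
  omega

end Ctx2

end Pool.Agent.Lib.MP_77fd7e_co
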