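import Pool.Agent.Lib.MP_77fd7e_co.Tight

namespace Pool.Agent.Lib.MP_77fd7e_co

open Finset

set_option linter.unusedSectionVars false

variable {V : Type} [Fintype V] [DecidableEq V] {G : SimpleGraph V} [DecidableRel G.Adj]

theorem kk_zero {X Y : Finset V} (hY : Y ⊆ X) {g : V} (hg : g ∈ Y) (hz : sd G X Y g ≤ 0)
    (h : 0 < na G Y g) : kk G X Y g = 0 := by
  rcases sd_cases (G := G) hY hg with h | h | h | h | h <;> omega

theorem dg_of_kk {X Y : Finset V} {g u : V} (hg : g ∈ Y) (hk : kk G X Y g = 0) (a : G.Adj g u)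
    (hu : 2 ≤ dg G X u) : 2 ≤ dg G Y u := by
  by_contra hc
  have := dg_pos hg a
  have := kk_pos (Y := Y) a hu (by omega)
  omega

theorem mem_of_dg_eq {X Y : Finset V} (hY : Y ⊆ X) {u h : V} (hd : dg G X u ≤ dg G Y u)
    (hh : h ∈ X) (a : G.Adj h u) : h ∈ Y := by
  by_contra hc
  have := dg_lt hY hh hc a
  omega

theorem new_hot {X : Finset V} (hc : Cold G X) {v g e : V} (hex : ex G X v ≤ 1)
    (hg : g ∈ mv G X v) (hp : Plain G X g) (hk : 0 < kk G X (mv G X v) g)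
    (he : Hot G (mv G X v) e) : e = g ∨ ∃ z, G.Adj g z ∧ G.Adj e z ∧ e ≠ g ∧ Pend G X e ∧
      dg G X z = 2 ∧ dg G (mv G X v) z = 2 ∧ na G (mv G X v) g = 1 ∧
      na G (mv G X v) e = na G X e := by
  by_cases heg : e = g
  · exact Or.inl heg
  right
  have hY := mv_subset (G := G) X v
  have s1 := sd_plain hY hg hp hk
  have s2 : ∀ h ∈ mv G X v, h ≠ g → sd G X (mv G X v) h ≤ 0 := fun h hh hne => by
    have := sd2_le_ex hh hg hne
    omega
  have k1 := kk_zero hY he.1.1 (s2 e he.1.1 heg) he.1.2.2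
  have n1 := na_split (G := G) hY he.1.1
  have hpe : Pend G X e := by
    refine ⟨hY he.1.1, ?_, by have := he.1.2.2; omega⟩
    rcases (pv_split hY he.1.1).1 he.1.2.1 with h | h
    exacts [h, by omega]
  have hn := hc e
  unfold Hot at hn
  push Not at hn
  obtain ⟨z, a, hz, h, hh, hne, b, hna⟩ := hn hpe
  have d1 := dg_of_kk he.1.1 k1 a hz.ge
  have d2 := dg_mono (G := G) hY z
  have hh' := mem_of_dg_eq hY (by omega) hh b
  have n2 := he.2 z a (by omega) h hh' hne b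
  have hhg : h = g := by
    by_contra hc'
    have := kk_zero hY hh' (s2 h hh' hc') (by omega)
    have := na_split (G := G) hY hh'
    omega
  subst hhg
  exact ⟨z, b, a, heg, hpe, hz, by omega, n2, by omega⟩

theorem pend_cold {X : Finset V} {e u : V} (he : Pend G X e) (a : G.Adj e u) (hu : 2 ≤ dg G X u)
    (h5 : bs G X u ≤ 5) : dg G X u = 2 ∧ ∀ f ∈ X, f ≠ e → G.Adj f u → Plain G X f := by
  have h1 := bs_ge1 he.1 a
  have h2 := he.wt
  refine ⟨by omega, fun f hf hne b => ?_⟩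
  have := bs_ge2 he.1 a hf b hne.symm
  exact plain_of_wt (by omega)

section

variable (hG : ∀ v, ∃ w, G.Adj v w)
include hG

theorem cold_pend {X : Finset V} (ht : Tight G X) (hc : Cold G X) {e : V} (he : Pend G X e) :
    na G X e = 1 := by
  by_contra hna
  have hna2 : 2 ≤ na G X e := by have := he.2.2; omega
  obtain ⟨u, a, hu⟩ := na_ex he.2.2
  obtain ⟨u', hne, a', hu'⟩ := na_ex_other hna2 u
  obtain ⟨d', p'⟩ := pend_cold he a' hu' (cold_bs hG ht hc hu')
  obtain ⟨f', hf', nf', b'⟩ := dg_ex_other hu' e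
  have pf' := p' f' hf' nf' b'
  have o1 := dg_other d'.le he.1 hf' nf' a' b' a
  have h1 := pend_bs he a hu
  have h2 := bs_ex_le hG ht hu
  have hY := mv_subset (G := G) X u
  rcases touch hu' hf' b' o1 with h | ⟨m1, e1, k1⟩
  · have := dp_le_ex hne hu' h; omega
  have s1 := sd_plain hY m1 pf' k1
  have s2 := sd_le_ex m1
  obtain ⟨e5, -, he5, -⟩ := six_move' hG ht hu (by omega)
  obtain ⟨w, c, hw, hb⟩ : ∃ w, G.Adj f' w ∧ 2 ≤ dg G (mv G X u) w ∧ 5 ≤ bs G X w := by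
    rcases new_hot hc (by omega) m1 pf' k1 he5 with rfl | ⟨z, c, c', -, hp, d1, d2, -⟩
    · obtain ⟨w, c, hw⟩ := na_ex he5.1.2.2
      refine ⟨w, c, hw, ?_⟩
      have d1 := dg_mono (G := G) hY w
      by_cases h3 : 3 ≤ dg G X w
      · have := bs_ge (G := G) X w; omega
      · obtain ⟨h, hh, nh, c'⟩ := dg_ex_other hw e5
        have n1 := he5.2 w c (by omega) h hh nh c'
        have := sd2_le_ex hh m1 nh
        have := kk_zero (G := G) hY hh (by omega) (by omega)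
        have := na_split (G := G) hY hh
        have : 2 ≤ wt G X h := wt_ge_two fun hp => by have := hp.1; omega
        have := bs_ge1 (hY hh) c'
        omega
    · exact ⟨z, c, d2.ge, pend_bs hp c' d1.ge⟩
  have hw' := hw.trans (dg_mono hY w)
  have h3 := bs_ex_le hG ht hw'
  have hew : ¬ G.Adj e w := fun c' => by
    have := (pend_cold he c' hw' (cold_bs hG ht hc hw')).1
    have := dg_lt hY he.1 (fun h => (mem_mv.1 h).2 a) c'
    omega
  have m2 : e ∈ mv G X w := mem_mv.2 ⟨he.1, hew⟩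
  rcases touch hu' he.1 a' (dg_other d'.le hf' he.1 nf'.symm b' a' c) with h | ⟨-, -, k2⟩
  · have := dg_pos m2 a'; omega
  have := sd_le_ex m2
  have := na_split (G := G) (mv_subset X w) m2
  rcases sd_cases (G := G) (mv_subset X w) m2 with h | h | h | h | h
  · omega
  · exact he.not_plain h.1
  · exact he.not_plain h.1
  · omega
  · omega

theorem cold_six {X : Finset V} (ht : Tight G X) (hc : Cold G X) {v g : V} (hv : 2 ≤ dg G X v)
    (h5 : 5 ≤ bs G X v) (hg : g ∈ mv G X v) (hp : Plain G X g)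
    (hk : 0 < kk G X (mv G X v) g) : Hot G (mv G X v) g := by
  have hY := mv_subset (G := G) X v
  have h2 := bs_ex_le hG ht hv
  have s1 := sd_plain hY hg hp hk
  have s2 := sd_le_ex hg
  obtain ⟨e5, -, he5, -⟩ := six_move' hG ht hv (by omega)
  rcases new_hot hc (by omega) hg hp hk he5 with rfl | ⟨z, c, c', ne, hp', d1, d2, n1, n2⟩
  · exact he5
  · refine ⟨⟨hg, (pv_split hY hg).2 (Or.inr hk), by omega⟩, fun u a hu h hh nh b => ?_⟩
    have := na_one_eq n1.le a hu.ge c d2.ge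
    subst this
    rcases dg_two_eq hu.le hg he5.1.1 hh ne.symm c c' b with rfl | rfl
    · exact absurd rfl nh
    · rw [n2, cold_pend hG ht hc hp']

theorem cold_five {X : Finset V} (ht : Tight G X) (hc : Cold G X) {v : V} (hv : 2 ≤ dg G X v)
    (h5 : 5 ≤ bs G X v) (hz : ex G X v ≤ 0) : ∃ t x b g u,
      t ∈ mv G X v ∧ G.Adj t x ∧ dg G (mv G X v) x ≤ 1 ∧ G.Adj t b ∧ dg G (mv G X v) b = 2 ∧
      g ∈ mv G X v ∧ g ≠ t ∧ G.Adj g b ∧ G.Adj g u ∧ u ≠ b ∧ Plain G (mv G X v) g ∧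
      (∀ y, G.Adj g y → y = b ∨ y = u) ∧ dg G (mv G X v) u = 2 ∧
      (∀ h ∈ mv G X v, h ≠ g → G.Adj h u → Plain G (mv G (mv G X v) x) h) ∧
      ex G (mv G X v) x ≤ 1 ∧
      Tight G (mv G (mv G X v) x) ∧ Cold G (mv G (mv G X v) x) := by
  have hY := mv_subset (G := G) X v
  have z1 := sd_zero_of_ex hz
  have h1 := cold_bs hG ht hc hv
  have h2 := gain_np hv
  have h3 := ex_nonneg (G := G) X v
  have hcY : Cold G (mv G X v) := fun e he => hc e (z_hot hY z1 he)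
  rcases step hG ht (lg_of_dg (show 1 ≤ dg G X v by omega)) with h | ⟨x, hx, h8, h9⟩
  · omega
  have h4 := S_ge_three hcY hx
  obtain ⟨htZ, -⟩ := h9 (by omega)
  rcases S_cases hx with h | ⟨t, hpt, at', dx, gx⟩
  · omega
  have nt : na G (mv G X v) t = 1 := by
    rw [← z_na hY z1 hpt.1 hpt.2.2, cold_pend hG ht hc (z_pend hY z1 hpt)]
  have hn := hcY t
  unfold Hot at hn
  push Not at hn
  obtain ⟨b, ab, db, g, hg, ngt, gb, hna⟩ := hn hpt
  have ng := na_pos gb db.ge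
  have pg : Plain G (mv G X v) g := ⟨by omega, fun h => hna (by
    rw [← z_na hY z1 hg ng, cold_pend hG ht hc (z_pend hY z1 ⟨hg, h, ng⟩)])⟩
  have hZ := mv_subset (G := G) (mv G X v) x
  have mZ : ∀ h, h ∈ mv G (mv G X v) x ↔ h ∈ mv G X v ∧ h ≠ t := fun h =>
    mem_mv_priv hpt.1 at' dx
  have hgZ := (mZ g).2 ⟨hg, ngt⟩
  have dd : ∀ y, y ≠ b → 2 ≤ dg G (mv G X v) y →
      dg G (mv G (mv G X v) x) y = dg G (mv G X v) y := fun y hy h2 =>
    dg_eq_of hZ fun h hh c => (mZ h).2 ⟨hh, fun h' => hy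
      (na_one_eq nt.le (h' ▸ c) h2 ab db.ge)⟩
  rcases touch db.ge hg gb (dg_other db.le hpt.1 hg ngt ab gb at') with h | ⟨-, e1, k1⟩
  · have := dg_pos hgZ gb; omega
  obtain ⟨u, ub, gu, du⟩ := na_ex_other pg.1 b
  have du' := dd u ub du
  have hpZ : Pend G (mv G (mv G X v) x) g := ⟨hgZ, ⟨b, gb, e1.le⟩, na_pos gu (by omega)⟩
  have hcZ : Cold G (mv G (mv G X v) x) := by
    have key : ∀ e, Hot G (mv G (mv G X v) x) e → G.Adj e u := fun e he => by
      rcases new_hot hcY (by omega) hgZ pg k1 he with rfl | ⟨z, c, c', -, -, -, d2, n1, -⟩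
      · exact gu
      · rwa [na_one_eq n1.le gu (by omega) c d2.ge]
    intro e he
    have l1 := hot_bs he (key e he) (by omega)
    have l2 := bs_ex_le hG htZ (show 2 ≤ dg G _ u by omega)
    have l3 := ex_nonneg (G := G) (mv G (mv G X v) x) u
    obtain ⟨e6, -, he6, -⟩ := six_move' hG htZ (show 2 ≤ dg G _ u by omega) (by omega)
    exact (mem_mv.1 he6.1.1).2 (key e6 (z_hot (mv_subset _ u) (sd_zero_of_ex (by omega)) he6))
  have n2 := cold_pend hG htZ hcZ hpZ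
  obtain ⟨d3, p3⟩ := pend_cold hpZ gu (by omega) (cold_bs hG htZ hcZ (by omega))
  refine ⟨t, x, b, g, u, hpt.1, at', dx, ab, db, hg, ngt, gb, gu, ub, pg, fun y c => ?_, by omega,
    fun h hh nh c => p3 h (mem_of_dg_eq hZ (by omega) hh c) nh c, by omega, htZ, hcZ⟩
  by_cases hy : y = b
  · exact Or.inl hy
  · have := pg.dg c
    have := dd y hy this
    exact Or.inr (na_one_eq n2.le c (by omega) gu (by omega))

end

variable (G) in
/-- Four vertices of degree two whose neighbourhoods form a four-cycle. -/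
def Quad : Prop := ∃ a1 a2 a3 a4 w1 w2 w3 w4 : V, a1 ≠ a2 ∧ a1 ≠ a3 ∧ a1 ≠ a4 ∧ a2 ≠ a3 ∧
  a2 ≠ a4 ∧ a3 ≠ a4 ∧ (∀ x, G.Adj w1 x ↔ x = a1 ∨ x = a2) ∧ (∀ x, G.Adj w2 x ↔ x = a2 ∨ x = a3) ∧
  (∀ x, G.Adj w3 x ↔ x = a3 ∨ x = a4) ∧ (∀ x, G.Adj w4 x ↔ x = a4 ∨ x = a1)

end Pool.Agent.Lib.MP_77fd7e_co
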