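import Pool.Agent.Lib.MP_77fd7e_co.Cold

namespace Pool.Agent.Lib.MP_77fd7e_co

open Finset

set_option linter.unusedSectionVars false

variable {V : Type} [Fintype V] [DecidableEq V] {G : SimpleGraph V} [DecidableRel G.Adj]

variable (hG : ∀ v, ∃ w, G.Adj v w)
include hG

theorem quad_case {X : Finset V} (ht : Tight G X) (hX : X ≠ ∅) (hp : ∀ e ∈ X, Plain G X e)
    (hd : ∀ v, dg G X v ≤ 2) : Quad G ∧ mu G X ≤ gv G X true + 1 := by
  obtain ⟨u, hu⟩ := exists_lg hG hX
  obtain ⟨h2, hb, hx1, hx2⟩ := allplain hp hd hu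
  have hY := mv_subset (G := G) X u
  have g1 := gain_np h2
  have g2 := gain_le_six hG ht hu
  have hex : ex G X u = 2 := by
    by_contra hc
    rcases step hG ht hu with h | ⟨w, hw, h, -⟩
    · omega
    · have := S_ge_four (hx2 (by omega)) hw
      omega
  obtain ⟨e, w, he, aw, dw, xw, gw, htZ, hv⟩ := six_move hG ht hu (by omega)
  have ke : 0 < kk G X (mv G X u) e := by
    rcases (pv_split hY he.1.1).1 he.1.2.1 with h | h
    exacts [absurd h (hp _ (hY he.1.1)).2, h]
  have se := sd_plain hY he.1.1 (hp _ (hY he.1.1)) ke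
  have other : ∀ z, G.Adj e z → 2 ≤ dg G (mv G X u) z → ∃ h ∈ mv G X u, h ≠ e ∧ G.Adj h z ∧
      na G (mv G X u) h = 1 ∧ 1 ≤ sd G X (mv G X u) h := fun z a hz => by
    obtain ⟨h, hh, nh, b⟩ := dg_ex_other hz e
    have := dg_mono (G := G) hY z
    have := hd z
    have n1 := he.2 z a (by omega) h hh nh b
    have := na_split (G := G) hY hh
    have := (hp _ (hY hh)).1
    exact ⟨h, hh, nh, b, n1, sd_plain hY hh (hp _ (hY hh)) (by omega)⟩
  obtain ⟨z, az, dz⟩ := na_ex he.1.2.2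
  obtain ⟨h, hh, nh, bz, n1, sh⟩ := other z az dz
  have two : ∀ g ∈ mv G X u, 1 ≤ sd G X (mv G X u) g → g = e ∨ g = h := fun g hg sg => by
    by_contra hc
    push Not at hc
    have := sd3_le_ex hg he.1.1 hh hc.1 hc.2 nh.symm
    omega
  have n2 : na G (mv G X u) e = 1 := by
    by_contra hc
    have := he.1.2.2
    obtain ⟨z', nz, az', dz'⟩ := na_ex_other (show 2 ≤ na G (mv G X u) e by omega) z
    obtain ⟨h', hh', nh', bz', -, sh'⟩ := other z' az' dz'
    rcases two h' hh' sh' with rfl | rfl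
    · exact nh' rfl
    · exact nz (na_one_eq n1.le bz' dz' bz dz)
  have s2 := sd2_le_ex he.1.1 hh nh.symm
  have both : ∀ g, g = e ∨ g = h → ∀ y, G.Adj g y → 2 ≤ dg G X y → dg G (mv G X u) y = 1 →
      ∀ x, G.Adj g x ↔ x = y ∨ x = z := fun g hg y a hy hy' x => by
    have k1 : g ∈ mv G X u ∧ na G (mv G X u) g = 1 ∧ G.Adj g z ∧ sd G X (mv G X u) g ≤ 1 := by
      rcases hg with rfl | rfl
      exacts [⟨he.1.1, n2, az, by omega⟩, ⟨hh, n1, bz, by omega⟩]
    obtain ⟨m, n, a', s⟩ := k1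
    refine ⟨fun c => ?_, by rintro (rfl | rfl); exacts [a, a']⟩
    have d1 := (hp _ (hY m)).dg c
    have d2 := dg_pos m c
    by_cases d3 : 2 ≤ dg G (mv G X u) x
    · exact Or.inr (na_one_eq n.le c d3 a' dz)
    · left
      by_contra hne
      have := kk_ge_two hne a hy hy' c d1 (by omega)
      have := hp _ (hY m)
      rcases sd_cases (G := G) hY m with h | h | h | h | h
      · omega
      · omega
      · omega
      · exact h.1 this
      · exact h.1 this
  have side : ∀ f ∈ X, G.Adj f u → ∀ y, G.Adj f y → y ≠ u → dg G (mv G X u) y = 1 ∧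
      ∃ g, (g = e ∨ g = h) ∧ G.Adj g y := fun f hf a y b ny => by
    have d1 := (hp f hf).dg b
    obtain ⟨g, hg, ng, c⟩ := dg_ex_other d1 f
    rcases touch d1 hg c (dg_other (hd y) hf hg ng b c a) with h' | ⟨m, e1, k⟩
    · have := dp_sd_le_ex ny d1 h' hh; omega
    · exact ⟨e1, g, two g m (sd_plain hY m (hp _ hg) k), c⟩
  obtain ⟨f1, hf1, a1⟩ := hu
  obtain ⟨f2, hf2, hne, a2⟩ := dg_ex_other h2 f1
  obtain ⟨y1, hy1, b1, d1⟩ := na_ex_other (hp f1 hf1).1 u
  obtain ⟨y2, hy2, b2, d2⟩ := na_ex_other (hp f2 hf2).1 u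
  have notboth : ∀ y, y ≠ u → G.Adj f1 y → G.Adj f2 y → False := fun y ny c1 c2 => by
    obtain ⟨-, g, hg, c⟩ := side f1 hf1 a1 y c1 ny
    have m : g ∈ mv G X u := by rcases hg with rfl | rfl; exacts [he.1.1, hh]
    rcases dg_two_eq (hd y) hf1 hf2 (hY m) hne.symm c1 c2 c with rfl | rfl
    exacts [(mem_mv.1 m).2 a1, (mem_mv.1 m).2 a2]
  have hy : y1 ≠ y2 := fun h' => notboth y1 hy1 b1 (h' ▸ b2)
  obtain ⟨e1, p1, hp1, c1⟩ := side f1 hf1 a1 y1 b1 hy1
  obtain ⟨e2, p2, hp2, c2⟩ := side f2 hf2 a2 y2 b2 hy2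
  have q1 := both p1 hp1 y1 c1 d1 e1
  have q2 := both p2 hp2 y2 c2 d2 e2
  have z1 : y1 ≠ z := fun h' => by rw [h'] at e1; omega
  have z2 : y2 ≠ z := fun h' => by rw [h'] at e2; omega
  have zu : u ≠ z := fun h' => by
    have := dg_mv_self (G := G) X u
    rw [← h'] at dz
    omega
  have np12 : p1 ≠ p2 := fun h' => by
    rcases (q1 y2).1 (h' ▸ c2) with h'' | h''
    exacts [hy h''.symm, z2 h'']
  have nb : ∀ f ∈ X, G.Adj f u → ∀ y, G.Adj f y → y = u ∨ y = y1 ∨ y = y2 := fun f hf a y b => by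
    by_cases ny : y = u
    · exact Or.inl ny
    obtain ⟨e3, g, hg, c⟩ := side f hf a y b ny
    have nz : y ≠ z := fun h' => by rw [h'] at e3; omega
    have : g = p1 ∨ g = p2 := by
      rcases hg with rfl | rfl <;> rcases hp1 with rfl | rfl <;> rcases hp2 with rfl | rfl <;>
        simp at np12 ⊢
    rcases this with rfl | rfl
    · exact Or.inr (Or.inl (((q1 y).1 c).resolve_right nz))
    · exact Or.inr (Or.inr (((q2 y).1 c).resolve_right nz))
  refine ⟨⟨u, y1, z, y2, f1, p1, p2, f2, hy1.symm, zu, hy2.symm, z1, hy, z2.symm, fun x => ?_, q1,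
    fun x => (q2 x).trans or_comm, fun x => ?_⟩, ?_⟩
  · refine ⟨fun c => ?_, by rintro (rfl | rfl); exacts [a1, b1]⟩
    rcases nb f1 hf1 a1 x c with h' | h' | h'
    exacts [Or.inl h', Or.inr h', (notboth x (h' ▸ hy2) c (h' ▸ b2)).elim]
  · refine ⟨fun c => ?_, by rintro (rfl | rfl); exacts [b2, a2]⟩
    rcases nb f2 hf2 a2 x c with h' | h' | h'
    exacts [Or.inr h', (notboth x (h' ▸ hy1) (h' ▸ b1) c).elim, Or.inl h']
  have m1 := mu_np h2
  have m2 := mu_move (G := G) ⟨e, he.1.1, aw⟩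
  have hZ := mv_subset (G := G) (mv G X u) w
  have mZ : ∀ g, g ∈ mv G (mv G X u) w ↔ g ∈ mv G X u ∧ g ≠ e := fun g =>
    mem_mv_priv he.1.1 aw dw
  have hhZ := (mZ h).2 ⟨hh, nh⟩
  have n0 : na G (mv G (mv G X u) w) h = 0 := by
    by_contra hc
    obtain ⟨x, c, dx⟩ := na_ex (Nat.pos_of_ne_zero hc)
    have := na_one_eq n1.le c (dx.trans (dg_mono hZ x)) bz dz
    subst this
    have := dg_lt hZ he.1.1 (fun h' => ((mZ e).1 h').2 rfl) az
    have := dg_mono (G := G) hY x
    have := hd x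
    omega
  obtain ⟨i1, i2⟩ := iso_ex hhZ bz n0
  have g3 := gain_priv hhZ bz i1
  have m3 := mu_priv hhZ bz i1
  rw [wt_four n0] at g3
  rw [if_pos n0] at m3
  rcases step hG htZ ⟨h, hhZ, bz⟩ with ⟨h', -⟩ | ⟨w', hw', h8, -⟩
  · unfold gain at g3
    unfold Tight at htZ
    rw [h', phi_empty] at g3
    rw [h', mu_empty] at m3
    omega
  · exfalso
    have hW := mv_subset (G := G) (mv G (mv G X u) w) z
    have pl : ∀ g ∈ mv G (mv G (mv G X u) w) z, Plain G (mv G (mv G (mv G X u) w) z) g := by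
      intro g hg
      have l1 := (mem_mv_priv hhZ bz i1).1 hg
      have l2 := (mZ g).1 l1.1
      refine z_plain hW (sd_zero_of_ex i2.le) hg (z_plain hZ (sd_zero_of_ex xw) l1.1
        ((plain_split hY l2.1).2 ⟨hp _ (hY l2.1), ?_⟩))
      by_contra hk
      rcases two g l2.1 (sd_plain hY l2.1 (hp _ (hY l2.1)) (by omega)) with h' | h'
      exacts [l2.2 h', l1.2 h']
    obtain ⟨j1, j2, j3, -⟩ := allplain pl
      (fun v => (dg_mono (hW.trans (hZ.trans hY)) v).trans (hd v)) hw'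
    have := gain_np j1
    omega

theorem count_bound {X : Finset V} (ht : Tight G X) :
    mu G X ≤ gv G X true ∨ (Quad G ∧ mu G X ≤ gv G X true + 1) := by
  induction h : X.card using Nat.strong_induction_on generalizing X with
  | _ n ih =>
    have red : ∀ v w, Lg G X v → Lg G (mv G X v) w → Tight G (mv G (mv G X v) w) →
        gv G X true = gv G (mv G (mv G X v) w) true + 2 → mu G X ≤ mu G (mv G (mv G X v) w) + 2 →
        mu G X ≤ gv G X true ∨ (Quad G ∧ mu G X ≤ gv G X true + 1) := by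
      intro v w hv hw h1 h2 h3
      rcases ih _ (h ▸ (mv_card_lt hw).trans (mv_card_lt hv)) h1 rfl with h' | h'
      · left; omega
      · right; exact ⟨h'.1, by omega⟩
    by_cases hX : X = ∅
    · left; rw [hX, mu_empty, gv_empty]; rfl
    by_cases h5 : ∃ v, 2 ≤ dg G X v ∧ 5 ≤ bs G X v ∧ (6 ≤ bs G X v + ex G X v ∨ Cold G X)
    · obtain ⟨v, hv, hb, h6⟩ := h5
      have lv : Lg G X v := lg_of_dg (by omega)
      have g1 := gain_np hv
      have m1 := mu_np hv
      have x1 := ex_nonneg (G := G) X v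
      rcases step hG ht lv with h' | ⟨w, hw, h8, h9⟩
      · omega
      have m2 := mu_move hw
      have g2 := gain_ge_two hw
      have : 8 ≤ gain G X v + gain G (mv G X v) w := by
        by_cases h7 : 6 ≤ bs G X v + ex G X v
        · omega
        · have := S_ge_three (fun e he => h6.resolve_left h7 e
            (z_hot (mv_subset X v) (sd_zero_of_ex (by omega)) he)) hw
          omega
      exact red v w lv hw (h9 this).1 (h9 this).2 (by omega)
    have hc : Cold G X := fun e he => by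
      obtain ⟨v, a, hv⟩ := na_ex he.1.2.2
      have := hot_bs he a hv
      have := ex_nonneg (G := G) X v
      exact h5 ⟨v, hv, by omega, Or.inl (by omega)⟩
    have h4 : ∀ v, 2 ≤ dg G X v → bs G X v ≤ 4 := fun v hv => by
      by_contra hc'
      exact h5 ⟨v, hv, by omega, Or.inr hc⟩
    by_cases h0 : ∃ e ∈ X, na G X e = 0
    · obtain ⟨e, he, h0⟩ := h0
      obtain ⟨v, a⟩ := hG e
      obtain ⟨h1, h2⟩ := iso_ex he a h0
      have h3 := gain_priv he a h1
      have m1 := mu_priv he a h1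
      rw [wt_four h0] at h3
      rw [if_pos h0] at m1
      have np' : ∀ g, ¬ Pend G (mv G X v) g := fun g hg => no_pend_of_bs h4 g
        (z_pend (mv_subset X v) (sd_zero_of_ex h2.le) hg)
      rcases step hG ht ⟨e, he, a⟩ with ⟨h', -⟩ | ⟨w, hw, h8, h9⟩
      · left
        unfold gain at h3
        unfold Tight at ht
        rw [h', phi_empty] at h3
        rw [h', mu_empty] at m1
        omega
      · have g2 := S_ge_four np' hw
        have m2 := mu_move' hw np'
        exact red v w ⟨e, he, a⟩ hw (h9 (by omega)).1 (h9 (by omega)).2 (by omega)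
    · obtain ⟨hp, hd⟩ := allplain_of_bs h4 fun e he h => h0 ⟨e, he, h⟩
      exact Or.inr (quad_case hG ht hX hp hd)

end Pool.Agent.Lib.MP_77fd7e_co
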