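import Mathlib

namespace Pool.Agent.Lib.MP_77fd7e_co

variable {V : Type} [Fintype V] [DecidableEq V]

/-- With `S` the set of vertices picked so far, `v` may be picked: some neighbour `u` of `v` has
no neighbour in `S`. -/
def Legal (G : SimpleGraph V) (S : Finset V) (v : V) : Prop :=
  ∃ u, G.Adj u v ∧ ∀ s ∈ S, ¬ G.Adj u s

open Classical in
/-- The number of further picks under optimal play when `S` has been picked so far; `dom = true`
when Dominator (who minimises) is to move, `dom = false` when Staller (who maximises) is. -/
noncomputable def value (G : SimpleGraph V) (S : Finset V) (dom : Bool) : ℕ :=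
  if ∀ u, ∃ s ∈ S, G.Adj u s then 0
  else if dom then 1 + ⨅ v : {v // Legal G S v}, value G (insert v.1 S) false
  else 1 + ⨆ v : {v // Legal G S v}, value G (insert v.1 S) true
termination_by (Finset.univ \ S).card
decreasing_by
  all_goals
    obtain ⟨u, hu, hS⟩ := v.2
    have hv : v.1 ∉ S := fun h => hS _ h hu
    refine Finset.card_lt_card ⟨fun x hx => ?_, fun h => ?_⟩
    · simp only [Finset.mem_sdiff, Finset.mem_univ, Finset.mem_insert, true_and, not_or] at hx ⊢
      exact hx.2
    · have := h (Finset.mem_sdiff.2 ⟨Finset.mem_univ v.1, hv⟩)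
      simp at this

/-- The game total domination number: Dominator starts, nothing is picked yet. -/
noncomputable def gammaTg (G : SimpleGraph V) : ℕ := value G ∅ true

/-- The tree on 12 vertices: an edge `0 1`, and at each of its two ends a pendant path with three
further vertices and a pendant path with two further vertices. -/
def tree12 : SimpleGraph (Fin 12) := SimpleGraph.fromRel fun i j =>
  (i.val, j.val) ∈ [(0, 1), (0, 2), (2, 3), (3, 4), (0, 5), (5, 6),
    (1, 7), (7, 8), (8, 9), (1, 10), (10, 11)]

/-- The graph on 24 vertices: the cycle `0, 1, ..., 7` with a pendant path `i, i + 8, i + 16` at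
each of its vertices. -/
def sun24 : SimpleGraph (Fin 24) := SimpleGraph.fromRel fun i j =>
  (i.val < 8 ∧ j.val = (i.val + 1) % 8) ∨ (i.val < 16 ∧ j.val = i.val + 8)

end Pool.Agent.Lib.MP_77fd7e_co
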