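import Pool.Agent.Lib.MP_77fd7e_co.Beta

namespace Pool.Agent.Lib.MP_77fd7e_co

open Finset SimpleGraph

set_option linter.unusedSectionVars false

variable {V : Type} [Fintype V] [DecidableEq V] {G : SimpleGraph V} [DecidableRel G.Adj]

theorem iso_of (hc : G.Connected) {m : ℕ} (H : SimpleGraph (Fin m)) (nb : Fin m → List (Fin m))
    (hnb : ∀ i j, H.Adj i j ↔ j ∈ nb i) (f : Fin m → V) (i0 : Fin m)
    (hn : Fintype.card V ≤ m → Fintype.card V = m)
    (h : ∀ i w, G.Adj (f i) w ↔ w ∈ (nb i).map f) : Nonempty (G ≃g H) := by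
  have surj : Function.Surjective f := fun x => by
    have := closed_univ hc (univ.image f) (v0 := f i0) (mem_image_of_mem f (mem_univ _)) (by
      intro v hv w a
      obtain ⟨i, -, rfl⟩ := mem_image.1 hv
      obtain ⟨j, -, rfl⟩ := List.mem_map.1 ((h i w).1 a)
      exact mem_image_of_mem f (mem_univ _)) x
    simpa using this
  have hcard := hn (by simpa using Fintype.card_le_of_surjective f surj)
  have bij : Function.Bijective f :=
    (Fintype.bijective_iff_surjective_and_card f).2 ⟨surj, by simp [hcard]⟩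
  refine ⟨RelIso.symm ⟨Equiv.ofBijective f bij, fun {i j} => ?_⟩⟩
  rw [Equiv.ofBijective_apply, Equiv.ofBijective_apply, h, hnb, List.mem_map_of_injective bij.1]

def nbP4 : Fin 4 → List (Fin 4) := ![[1], [0, 2], [3, 1], [2]]
def nbP8 : Fin 8 → List (Fin 8) := ![[1], [0, 2], [1, 3], [2, 4], [5, 3], [6, 4], [7, 5], [6]]
def nbT : Fin 12 → List (Fin 12) := ![[5, 1, 2], [10, 0, 7], [3, 0], [4, 2], [3], [6, 0], [5],
  [8, 1], [9, 7], [8], [11, 1], [10]]
def nbS : Fin 24 → List (Fin 24) := ![[8, 1, 7], [9, 0, 2], [10, 1, 3], [11, 2, 4], [12, 3, 5],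
  [13, 6, 4], [14, 5, 7], [15, 0, 6], [16, 0], [17, 1], [18, 2], [19, 3], [20, 4], [21, 5],
  [22, 6], [23, 7], [8], [9], [10], [11], [12], [13], [14], [15]]

theorem hnbP4 : ∀ i j, (pathGraph 4).Adj i j ↔ j ∈ nbP4 i := by
  simp only [pathGraph_adj]; decide

theorem hnbP8 : ∀ i j, (pathGraph 8).Adj i j ↔ j ∈ nbP8 i := by
  simp only [pathGraph_adj]; decide

theorem hnbT : ∀ i j, tree12.Adj i j ↔ j ∈ nbT i := by
  simp only [tree12, fromRel_adj]; decide +kernel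

theorem hnbS : ∀ i j, sun24.Adj i j ↔ j ∈ nbS i := by
  simp only [sun24, fromRel_adj]; decide +kernel

theorem Ctx.case_pp (C : Ctx G) {p q : V} (hp : Par G p) (hq : Par G q) (a : G.Adj p q) :
    Nonempty (G ≃g pathGraph 4) := by
  obtain ⟨l, -, -, n1, n2⟩ := C.par_leaf hp a.symm (C.par_dd hq)
  obtain ⟨m, -, -, n3, n4⟩ := C.par_leaf hq a (C.par_dd hp)
  have := C.card_pos
  have := C.card_mod
  refine iso_of C.conn _ nbP4 hnbP4 ![l, p, q, m] 0 (fun h => by omega) fun i w => ?_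
  fin_cases i <;> simp [nbP4, n1, n2, n3, n4]

namespace Ctx2

variable (C : Ctx2 G)
include C

theorem case_edge {c1 c2 u : V} (r1 : R2 G c1) (r2 : R2 G c2) (n : c1 ≠ c2) (b1 : G.Adj c1 u)
    (b2 : G.Adj c2 u) : Nonempty (G ≃g sun24) := by
  obtain ⟨u1, u2, x, w, w', l1, l2, l3, l4, n12, k1, k2, k3, k4⟩ := C.cor r1 r2 n b1 b2
  have e1 : c1 ≠ w' := fun e => k3 (e ▸ b1)
  have e2 : w' ≠ w := fun e => k2 (e ▸ l4.2.1)
  have e3 : w ≠ c2 := fun e => k1 (e ▸ b2)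
  have e4 : c1 ≠ w := fun e => k1 (e ▸ b1)
  have e5 : c2 ≠ w' := fun e => k3 (e ▸ b2)
  obtain ⟨z, z1, z2, z3, z4⟩ := C.counts
  have z5 : z ≠ 0 := fun e => not_acyclic b1.symm l1.2.2.1 l4.2.1.symm l4.2.2.1 l3.2.2.1.symm
    l3.2.1 l2.2.2.1.symm b2 l1.2.2.2.1 e1 l4.2.2.2.1 e2 l3.2.2.2.1.symm e3 l2.2.2.2.1.symm (z2 e)
  have bd := fun X (h : Good G X) => C.act_bound 3 (fun v hv => C.sSh_le hv) 0 C.mu_le h
  have z6 := bd _ C.good_univ
  rw [C.sA_univ] at z6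
  have hr : ∀ v, ¬ R0 G v := fun v hv => by
    have := Finset.card_pos.2 ⟨v, mem_sR0.2 hv⟩
    push_cast at z6
    omega
  have hT : ∀ c, ¬ Tn G c := fun c hc => by
    obtain ⟨d, a, pd, -⟩ := C.tn_nb hc
    have hd := C.psi hr hc a pd
    obtain ⟨Z, j1, -, j2, j3⟩ := C.act_step C.good_univ ⟨hd, fun e _ => mem_univ e⟩
    have := bd Z j1
    have := C.sSh_le_two hd hc a
    rw [C.sA_univ] at j2
    push_cast at *
    omega
  have t0 : (sT G).card = 0 :=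
    card_eq_zero.2 (eq_empty_of_forall_notMem fun v hv => hT v (mem_sT.1 hv))
  have r0 : (sR0 G).card = 0 :=
    card_eq_zero.2 (eq_empty_of_forall_notMem fun v hv => hr v (mem_sR0.1 hv))
  have eq := eq_of_subset_of_card_le (s := sR2 G) (t := s3 G)
    (fun v hv => mem_s3.2 (mem_sR2.1 hv).1) (by push_cast at z6; omega)
  have lk : ∀ {a b b'}, ¬ Par G a → R2 G b → R2 G b' → G.Adj b a → G.Adj b' a → b ≠ b' →
      Link G a b b' := fun {a b b'} pa hb hb' h h' ne => by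
    refine ⟨?_, h.symm, h'.symm, ne, C.three_not_par hb.1, C.three_not_par hb'.1⟩
    have := dd_ge2 h.symm h'.symm ne
    rcases C.types a with h | h | h | h | h
    exacts [by omega, absurd h pa, absurd h (hT a), absurd h (hr a),
      mem_sR2.1 (eq ▸ mem_s3.2 h)]
  have l5 := lk l1.2.2.2.2.1 r1 r2 b1 b2 n
  have l6 := lk l1.2.2.2.2.2 r1 l4.1 l1.2.2.1 l4.2.1 e1
  have l7 := lk l4.2.2.2.2.2 l4.1 l3.1 l4.2.2.1 l3.2.2.1 e2
  have l8 := lk l2.2.2.2.2.2 l3.1 r2 l3.2.1 l2.2.2.1 e3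
  obtain ⟨p0, q0, h0, -, f0, g0, i0⟩ := C.link_full l5
  obtain ⟨p1, q1, h1, -, f1, g1, i1⟩ := C.link_full l1
  obtain ⟨p2, q2, h2, -, f2, g2, i2⟩ := C.link_full l6
  obtain ⟨p3, q3, h3, -, f3, g3, i3⟩ := C.link_full l4
  obtain ⟨p4, q4, h4, -, f4, g4, i4⟩ := C.link_full l7
  obtain ⟨p5, q5, h5, -, f5, g5, i5⟩ := C.link_full l3
  obtain ⟨p6, q6, h6, -, f6, g6, i6⟩ := C.link_full l8
  obtain ⟨p7, q7, h7, -, f7, g7, i7⟩ := C.link_full l2
  have np : ∀ {a p}, R2 G a → Par G p → a ≠ p := fun ha hp e => C.three_not_par ha.1 (e ▸ hp)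
  have e6 : u ≠ w := by
    rintro rfl
    rcases (f5 c2).1 b2.symm with e | e | e
    · exact np r2 h5 e
    · exact l2.2.2.1.ne e
    rcases (f5 c1).1 b1.symm with e' | e' | e'
    · exact np r1 h5 e'
    · rcases (f1 c2).1 (e' ▸ l2.2.2.1.symm) with e'' | e'' | e''
      exacts [np r2 h1 e'', b2.ne e'', l4.2.2.2.1 (e''.symm.trans e)]
    · exact n (e'.trans e.symm)
  have e7 : u ≠ w' := by
    rintro rfl
    rcases (f3 c1).1 b1.symm with e | e | e
    · exact np r1 h3 e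
    · exact l1.2.2.1.ne e
    rcases (f3 c2).1 b2.symm with e' | e' | e'
    · exact np r2 h3 e'
    · rcases (f1 w).1 (e ▸ l3.2.2.1.symm) with e'' | e'' | e''
      exacts [np l3.1 h1 e'', e2 e''.symm, e3 (e''.trans e'.symm)]
    · exact n (e.trans e'.symm)
  have c5 : ({u, c1, c2, w, w'} : Finset V).card = 5 := by
    rw [card_insert_of_notMem (by simp [b1.ne', b2.ne', e6, e7]),
      card_insert_of_notMem (by simp [n, e4, e1]),
      card_insert_of_notMem (by simp [e3.symm, e5]), card_pair e2.symm]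
  have := card_le_card (show ({u, c1, c2, w, w'} : Finset V) ⊆ sR2 G by
    simp [insert_subset_iff, r1, r2, l3.1, l4.1, l5.1])
  have := C.card_mod
  rw [← eq] at z3
  refine iso_of C.conn _ nbS hnbS ![u, c1, u1, w', x, w, u2, c2, p0, p1, p2, p3, p4, p5, p6, p7,
    q0, q1, q2, q3, q4, q5, q6, q7] 0 (fun h => by omega) fun i y => ?_
  fin_cases i <;> simp [nbS, f0, f1, f2, f3, f4, f5, f6, f7, g0, g1, g2, g3, g4, g5, g6, g7, i0,
    i1, i2, i3, i4, i5, i6, i7]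

theorem r2_oneT {c c' a b : V} (hc : R2 G c) (hc' : R2 G c') (n : c' ≠ c) (ha : Tn G a)
    (hb : Tn G b) (e1 : G.Adj c a) (e2 : G.Adj c b) : a = b := by
  by_contra ne
  have pc := C.three_not_par hc.1
  obtain ⟨p, l, -, hp, -, hl, n1, n2, n3⟩ := C.tn_at ha e1.symm pc
  obtain ⟨q, m, -, hq, -, hm, n4, n5, n6⟩ := C.tn_at hb e2.symm pc
  obtain ⟨r, k, hr, hk, n7, n8, n9⟩ := C.link_full ⟨hc, e1, e2, ne, ha.2.1, hb.2.1⟩
  have := (closed_card C.conn [c, a, b, p, q, r, l, m, k] (v0 := c) (by simp) (by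
    simp only [List.mem_cons, List.not_mem_nil, or_false, forall_eq_or_imp, forall_eq, n1, n2, n3,
      n4, n5, n6, n7, n8, n9]
    simp)).1 c'
  have := hc'.1
  have := ha.1
  have := hb.1
  have := C.par_two hp
  have := C.par_two hq
  have := C.par_two hr
  simp only [List.mem_cons, List.not_mem_nil, or_false] at *
  rcases ‹c' = c ∨ _› with rfl | rfl | rfl | rfl | rfl | rfl | rfl | rfl | rfl
  exacts [n rfl, by omega, by omega, by omega, by omega, by omega, by omega, by omega, by omega]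

theorem alpha_link (hr : ∀ v, ¬ R0 G v) {c c' : V} (hc : R2 G c) (hc' : R2 G c') (n : c' ≠ c)
    (all : ∀ x, dd G x = 3 → x = c ∨ x = c') : ∃ a, Tn G a ∧ Link G c c' a := by
  obtain ⟨u, a, hu⟩ := C.r2_ex hc
  obtain ⟨u', l⟩ := C.link_ex hc a hu
  have k : ∀ x, G.Adj c x → ¬ Par G x → Tn G x ∨ x = c' := fun x e px => by
    have := nonleaf (C.three_not_par hc.1) e
    rcases C.types x with h | h | h | h | h
    exacts [by omega, absurd h px, Or.inl h, absurd h (hr x),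
      Or.inr ((all x h).resolve_left e.ne')]
  rcases k u a hu with h | rfl <;> rcases k u' l.2.2.1 l.2.2.2.2.2 with h' | rfl
  · exact absurd (C.r2_oneT hc hc' n h h' a l.2.2.1) l.2.2.2.1
  · exact ⟨u, h, l.symm⟩
  · exact ⟨u', h', l⟩
  · exact absurd rfl l.2.2.2.1

theorem r0_link (h2 : (sR0 G).card = 2) (h3 : ∀ x, dd G x ≠ 3) {r r' : V} (hr : R0 G r)
    (hr' : R0 G r') (n : r ≠ r') : ∃ a, Tn G a ∧ ∀ w, G.Adj r w ↔ w = a ∨ w = r' := by
  obtain ⟨u, -, a⟩ := nb_other hr.1.ge r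
  obtain ⟨u', ne, a'⟩ := nb_other hr.1.ge u
  have k : ∀ x, G.Adj r x → Tn G x ∨ x = r' := fun x e => by
    have := nonleaf hr.2.1 e
    rcases C.types x with h | h | h | h | h
    exacts [by omega, absurd ⟨x, e, h⟩ hr.2.2, Or.inl h, Or.inr ((two_of_card h2 (mem_sR0.2 hr)
      (mem_sR0.2 hr') n (mem_sR0.2 h)).resolve_left e.ne'), absurd h (h3 x)]
  have m : ∀ w, G.Adj r w ↔ w = u ∨ w = u' := fun w =>
    ⟨nb2 hr.1.le a a' ne.symm, by rintro (rfl | rfl); exacts [a, a']⟩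
  rcases k u a with h | rfl <;> rcases k u' a' with h' | rfl
  · exact absurd (C.r0_oneT h2.ge hr h' h a' a) ne
  · exact ⟨u, h, m⟩
  · exact ⟨u', h', fun w => (m w).trans or_comm⟩
  · exact absurd rfl ne

theorem case_noedge (h : ∀ c1 c2 u, R2 G c1 → R2 G c2 → G.Adj c1 u → G.Adj c2 u → c1 = c2) :
    Nonempty (G ≃g pathGraph 8) ∨ Nonempty (G ≃g tree12) := by
  obtain ⟨z, z1, -, z3, z4⟩ := C.counts
  have z6 := C.act_bound 1 (fun v hv => card_le_one.2 fun a ha b hb => by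
    obtain ⟨h1, u, h2, h3⟩ := mem_sSh.1 ha
    obtain ⟨h4, u', h5, h6⟩ := mem_sSh.1 hb
    rw [h a v u h1 hv h2 h3, h b v u' h4 hv h5 h6]) 0 C.mu_le C.good_univ
  rw [C.sA_univ] at z6
  push_cast at z6
  have hm := C.card_mod
  have hp := C.card_pos
  by_cases h2 : ∃ c, R2 G c
  · right
    obtain ⟨c1, r1⟩ := h2
    obtain ⟨c2, ⟨r2, -⟩, k, -⟩ := C.resp C.good_univ ⟨r1, fun e _ => mem_univ e⟩
    have n : c1 ≠ c2 := by
      rintro rfl
      obtain ⟨u, a⟩ := C.nb c1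
      exact k ⟨u, a, a⟩
    have c2le : 1 < (sR2 G).card := one_lt_card.2 ⟨c1, mem_sR2.2 r1, c2, mem_sR2.2 r2, n⟩
    have hr : ∀ v, ¬ R0 G v := fun v hv => by
      have := Finset.card_pos.2 ⟨v, mem_sR0.2 hv⟩
      omega
    have sub : sT G ⊆ ((sT G).filter fun a => G.Adj c1 a) ∪ (sT G).filter fun a => G.Adj c2 a := by
      intro a ha
      obtain ⟨d, e, pd, -⟩ := C.tn_nb (mem_sT.1 ha)
      rcases two_of_card (show (sR2 G).card = 2 by omega) (mem_sR2.2 r1) (mem_sR2.2 r2) n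
        (mem_sR2.2 (C.psi hr (mem_sT.1 ha) e pd)) with rfl | rfl
      exacts [mem_union_left _ (mem_filter.2 ⟨ha, e.symm⟩),
        mem_union_right _ (mem_filter.2 ⟨ha, e.symm⟩)]
    have t1 : ((sT G).filter fun a => G.Adj c1 a).card ≤ 1 := card_le_one.2 fun a ha b hb => by
      simp only [mem_filter, mem_sT] at ha hb
      exact C.r2_oneT r1 r2 n.symm ha.1 hb.1 ha.2 hb.2
    have t2 : ((sT G).filter fun a => G.Adj c2 a).card ≤ 1 := card_le_one.2 fun a ha b hb => by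
      simp only [mem_filter, mem_sT] at ha hb
      exact C.r2_oneT r2 r1 n ha.1 hb.1 ha.2 hb.2
    have t3 := (card_le_card sub).trans (card_union_le _ _)
    have t4 : 1 < (s3 G).card := one_lt_card.2 ⟨c1, mem_s3.2 r1.1, c2, mem_s3.2 r2.1, n⟩
    have all : ∀ x, dd G x = 3 → x = c1 ∨ x = c2 := fun x hx =>
      two_of_card (show (s3 G).card = 2 by omega) (mem_s3.2 r1.1) (mem_s3.2 r2.1) n (mem_s3.2 hx)
    obtain ⟨a1, ta1, l1⟩ := C.alpha_link hr r1 r2 n.symm all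
    obtain ⟨a2, ta2, l2⟩ := C.alpha_link hr r2 r1 n fun x hx => (all x hx).symm
    obtain ⟨p1, q1, -, -, f1, g1, i1⟩ := C.link_full l1
    obtain ⟨p2, q2, -, -, f2, g2, i2⟩ := C.link_full l2
    obtain ⟨p3, q3, -, -, -, -, f3, g3, i3⟩ := C.tn_at ta1 l1.2.2.1.symm (C.three_not_par r1.1)
    obtain ⟨p4, q4, -, -, -, -, f4, g4, i4⟩ := C.tn_at ta2 l2.2.2.1.symm (C.three_not_par r2.1)
    refine iso_of C.conn _ nbT hnbT ![c1, c2, a1, p3, q3, p1, q1, a2, p4, q4, p2, q2] 0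
      (fun h => by omega) fun i y => ?_
    fin_cases i <;> simp [nbT, f1, f2, f3, f4, g1, g2, g3, g4, i1, i2, i3, i4]
  left
  push Not at h2
  have r2 : (sR2 G).card = 0 :=
    card_eq_zero.2 (eq_empty_of_forall_notMem fun v hv => h2 v (mem_sR2.1 hv))
  have r0 : (sR0 G).card = 2 := by
    by_contra hn
    have r0 : (sR0 G).card = 0 := by omega
    have hr : ∀ v, ¬ R0 G v := fun v hv => by
      have := Finset.card_pos.2 ⟨v, mem_sR0.2 hv⟩
      omega
    obtain ⟨c, hc⟩ := Finset.card_pos.1 (show 0 < (sT G).card by omega)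
    obtain ⟨d, e, pd, -⟩ := C.tn_nb (mem_sT.1 hc)
    exact h2 d (C.psi hr (mem_sT.1 hc) e pd)
  obtain ⟨r, r', n, hs⟩ := card_eq_two.1 r0
  have hr : R0 G r := mem_sR0.1 (by simp [hs])
  have hr' : R0 G r' := mem_sR0.1 (by simp [hs])
  have h3 : ∀ x, dd G x ≠ 3 := fun x hx => by
    have := Finset.card_pos.2 ⟨x, mem_s3.2 hx⟩
    have sub : sT G ⊆ ((sT G).filter fun a => G.Adj r a) ∪ (sT G).filter fun a => G.Adj r' a := by
      intro a ha
      obtain ⟨d, e, pd, hd | hd⟩ := C.tn_nb (mem_sT.1 ha)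
      · rcases two_of_card r0 (mem_sR0.2 hr) (mem_sR0.2 hr') n (mem_sR0.2 hd) with rfl | rfl
        exacts [mem_union_left _ (mem_filter.2 ⟨ha, e.symm⟩),
          mem_union_right _ (mem_filter.2 ⟨ha, e.symm⟩)]
      · exact (C.beta h2 r0 (by omega) (mem_sT.1 ha) e hd).elim
    have t : ∀ y, R0 G y → ((sT G).filter fun a => G.Adj y a).card ≤ 1 := fun y hy =>
      card_le_one.2 fun a ha b hb => by
        simp only [mem_filter, mem_sT] at ha hb
        exact C.r0_oneT r0.ge hy ha.1 hb.1 ha.2 hb.2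
    have t3 := (card_le_card sub).trans (card_union_le _ _)
    have := t r hr
    have := t r' hr'
    omega
  have s0 : (s3 G).card = 0 :=
    card_eq_zero.2 (eq_empty_of_forall_notMem fun v hv => h3 v (mem_s3.1 hv))
  obtain ⟨a1, ta1, f1⟩ := C.r0_link r0 h3 hr hr' n
  obtain ⟨a2, ta2, f2⟩ := C.r0_link r0 h3 hr' hr n.symm
  obtain ⟨p3, q3, -, -, -, -, f3, g3, i3⟩ := C.tn_at ta1 ((f1 a1).2 (Or.inl rfl)).symm hr.2.1
  obtain ⟨p4, q4, -, -, -, -, f4, g4, i4⟩ := C.tn_at ta2 ((f2 a2).2 (Or.inl rfl)).symm hr'.2.1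
  refine iso_of C.conn _ nbP8 hnbP8 ![q3, p3, a1, r, r', a2, p4, q4] 0
    (fun h => by omega) fun i y => ?_
  fin_cases i <;> simp [nbP8, f1, f2, f3, f4, g3, g4, i3, i4]

end Ctx2

theorem Ctx.classify (C : Ctx G) : Nonempty (G ≃g pathGraph 4) ∨ Nonempty (G ≃g pathGraph 8) ∨
    Nonempty (G ≃g tree12) ∨ Nonempty (G ≃g sun24) := by
  by_cases h : ∃ p q, Par G p ∧ Par G q ∧ G.Adj p q
  · obtain ⟨p, q, hp, hq, a⟩ := h
    exact Or.inl (C.case_pp hp hq a)
  have C2 : Ctx2 G := ⟨C, fun p q hp hq a => h ⟨p, q, hp, hq, a⟩⟩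
  by_cases h' : ∀ c1 c2 u, R2 G c1 → R2 G c2 → G.Adj c1 u → G.Adj c2 u → c1 = c2
  · rcases C2.case_noedge h' with k | k
    exacts [Or.inr (Or.inl k), Or.inr (Or.inr (Or.inl k))]
  · push Not at h'
    obtain ⟨c1, c2, u, r1, r2, b1, b2, n⟩ := h'
    exact Or.inr (Or.inr (Or.inr (C2.case_edge r1 r2 n b1 b2)))

end Pool.Agent.Lib.MP_77fd7e_co
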