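import Pool.Agent.Lib.MP_77fd7e_co.Defs

namespace Pool.Agent.Lib.MP_77fd7e_co

open Finset

set_option linter.unusedSectionVars false

variable {V : Type} [Fintype V] [DecidableEq V] (G : SimpleGraph V) [DecidableRel G.Adj]

/-- Undominated vertices left after `v` is picked. -/
def mv (X : Finset V) (v : V) : Finset V := X.filter fun e => ¬ G.Adj e v

/-- `v` is playable when `X` is the set of undominated vertices. -/
def Lg (X : Finset V) (v : V) : Prop := ∃ e ∈ X, G.Adj e v

variable {G}

omit [Fintype V] [DecidableEq V] in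
theorem mem_mv {X : Finset V} {v e : V} : e ∈ mv G X v ↔ e ∈ X ∧ ¬ G.Adj e v := by
  simp [mv]

omit [Fintype V] [DecidableEq V] in
theorem mv_subset (X : Finset V) (v : V) : mv G X v ⊆ X := filter_subset _ _

omit [Fintype V] in
theorem mv_card_lt {X : Finset V} {v : V} (h : Lg G X v) : (mv G X v).card < X.card := by
  obtain ⟨e, he, hev⟩ := h
  exact card_lt_card ⟨mv_subset X v, fun h => (mem_mv.1 (h he)).2 hev⟩

variable (G)

open Classical in
/-- Game value in terms of the undominated set. -/
noncomputable def gv (X : Finset V) (dom : Bool) : ℕ :=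
  if X = ∅ then 0
  else if dom then 1 + ⨅ v : {v // Lg G X v}, gv (mv G X v.1) false
  else 1 + ⨆ v : {v // Lg G X v}, gv (mv G X v.1) true
termination_by X.card
decreasing_by all_goals exact mv_card_lt v.2

variable {G}

theorem gv_empty (t : Bool) : gv G ∅ t = 0 := by rw [gv]; simp

theorem gv_D_le {X : Finset V} {v : V} (h : Lg G X v) :
    gv G X true ≤ 1 + gv G (mv G X v) false := by
  have hX : X ≠ ∅ := by obtain ⟨e, he, -⟩ := h; exact ne_empty_of_mem he
  rw [gv, if_neg hX, if_pos rfl]
  exact Nat.add_le_add_left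
    (ciInf_le (OrderBot.bddBelow _) (⟨v, h⟩ : {v // Lg G X v})) 1

theorem gv_S_ge {X : Finset V} {v : V} (h : Lg G X v) :
    1 + gv G (mv G X v) true ≤ gv G X false := by
  have hX : X ≠ ∅ := by obtain ⟨e, he, -⟩ := h; exact ne_empty_of_mem he
  conv_rhs => rw [gv, if_neg hX, if_neg (by simp)]
  exact Nat.add_le_add_left
    (le_ciSup (f := fun v : {v // Lg G X v} => gv G (mv G X v.1) true)
      (Set.finite_range _).bddAbove (⟨v, h⟩ : {v // Lg G X v})) 1

theorem exists_lg (hG : ∀ v, ∃ w, G.Adj v w) {X : Finset V} (hX : X ≠ ∅) : ∃ v, Lg G X v := by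
  obtain ⟨e, he⟩ := nonempty_iff_ne_empty.2 hX
  obtain ⟨w, hw⟩ := hG e
  exact ⟨w, e, he, hw⟩

theorem gv_D_ex (hG : ∀ v, ∃ w, G.Adj v w) {X : Finset V} (hX : X ≠ ∅) :
    ∃ v, Lg G X v ∧ gv G X true = 1 + gv G (mv G X v) false := by
  obtain ⟨v0, hv0⟩ := exists_lg hG hX
  have : Nonempty {v // Lg G X v} := ⟨⟨v0, hv0⟩⟩
  obtain ⟨v, hv⟩ := ciInf_mem (fun v : {v // Lg G X v} => gv G (mv G X v.1) false)
  refine ⟨v.1, v.2, ?_⟩
  conv_lhs => rw [gv, if_neg hX, if_pos rfl]
  rw [← hv]

theorem gv_S_ex (hG : ∀ v, ∃ w, G.Adj v w) {X : Finset V} (hX : X ≠ ∅) :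
    ∃ v, Lg G X v ∧ gv G X false = 1 + gv G (mv G X v) true := by
  obtain ⟨v0, hv0⟩ := exists_lg hG hX
  have : Nonempty {v // Lg G X v} := ⟨⟨v0, hv0⟩⟩
  obtain ⟨v, hv⟩ := exists_eq_ciSup_of_finite
    (f := fun v : {v // Lg G X v} => gv G (mv G X v.1) true)
  refine ⟨v.1, v.2, ?_⟩
  conv_lhs => rw [gv, if_neg hX, if_neg (by simp)]
  rw [← hv]

/-- The undominated vertices for a picked set. -/
def white (G : SimpleGraph V) [DecidableRel G.Adj] (S : Finset V) : Finset V :=
  univ.filter fun u => ∀ s ∈ S, ¬ G.Adj u s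

theorem white_insert (S : Finset V) (v : V) : white G (insert v S) = mv G (white G S) v := by
  ext u
  simp only [white, mv, mem_filter, mem_univ, true_and, mem_insert, forall_eq_or_imp]
  tauto

theorem legal_iff (S : Finset V) (v : V) : Legal G S v ↔ Lg G (white G S) v := by
  simp only [Legal, Lg, white, mem_filter, mem_univ, true_and]
  exact ⟨fun ⟨u, h1, h2⟩ => ⟨u, h2, h1⟩, fun ⟨u, h1, h2⟩ => ⟨u, h2, h1⟩⟩

theorem value_eq_gv (S : Finset V) (t : Bool) : value G S t = gv G (white G S) t := by
  induction h : (white G S).card using Nat.strong_induction_on generalizing S t with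
  | _ n ih =>
    have key : ∀ (v : V) (t : Bool), Legal G S v →
        value G (insert v S) t = gv G (mv G (white G S) v) t := by
      intro v t hv
      rw [← white_insert]
      refine ih _ ?_ _ _ rfl
      rw [← h, white_insert]
      exact mv_card_lt ((legal_iff S v).1 hv)
    have he : (∀ u, ∃ s ∈ S, G.Adj u s) ↔ white G S = ∅ := by
      simp [white, filter_eq_empty_iff]
    rw [value, gv]
    by_cases h0 : white G S = ∅
    · rw [if_pos (he.2 h0), if_pos h0]
    · rw [if_neg (fun h => h0 (he.1 h)), if_neg h0]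
      let φ : {v // Legal G S v} ≃ {v // Lg G (white G S) v} :=
        Equiv.subtypeEquivRight (legal_iff S)
      cases t
      · simp only [Bool.false_eq_true, if_false]
        congr 1
        rw [← φ.iSup_comp]
        exact iSup_congr fun v => key v.1 true v.2
      · simp only [if_true]
        congr 1
        rw [← φ.iInf_comp]
        exact iInf_congr fun v => key v.1 false v.2

theorem gammaTg_eq : gammaTg G = gv G univ true := by
  rw [gammaTg, value_eq_gv]
  congr 1
  simp [white]

theorem gv_iso {W : Type} [Fintype W] [DecidableEq W] {H : SimpleGraph W} [DecidableRel H.Adj]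
    (f : G ≃g H) (X : Finset V) (t : Bool) : gv H (X.map f.toEquiv.toEmbedding) t = gv G X t := by
  induction h : X.card using Nat.strong_induction_on generalizing X t with
  | _ n ih =>
    have hm : ∀ v, mv H (X.map f.toEquiv.toEmbedding) (f v) =
        (mv G X v).map f.toEquiv.toEmbedding := by
      intro v
      ext e
      obtain ⟨e, rfl⟩ := f.toEquiv.surjective e
      have h1 : ∀ Y : Finset V, f.toEquiv e ∈ Y.map f.toEquiv.toEmbedding ↔ e ∈ Y :=
        fun Y => mem_map' _
      rw [mem_mv, h1, h1, mem_mv]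
      exact and_congr_right fun _ => not_congr f.map_adj_iff
    have hl : ∀ v, Lg G X v ↔ Lg H (X.map f.toEquiv.toEmbedding) (f.toEquiv v) := by
      intro v
      constructor
      · rintro ⟨e, he, h⟩
        exact ⟨f e, (mem_map' _).2 he, f.map_adj_iff.2 h⟩
      · rintro ⟨e, he, h⟩
        obtain ⟨e, rfl⟩ := f.toEquiv.surjective e
        exact ⟨e, (mem_map' _).1 he, f.map_adj_iff.1 h⟩
    have key : ∀ (v : V) (t : Bool), Lg G X v →
        gv H (mv H (X.map f.toEquiv.toEmbedding) (f v)) t = gv G (mv G X v) t := by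
      intro v t hv
      rw [hm]
      exact ih _ (h ▸ mv_card_lt hv) _ _ rfl
    rw [gv, gv.eq_def G X]
    by_cases h0 : X = ∅
    · rw [if_pos (by simp [h0]), if_pos h0]
    · rw [if_neg (by simpa using h0), if_neg h0]
      let φ : {v // Lg G X v} ≃ {v // Lg H (X.map f.toEquiv.toEmbedding) v} :=
        f.toEquiv.subtypeEquiv hl
      cases t
      · simp only [Bool.false_eq_true, if_false]
        congr 1
        rw [← φ.iSup_comp]
        exact iSup_congr fun v => key v.1 true v.2
      · simp only [if_true]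
        congr 1
        rw [← φ.iInf_comp]
        exact iInf_congr fun v => key v.1 false v.2

theorem gammaTg_iso {W : Type} [Fintype W] [DecidableEq W] {H : SimpleGraph W}
    (f : G ≃g H) : gammaTg H = gammaTg G := by
  classical
  rw [gammaTg_eq, gammaTg_eq, ← gv_iso f, map_univ_equiv]

end Pool.Agent.Lib.MP_77fd7e_co
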