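import Pool.Agent.Lib.MP_77fd7e_co.Struct2

namespace Pool.Agent.Lib.MP_77fd7e_co

open Finset

set_option linter.unusedSectionVars false

variable {V : Type} [Fintype V] [DecidableEq V] (G : SimpleGraph V) [DecidableRel G.Adj]

def PP (X : Finset V) : Prop := ∀ e ∈ X, 2 ≤ dd G e → ¬ Par G e → Plain G X e
def Good (X : Finset V) : Prop := Tight G X ∧ PP G X
def Act (X : Finset V) (c : V) : Prop := R2 G c ∧ ∀ e, G.Adj c e → e ∈ X
def Sh (a b : V) : Prop := ∃ u, G.Adj a u ∧ G.Adj b u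
open Classical in
noncomputable def sA (X : Finset V) : Finset V := univ.filter fun c => Act G X c
open Classical in
noncomputable def sSh (v : V) : Finset V := univ.filter fun y => R2 G y ∧ Sh G y v

variable {G}

@[simp] theorem mem_sA {X : Finset V} {v : V} : v ∈ sA G X ↔ Act G X v := by simp [sA]
@[simp] theorem mem_sSh {v y : V} : y ∈ sSh G v ↔ R2 G y ∧ Sh G y v := by simp [sSh]

theorem Sh.symm {a b : V} (h : Sh G a b) : Sh G b a := let ⟨u, h1, h2⟩ := h; ⟨u, h2, h1⟩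

theorem PP.mv {X : Finset V} (h : PP G X) {v : V} (hz : ex G X v ≤ 0) : PP G (mv G X v) :=
  fun e he h1 h2 => z_plain (mv_subset X v) (sd_zero_of_ex hz) he (h e (mv_subset X v he) h1 h2)

theorem pp_univ : PP G univ := fun _ _ => plain_univ

theorem dg_full {X : Finset V} {c : V} (h : ∀ e, G.Adj c e → e ∈ X) : dg G X c = dd G c :=
  dg_eq_of (subset_univ X) fun e _ a => h e a.symm

theorem full_of_dg {X : Finset V} {c e : V} (h : dd G c ≤ dg G X c) (a : G.Adj c e) : e ∈ X :=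
  mem_of_dg_eq (subset_univ X) h (mem_univ e) a.symm

theorem ex_zero {X : Finset V} {v : V}
    (h : ∀ u, u ≠ v → 2 ≤ dg G X u → 2 ≤ dg G (mv G X v) u) : ex G X v ≤ 0 := by
  have h3 : dp G X v = 0 := by
    unfold dp
    rw [card_eq_zero, filter_eq_empty_iff]
    rintro u - ⟨h2, h3, h4⟩
    have := h u h2 h3
    omega
  unfold ex
  rw [h3, sum_eq_zero]
  · simp
  · intro g hg
    rcases sd_cases (G := G) (mv_subset X v) hg with h' | h' | h' | h' | h'
    · exact h'.2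
    all_goals
      obtain ⟨u, -, h3, h4⟩ := kk_ex (G := G) (X := X) (Y := mv G X v) (g := g) (by omega)
      have := h u (by rintro rfl; rw [dg_mv_self] at h4; omega) h3
      omega

theorem act_bs {X : Finset V} {c : V} (h : Act G X c) : dg G X c = 3 ∧ 6 ≤ bs G X c := by
  have h1 := dg_full h.2
  obtain ⟨⟨h3, p, a, hp⟩, h2⟩ := h
  have := bs_ge1 (h2 p a) a.symm
  have := wt_ge_two (not_plain_par (X := X) hp)
  omega

namespace Ctx2

variable (C : Ctx2 G)
include C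

theorem good_univ : Good G univ := ⟨C.tight, pp_univ⟩

theorem pend_par {X : Finset V} (h : PP G X) {e x b : V} (he : e ∈ X) (a : G.Adj e x)
    (a' : G.Adj e b) (hx : dg G X x ≤ 1) (hb : 2 ≤ dg G X b) : Par G e := by
  by_contra hp
  have := (h e he (dd_ge2 a a' (by rintro rfl; omega)) hp).dg a
  omega

theorem hot_act {X : Finset V} (h : PP G X) {e : V} (he : Hot G X e) :
    ∃ c, Act G X c ∧ G.Adj c e ∧ Par G e := by
  obtain ⟨x, a, hx⟩ := he.1.2.1
  obtain ⟨c, b, hc⟩ := na_ex he.1.2.2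
  have hp := C.pend_par h he.1.1 a b hx hc
  have h1 := dg_le_dd (G := G) X c
  have h2 := C.dd_le c
  have h3 : dg G X c ≠ 2 := fun h3 => by
    obtain ⟨g, hg, ng, d⟩ := dg_ex_other hc e
    have := he.2 c b h3 g hg ng d
    have hcp : ¬ Par G c := fun h' => C.pp e c hp h' b
    have := (h g hg (nonleaf hcp d.symm) fun h' => ng (C.ap_eq h' hp d.symm b.symm)).1
    omega
  exact ⟨c, ⟨⟨by omega, e, b.symm, hp⟩, fun f d => full_of_dg (by omega) d⟩, b.symm, hp⟩

theorem cold_of {X : Finset V} (h : PP G X) (h' : ∀ c, ¬ Act G X c) : Cold G X := fun _ he =>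
  let ⟨c, hc, _⟩ := C.hot_act h he; h' c hc

theorem sh_par {a b p : V} (ha : R2 G a) (hb : R2 G b) (hp : Par G p) (h1 : G.Adj a p)
    (h2 : G.Adj b p) : a = b :=
  C.par_uniq hp h1.symm h2.symm (by have := ha.1; omega) (by have := hb.1; omega)

theorem gstep {X : Finset V} (h : Good G X) {v : V} (hv : Act G X v) : ∃ w Z, Act G X w ∧
    ¬ Sh G v w ∧ Good G Z ∧ Z.card < X.card ∧
    (∀ e, e ∈ Z ↔ e ∈ X ∧ ¬ G.Adj e v ∧ ¬ (G.Adj e w ∧ Par G e)) ∧
    gv G X true = gv G Z true + 2 ∧ mu G X ≤ mu G Z + 1 ∧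
    (∀ y, Act G Z y ↔ Act G X y ∧ ¬ Sh G y v ∧ y ≠ w) ∧ ∀ y, Act G Z y → ¬ Sh G y w := by
  obtain ⟨d1, b1⟩ := act_bs hv
  have x1 := ex_nonneg (G := G) X v
  have x2 := bs_ex_le C.nb h.1 (v := v) (by omega)
  obtain ⟨e0, x, he, a0, d0, x0, g0, ht, hg⟩ := six_move' C.nb h.1 (v := v) (by omega) (by omega)
  have p1 := h.2.mv (v := v) (by omega)
  obtain ⟨w, hw, aw, pe⟩ := C.hot_act p1 he
  have mZ : ∀ e, e ∈ mv G (mv G X v) x ↔ e ∈ X ∧ ¬ G.Adj e v ∧ ¬ (G.Adj e w ∧ Par G e) := by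
    intro e
    rw [mem_mv_priv he.1.1 a0 d0, mem_mv, and_assoc]
    refine and_congr_right fun _ => and_congr_right fun _ => not_congr ⟨?_, fun h' => ?_⟩
    · rintro rfl; exact ⟨aw.symm, pe⟩
    · exact C.ap_eq h'.2 pe h'.1.symm aw
  have m1 := mu_np (G := G) (X := X) (v := v) (by omega)
  have m2 := mu_move (G := G) ⟨e0, he.1.1, a0⟩
  have hZ : Good G (mv G (mv G X v) x) := ⟨ht, p1.mv x0⟩
  have act : ∀ y, Act G (mv G (mv G X v) x) y ↔ Act G X y ∧ ¬ Sh G y v ∧ y ≠ w := fun y => by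
    constructor
    · intro hy
      refine ⟨⟨hy.1, fun e a => ((mZ e).1 (hy.2 e a)).1⟩,
        fun ⟨u, a, b⟩ => ((mZ u).1 (hy.2 u a)).2.1 b.symm, ?_⟩
      rintro rfl
      exact ((mZ e0).1 (hy.2 e0 aw)).2.2 ⟨aw.symm, pe⟩
    · rintro ⟨h1, h2, h3⟩
      exact ⟨h1.1, fun e a => (mZ e).2 ⟨h1.2 e a, fun b => h2 ⟨e, a, b.symm⟩,
        fun b => h3 (C.sh_par h1.1 hw.1 b.2 a b.1.symm)⟩⟩
  refine ⟨w, _, ⟨hw.1, fun e a => mv_subset X v (hw.2 e a)⟩,
    fun ⟨u, a, b⟩ => (mem_mv.1 (hw.2 u b)).2 a.symm, hZ,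
    (mv_card_lt ⟨e0, he.1.1, a0⟩).trans (mv_card_lt (lg_of_dg (by omega))), mZ, hg, by omega,
    act, fun y hy ⟨u, a, b⟩ => ?_⟩
  have ny := ((act y).1 hy).2.2
  have hu : ¬ Par G u := fun h' => ny (C.sh_par hy.1 hw.1 h' a b)
  obtain ⟨p, u', c1, c2, c3, c4, c5, c6⟩ := C.r2_at hw.1 b hu
  have m3 : ∀ f, G.Adj w f → ¬ Par G f → f ∈ mv G (mv G X v) x := fun f c hf =>
    (mZ f).2 ⟨mv_subset X v (hw.2 f c), (mem_mv.1 (hw.2 f c)).2, fun h' => hf h'.2⟩
  obtain ⟨d2, b2⟩ := act_bs hy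
  have := touch1 (v := y) ny.symm (dg_ge_two (m3 u b hu) (m3 u' c3 c4) c5.symm b.symm c3.symm)
    (m3 u' c3 c4) c3.symm
    (hZ.2 u' (m3 u' c3 c4) (nonleaf (C.three_not_par hw.1.1) c3) c4) (fun f hf c => by
      rcases (c6 f).1 c.symm with rfl | rfl | rfl
      · exact absurd ⟨c, c2⟩ ((mZ f).1 hf).2.2
      · exact Or.inr a.symm
      · exact Or.inl rfl)
  have := bs_ex_le C.nb ht (v := y) (by omega)
  omega

theorem act_step {X : Finset V} (h : Good G X) {v : V} (hv : Act G X v) : ∃ Z, Good G Z ∧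
    Z.card < X.card ∧ (sA G X).card ≤ (sA G Z).card + (sSh G v).card + 1 ∧
    (gv G Z true : ℤ) - mu G Z + 1 ≤ gv G X true - mu G X := by
  obtain ⟨w, Z, -, -, h1, h2, -, h3, h4, h5, -⟩ := C.gstep h hv
  refine ⟨Z, h1, h2, ?_, by omega⟩
  have : sA G X ⊆ sA G Z ∪ sSh G v ∪ {w} := fun y hy => by
    simp only [mem_union, mem_sA, mem_sSh, mem_singleton, h5] at hy ⊢
    have := hy.1
    tauto
  exact (card_le_card this).trans ((card_union_le _ _).trans
    (Nat.add_le_add (card_union_le _ _) (by simp)))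

theorem act_bound (j : ℕ) (hj : ∀ v, R2 G v → (sSh G v).card ≤ j) (ε : ℤ)
    (he : ∀ X, Tight G X → mu G X ≤ gv G X true + ε) {X : Finset V} (h : Good G X) :
    ((sA G X).card : ℤ) ≤ (j + 1) * (gv G X true - mu G X + ε) := by
  induction hn : X.card using Nat.strong_induction_on generalizing X with
  | _ n ih =>
    by_cases h0 : ∃ v, Act G X v
    · obtain ⟨v, hv⟩ := h0
      obtain ⟨Z, h1, h2, h3, h4⟩ := C.act_step h hv
      have h5 := ih _ (hn ▸ h2) h1 rfl
      have h6 := hj v hv.1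
      have h7 : ((j : ℤ) + 1) * (gv G Z true - mu G Z + ε + 1) ≤
          (j + 1) * (gv G X true - mu G X + ε) :=
        mul_le_mul_of_nonneg_left (by omega) (by positivity)
      rw [mul_add _ _ 1] at h7
      omega
    · have : sA G X = ∅ := eq_empty_of_forall_notMem fun v hv => h0 ⟨v, mem_sA.1 hv⟩
      have h1 := he X h.1
      rw [this]
      exact mul_nonneg (by positivity) (by omega)

theorem sA_univ : sA G univ = sR2 G := by
  ext v
  simp [Act]

/-- A minimal good state with a persistent property. -/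
theorem minimal (P : Finset V → Prop) (h0 : P univ) :
    ∃ X, Good G X ∧ P X ∧ ∀ Z, Good G Z → Z.card < X.card → ¬ P Z := by
  classical
  obtain ⟨X, hX, hm⟩ := exists_min_image (univ.filter fun X : Finset V => Good G X ∧ P X) card
    ⟨univ, by simp [C.good_univ, h0]⟩
  rw [mem_filter] at hX
  exact ⟨X, hX.2.1, hX.2.2, fun Z h1 h2 h3 => by
    have := hm Z (by simp [h1, h3])
    omega⟩

theorem five_R0 {X : Finset V} {v g b u t x : V} (a1 : G.Adj t x)
    (d1 : dg G (mv G X v) x ≤ 1) (a2 : G.Adj t b) (d2 : dg G (mv G X v) b = 2) (n1 : g ≠ t)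
    (a3 : G.Adj g b) (a4 : G.Adj g u) (n2 : u ≠ b) (p : Plain G (mv G X v) g)
    (all : ∀ y, G.Adj g y → y = b ∨ y = u) (d3 : dg G (mv G X v) u = 2)
    (p2 : ∀ h ∈ mv G X v, h ≠ g → G.Adj h u → Plain G (mv G (mv G X v) x) h) : R0 G g := by
  have h1 : dd G g ≤ 2 := by
    by_contra hc
    obtain ⟨c, n3, n4, a⟩ := nb_third (show 3 ≤ dd G g by omega) b u
    rcases all c a with h | h
    exacts [n3 h, n4 h]
  have h2 := dd_ge2 a3 a4 n2.symm
  refine ⟨by omega, fun h => not_plain_par h p, fun ⟨q, a, hq⟩ => ?_⟩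
  obtain ⟨l, k1, k2, k3, k4⟩ := C.par_leaf hq a h2
  rcases all q a with rfl | rfl
  · rcases (k3 t).1 a2.symm with rfl | rfl
    · rw [(k4 x).1 a1] at d1; omega
    · exact n1 rfl
  · have := C.par_two hq
    exact not_plain_leaf k2 (p2 l (full_of_dg (by omega) k1)
      (by rintro rfl; omega) k1.symm)

theorem par_move {X : Finset V} {c d p l : V} (n1 : ∀ w, G.Adj c w ↔ w = p ∨ w = d)
    (n2 : ∀ w, G.Adj p w ↔ w = l ∨ w = c) (n3 : ∀ w, G.Adj l w ↔ w = p) (hl : dd G l ≤ 1)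
    (ml : l ∈ X) (mc : c ∈ X) (pc : Plain G X c) :
    dg G X p = 2 ∧ bs G X p = 5 ∧ (3 ≤ dg G X d → ex G X p ≤ 0) := by
  have a1 : G.Adj p l := (n2 l).2 (Or.inl rfl)
  have a2 : G.Adj p c := (n2 c).2 (Or.inr rfl)
  have nl : l ≠ c := by rintro rfl; exact not_plain_leaf hl pc
  have d1 := dg_ge_two ml mc nl a1.symm a2.symm
  have d2 := dg_le_dd (G := G) X p
  have d3 := C.par_two ⟨l, a1, hl⟩
  refine ⟨by omega, ?_, fun h3 => ex_zero fun u nu hu => ?_⟩
  · rw [bs_two (by omega) ml a1.symm mc a2.symm nl, wt_plain pc,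
      wt_two (na_pos a1.symm d1) (not_plain_leaf hl)]; rfl
  · by_cases hud : u = d
    · subst hud
      have : (X.filter fun e => G.Adj e u) ⊆ insert c ((mv G X p).filter fun e => G.Adj e u) := by
        intro e he
        rw [mem_filter] at he
        by_cases hec : e = c
        · simp [hec]
        · refine mem_insert_of_mem (mem_filter.2 ⟨mem_mv.2 ⟨he.1, fun a => ?_⟩, he.2⟩)
          rcases (n2 e).1 a.symm with rfl | rfl
          exacts [nu ((n3 u).1 he.2), hec rfl]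
      have := (card_le_card this).trans (card_insert_le _ _)
      unfold dg at h3 ⊢
      omega
    · rwa [dg_eq_of (mv_subset X p) fun e he a => mem_mv.2 ⟨he, fun b => by
        rcases (n2 e).1 b.symm with rfl | rfl
        · exact nu ((n3 u).1 a)
        · rcases (n1 u).1 a with h | h
          exacts [nu h, hud h]⟩]

end Ctx2

end Pool.Agent.Lib.MP_77fd7e_co
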