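import Pool.Agent.Lib.MP_77fd7e_co.Hot

namespace Pool.Agent.Lib.MP_77fd7e_co

open Finset

set_option linter.unusedSectionVars false

variable {V : Type} [Fintype V] [DecidableEq V] (G : SimpleGraph V) [DecidableRel G.Adj]

def Link (c u u' : V) : Prop :=
  R2 G c ∧ G.Adj c u ∧ G.Adj c u' ∧ u ≠ u' ∧ ¬ Par G u ∧ ¬ Par G u'

variable {G}

theorem Link.symm {c u u' : V} (h : Link G c u u') : Link G c u' u :=
  ⟨h.1, h.2.2.1, h.2.1, h.2.2.2.1.symm, h.2.2.2.2.2, h.2.2.2.2.1⟩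

namespace Ctx2

variable (C : Ctx2 G)
include C

theorem link_ex {c u : V} (h : R2 G c) (a : G.Adj c u) (hu : ¬ Par G u) : ∃ u', Link G c u u' :=
  let ⟨_, u', _, _, h1, h2, h3, _⟩ := C.r2_at h a hu; ⟨u', h, a, h1, h3.symm, hu, h2⟩

theorem link_full {c u u' : V} (h : Link G c u u') : ∃ p l, Par G p ∧ dd G l ≤ 1 ∧
    (∀ x, G.Adj c x ↔ x = p ∨ x = u ∨ x = u') ∧ (∀ x, G.Adj p x ↔ x = l ∨ x = c) ∧
    ∀ x, G.Adj l x ↔ x = p := by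
  obtain ⟨⟨h3, p, a, hp⟩, b, b', n, k, k'⟩ := h
  obtain ⟨l, -, h1, h2, h4⟩ := C.par_leaf hp a (by omega)
  refine ⟨p, l, hp, h1, fun x => ⟨nb3 h3.le a b b' (fun e => k (e ▸ hp)) (fun e => k' (e ▸ hp)) n,
    ?_⟩, h2, h4⟩
  rintro (rfl | rfl | rfl)
  exacts [a, b, b']

theorem link_sh {c u u' w : V} (h : Link G c u u') (hw : R2 G w) (s : Sh G c w) :
    c = w ∨ G.Adj w u ∨ G.Adj w u' := by
  obtain ⟨p, l, hp, -, n, -⟩ := C.link_full h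
  obtain ⟨x, a, b⟩ := s
  rcases (n x).1 a with rfl | rfl | rfl
  exacts [Or.inl (C.sh_par h.1 hw hp a b), Or.inr (Or.inl b), Or.inr (Or.inr b)]

theorem resp {X : Finset V} (h : Good G X) {v : V} (hv : Act G X v) : ∃ w, Act G X w ∧
    ¬ Sh G v w ∧ ∀ y, Act G X y → ¬ Sh G y v → y ≠ w → ¬ Sh G y w := by
  obtain ⟨w, Z, h1, h2, -, -, -, -, -, h3, h4⟩ := C.gstep h hv
  exact ⟨w, h1, h2, fun y a b c => h4 y ((h3 y).2 ⟨a, b, c⟩)⟩

theorem resp2 {X : Finset V} (h : Good G X) {v y1 y2 : V} (hv : Act G X v) (h1 : Act G X y1)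
    (h2 : Act G X y2) (n : y1 ≠ y2) (s : Sh G y1 y2) (s1 : ¬ Sh G y1 v) (s2 : ¬ Sh G y2 v) :
    ∃ w, Act G X w ∧ ¬ Sh G v w ∧ ¬ Sh G y1 w ∧ ¬ Sh G y2 w := by
  obtain ⟨w, k1, k2, k3⟩ := C.resp h hv
  refine ⟨w, k1, k2, k3 y1 h1 s1 ?_, k3 y2 h2 s2 ?_⟩
  · rintro rfl
    exact k3 y2 h2 s2 n.symm s.symm
  · rintro rfl
    exact k3 y1 h1 s1 n s

theorem persist (s : List V) (hs : ∀ c ∈ s, R2 G c ∧ ∃ c' ∈ s, c' ≠ c ∧ Sh G c' c) :
    ∃ X, Good G X ∧ (∀ c ∈ s, Act G X c) ∧ ∀ v, Act G X v → ∃ c ∈ s, Sh G c v := by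
  obtain ⟨X, h1, h2, h3⟩ := C.minimal (fun X => ∀ c ∈ s, Act G X c)
    fun c hc => ⟨(hs c hc).1, fun e _ => mem_univ e⟩
  refine ⟨X, h1, h2, fun v hv => ?_⟩
  by_contra hn
  push Not at hn
  obtain ⟨w, Z, -, -, k1, k2, -, -, -, k3, k4⟩ := C.gstep h1 hv
  refine h3 Z k1 k2 fun c hc => (k3 c).2 ⟨h2 c hc, hn c hc, ?_⟩
  rintro rfl
  obtain ⟨c', m, n, s'⟩ := (hs c hc).2
  exact k4 c' ((k3 c').2 ⟨h2 c' m, hn c' m, n⟩) s'

theorem ovA {X : Finset V} (h : Good G X) {c1 c3 u u1 u2 u3 w : V} (a1 : Act G X c1)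
    (a3 : Act G X c3) (l1 : Link G c1 u u1) (l3 : Link G c3 u u3) (n : c1 ≠ c3)
    (all : ∀ v, Act G X v → G.Adj v u1 ∨ G.Adj v u2 ∨ G.Adj v u3) (hw : Act G X w)
    (k1 : ¬ G.Adj w u) (k2 : ¬ G.Adj w u1) (k3 : G.Adj w u2) : G.Adj w u3 := by
  by_contra k4
  obtain ⟨w', j1, j2, j3, j4⟩ := C.resp2 h hw a1 a3 n ⟨u, l1.2.1, l3.2.1⟩
    (fun s => by
      rcases C.link_sh l1 hw.1 s with rfl | h' | h'
      exacts [k1 l1.2.1, k1 h', k2 h'])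
    (fun s => by
      rcases C.link_sh l3 hw.1 s with rfl | h' | h'
      exacts [k1 l3.2.1, k1 h', k4 h'])
  rcases all w' j1 with h' | h' | h'
  exacts [j3 ⟨u1, l1.2.2.1, h'⟩, j2 ⟨u2, k3, h'⟩, j4 ⟨u3, l3.2.2.1, h'⟩]

theorem ovB {X : Finset V} (h : Good G X) {c1 c2 c3 u u1 u2 u3 : V} (a1 : Act G X c1)
    (a2 : Act G X c2) (a3 : Act G X c3) (l1 : Link G c1 u u1) (l2 : Link G c2 u u2)
    (l3 : Link G c3 u u3) (n2 : c1 ≠ c2) (n3 : c1 ≠ c3)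
    (all : ∀ v, Act G X v → G.Adj v u1 ∨ G.Adj v u2 ∨ G.Adj v u3) :
    ∃ w, R2 G w ∧ ¬ G.Adj w u ∧ ¬ G.Adj w u1 ∧ G.Adj w u2 ∧ G.Adj w u3 := by
  obtain ⟨w, j1, j2, -⟩ := C.resp h a1
  have k1 : ¬ G.Adj w u := fun a => j2 ⟨u, l1.2.1, a⟩
  have k2 : ¬ G.Adj w u1 := fun a => j2 ⟨u1, l1.2.2.1, a⟩
  rcases all w j1 with h' | h' | h'
  · exact absurd h' k2
  · exact ⟨w, j1.1, k1, k2, h', C.ovA h a1 a3 l1 l3 n3 all j1 k1 k2 h'⟩
  · exact ⟨w, j1.1, k1, k2, C.ovA h a1 a2 l1 l2 n2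
      (fun v hv => by have := all v hv; tauto) j1 k1 k2 h', h'⟩

theorem nb3_iff {v a b c : V} (ha : G.Adj a v) (hb : G.Adj b v) (hc : G.Adj c v)
    (h1 : a ≠ b) (h2 : a ≠ c) (h3 : b ≠ c) :
    dd G v = 3 ∧ ∀ w, G.Adj v w ↔ w = a ∨ w = b ∨ w = c := by
  refine ⟨le_antisymm (C.dd_le v) (dd_ge3 ha.symm hb.symm hc.symm h1 h2 h3), fun w =>
    ⟨nb3 (C.dd_le v) ha.symm hb.symm hc.symm h1 h2 h3, ?_⟩⟩
  rintro (rfl | rfl | rfl)
  exacts [ha.symm, hb.symm, hc.symm]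

theorem no_three {u c1 c2 c3 : V} (r1 : R2 G c1) (r2 : R2 G c2) (r3 : R2 G c3) (b1 : G.Adj c1 u)
    (b2 : G.Adj c2 u) (b3 : G.Adj c3 u) (n12 : c1 ≠ c2) (n13 : c1 ≠ c3) (n23 : c2 ≠ c3) :
    False := by
  obtain ⟨du, nu⟩ := C.nb3_iff b1 b2 b3 n12 n13 n23
  have pu := C.three_not_par du
  obtain ⟨u1, l1⟩ := C.link_ex r1 b1 pu
  obtain ⟨u2, l2⟩ := C.link_ex r2 b2 pu
  obtain ⟨u3, l3⟩ := C.link_ex r3 b3 pu
  obtain ⟨X, h, act, all'⟩ := C.persist [c1, c2, c3] (by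
    simp only [List.mem_cons, List.not_mem_nil, or_false, forall_eq_or_imp, forall_eq]
    exact ⟨⟨r1, c2, by simp, n12.symm, u, b2, b1⟩, ⟨r2, c1, by simp, n12, u, b1, b2⟩,
      ⟨r3, c1, by simp, n13, u, b1, b3⟩⟩)
  simp only [List.mem_cons, List.not_mem_nil, or_false, forall_eq_or_imp, forall_eq,
    exists_eq_or_imp, exists_eq_left] at act all'
  obtain ⟨a1, a2, a3⟩ := act
  have all : ∀ v, Act G X v → G.Adj v u1 ∨ G.Adj v u2 ∨ G.Adj v u3 := fun v hv => by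
    by_cases hu : G.Adj v u
    · rcases (nu v).1 hu.symm with rfl | rfl | rfl
      exacts [Or.inl l1.2.2.1, Or.inr (Or.inl l2.2.2.1), Or.inr (Or.inr l3.2.2.1)]
    rcases all' v hv with s | s | s
    · rcases C.link_sh l1 hv.1 s with rfl | h' | h'
      exacts [absurd b1 hu, absurd h' hu, Or.inl h']
    · rcases C.link_sh l2 hv.1 s with rfl | h' | h'
      exacts [absurd b2 hu, absurd h' hu, Or.inr (Or.inl h')]
    · rcases C.link_sh l3 hv.1 s with rfl | h' | h'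
      exacts [absurd b3 hu, absurd h' hu, Or.inr (Or.inr h')]
  obtain ⟨w1, s1, x1, y1, z12, z13⟩ := C.ovB h a1 a2 a3 l1 l2 l3 n12 n13 all
  obtain ⟨w2, s2, x2, y2, z21, z23⟩ := C.ovB h a2 a1 a3 l2 l1 l3 n12.symm n23
    (fun v hv => by have := all v hv; tauto)
  obtain ⟨w3, s3', x3, y3, z31, z32⟩ := C.ovB h a3 a1 a2 l3 l1 l2 n13.symm n23.symm
    (fun v hv => by have := all v hv; tauto)
  have m12 : u1 ≠ u2 := fun e => y1 (e ▸ z12)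
  have m13 : u1 ≠ u3 := fun e => y1 (e ▸ z13)
  have m23 : u2 ≠ u3 := fun e => y2 (e ▸ z23)
  have o12 : w1 ≠ w2 := fun e => y1 (e ▸ z21)
  have o13 : w1 ≠ w3 := fun e => y1 (e ▸ z31)
  have o23 : w2 ≠ w3 := fun e => y2 (e ▸ z32)
  have cw : ∀ {c w}, G.Adj c u → ¬ G.Adj w u → c ≠ w := fun a b e => b (e ▸ a)
  obtain ⟨d1, nu1⟩ := C.nb3_iff l1.2.2.1 z21 z31 (cw b1 x2) (cw b1 x3) o23
  obtain ⟨d2, nu2⟩ := C.nb3_iff l2.2.2.1 z12 z32 (cw b2 x1) (cw b2 x3) o13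
  obtain ⟨d3, nu3⟩ := C.nb3_iff l3.2.2.1 z13 z23 (cw b3 x1) (cw b3 x2) o12
  obtain ⟨p1, q1, -, -, e1, f1, g1⟩ := C.link_full l1
  obtain ⟨p2, q2, -, -, e2, f2, g2⟩ := C.link_full l2
  obtain ⟨p3, q3, -, -, e3, f3, g3⟩ := C.link_full l3
  obtain ⟨p4, q4, -, -, e4, f4, g4⟩ := C.link_full
    (⟨s1, z12, z13, m23, l2.2.2.2.2.2, l3.2.2.2.2.2⟩ : Link G w1 u2 u3)
  obtain ⟨p5, q5, -, -, e5, f5, g5⟩ := C.link_full
    (⟨s2, z21, z23, m13, l1.2.2.2.2.2, l3.2.2.2.2.2⟩ : Link G w2 u1 u3)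
  obtain ⟨p6, q6, -, -, e6, f6, g6⟩ := C.link_full
    (⟨s3', z31, z32, m12, l1.2.2.2.2.2, l2.2.2.2.2.2⟩ : Link G w3 u1 u2)
  have h4 := (closed_card C.conn [u, u1, u2, u3, c1, c2, c3, w1, w2, w3, p1, p2, p3, p4, p5, p6,
    q1, q2, q3, q4, q5, q6] (v0 := u) (by simp) (by
    simp only [List.mem_cons, List.not_mem_nil, or_false, forall_eq_or_imp, forall_eq, nu, nu1,
      nu2, nu3, e1, e2, e3, e4, e5, e6, f1, f2, f3, f4, f5, f6, g1, g2, g3, g4, g5, g6]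
    simp)).2
  obtain ⟨z, -, -, h5, -⟩ := C.counts
  have h6 : ({c1, c2, c3, w1, w2, w3} : Finset V).card = 6 := by
    rw [card_insert_of_notMem (by simp [n12, n13, cw b1 x1, cw b1 x2, cw b1 x3]),
      card_insert_of_notMem (by simp [n23, cw b2 x1, cw b2 x2, cw b2 x3]),
      card_insert_of_notMem (by simp [cw b3 x1, cw b3 x2, cw b3 x3]),
      card_insert_of_notMem (by simp [o12, o13]), card_pair o23]
  have h7 : ({c1, c2, c3, w1, w2, w3} : Finset V) ⊆ sR2 G := by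
    simp [insert_subset_iff, *]
  have h8 : ({u, u1, u2, u3} : Finset V).card = 4 := by
    rw [card_insert_of_notMem (by simp [l1.2.2.2.1, l2.2.2.2.1, l3.2.2.2.1]),
      card_insert_of_notMem (by simp [m12, m13]), card_pair m23]
  have nr : ∀ {x a b c}, (∀ w, G.Adj x w ↔ w = a ∨ w = b ∨ w = c) → R2 G a → R2 G b → R2 G c →
      ¬ R2 G x := fun hx ha hb hc ⟨_, p, e, hp⟩ => by
    rcases (hx p).1 e with rfl | rfl | rfl
    exacts [C.three_not_par ha.1 hp, C.three_not_par hb.1 hp, C.three_not_par hc.1 hp]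
  have h9 : sR2 G ∪ {u, u1, u2, u3} ⊆ s3 G := by
    refine union_subset (fun x hx => mem_s3.2 (mem_sR2.1 hx).1) ?_
    simp [insert_subset_iff, *]
  have h10 := card_le_card h9
  rw [card_union_of_disjoint (by
    simp [nr nu r1 r2 r3, nr nu1 r1 s2 s3', nr nu2 r2 s1 s3', nr nu3 r3 s1 s2])] at h10
  have := card_le_card h7
  have := C.card_mod
  simp only [List.length_cons, List.length_nil] at h4
  omega

theorem sSh_sub {v u u' : V} (h : Link G v u u') : sSh G v ⊆ insert v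
    (((sR2 G).filter fun y => y ≠ v ∧ G.Adj y u) ∪ (sR2 G).filter fun y => y ≠ v ∧ G.Adj y u') := by
  intro y hy
  rw [mem_sSh] at hy
  simp only [mem_insert, mem_union, mem_filter, mem_sR2]
  by_cases e : y = v
  · exact Or.inl e
  · rcases C.link_sh h hy.1 hy.2.symm with h' | h' | h'
    exacts [Or.inl h'.symm, Or.inr (Or.inl ⟨hy.1, e, h'⟩), Or.inr (Or.inr ⟨hy.1, e, h'⟩)]

theorem at_le_one {v u : V} (h : R2 G v) (a : G.Adj v u) :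
    ((sR2 G).filter fun y => y ≠ v ∧ G.Adj y u).card ≤ 1 :=
  card_le_one.2 fun x hx y hy => by
    simp only [mem_filter, mem_sR2] at hx hy
    by_contra n
    exact C.no_three h hx.1 hy.1 a hx.2.2 hy.2.2 hx.2.1.symm hy.2.1.symm n

theorem sSh_le {v : V} (h : R2 G v) : (sSh G v).card ≤ 3 := by
  obtain ⟨u, a, hu⟩ := C.r2_ex h
  obtain ⟨u', l⟩ := C.link_ex h a hu
  have := (card_le_card (C.sSh_sub l)).trans ((card_insert_le _ _).trans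
    (Nat.succ_le_succ (card_union_le _ _)))
  have := C.at_le_one h a
  have := C.at_le_one h l.2.2.1
  omega

theorem sSh_le_two {v c : V} (h : R2 G v) (hc : Tn G c) (a : G.Adj c v) : (sSh G v).card ≤ 2 := by
  obtain ⟨u', l⟩ := C.link_ex h a.symm hc.2.1
  have h1 := (card_le_card (C.sSh_sub l)).trans ((card_insert_le _ _).trans
    (Nat.succ_le_succ (card_union_le _ _)))
  have h2 := C.at_le_one h l.2.2.1
  obtain ⟨p, -, -, hp, -, -, n, -⟩ := C.tn_at hc a (C.three_not_par h.1)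
  have h3 : ((sR2 G).filter fun y => y ≠ v ∧ G.Adj y c) = ∅ := by
    rw [filter_eq_empty_iff]
    rintro y hy ⟨e, b⟩
    rcases (n y).1 b.symm with rfl | rfl
    exacts [C.three_not_par (mem_sR2.1 hy).1 hp, e rfl]
  rw [h3, card_empty] at h1
  omega

theorem cor {c1 c2 u : V} (r1 : R2 G c1) (r2 : R2 G c2) (n : c1 ≠ c2) (b1 : G.Adj c1 u)
    (b2 : G.Adj c2 u) : ∃ u1 u2 x w w', Link G c1 u u1 ∧ Link G c2 u u2 ∧ Link G w u2 x ∧
      Link G w' u1 x ∧ u1 ≠ u2 ∧ ¬ G.Adj w u ∧ ¬ G.Adj w u1 ∧ ¬ G.Adj w' u ∧ ¬ G.Adj w' u2 := by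
  have pu : ¬ Par G u := fun hp => n (C.sh_par r1 r2 hp b1 b2)
  obtain ⟨u1, l1⟩ := C.link_ex r1 b1 pu
  obtain ⟨u2, l2⟩ := C.link_ex r2 b2 pu
  obtain ⟨X, h, act, all'⟩ := C.persist [c1, c2] (by
    simp only [List.mem_cons, List.not_mem_nil, or_false, forall_eq_or_imp, forall_eq]
    exact ⟨⟨r1, c2, by simp, n.symm, u, b2, b1⟩, ⟨r2, c1, by simp, n, u, b1, b2⟩⟩)
  simp only [List.mem_cons, List.not_mem_nil, or_false, forall_eq_or_imp, forall_eq,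
    exists_eq_or_imp, exists_eq_left] at act all'
  obtain ⟨a1, a2⟩ := act
  have all : ∀ v, Act G X v → G.Adj v u ∨ G.Adj v u1 ∨ G.Adj v u2 := fun v hv => by
    rcases all' v hv with s | s
    · rcases C.link_sh l1 hv.1 s with rfl | h' | h'
      exacts [Or.inl b1, Or.inl h', Or.inr (Or.inl h')]
    · rcases C.link_sh l2 hv.1 s with rfl | h' | h'
      exacts [Or.inl b2, Or.inl h', Or.inr (Or.inr h')]
  obtain ⟨w, j1, j2, -⟩ := C.resp h a1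
  obtain ⟨w', j1', j2', -⟩ := C.resp h a2
  have k1 : ¬ G.Adj w u := fun a => j2 ⟨u, b1, a⟩
  have k2 : ¬ G.Adj w u1 := fun a => j2 ⟨u1, l1.2.2.1, a⟩
  have k3 := ((all w j1).resolve_left k1).resolve_left k2
  have k1' : ¬ G.Adj w' u := fun a => j2' ⟨u, b2, a⟩
  have k2' : ¬ G.Adj w' u2 := fun a => j2' ⟨u2, l2.2.2.1, a⟩
  have k3' := ((all w' j1').resolve_left k1').resolve_right k2'
  obtain ⟨x, l3⟩ := C.link_ex j1.1 k3 l2.2.2.2.2.2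
  have k4 : G.Adj w' x := by
    by_contra k4
    obtain ⟨y, i1, i2, i3, -⟩ := C.resp2 h j1 a1 j1' (fun e => k1' (e ▸ b1))
      ⟨u1, l1.2.2.1, k3'⟩ j2 (fun s => by
        rcases C.link_sh l3 j1'.1 s.symm with rfl | h' | h'
        exacts [k2 k3', k2' h', k4 h'])
    rcases all y i1 with h' | h' | h'
    exacts [i3 ⟨u, b1, h'⟩, i3 ⟨u1, l1.2.2.1, h'⟩, i2 ⟨u2, k3, h'⟩]
  exact ⟨u1, u2, x, w, w', l1, l2, l3,
    ⟨j1'.1, k3', k4, fun e => k2 (e ▸ l3.2.2.1), l1.2.2.2.2.2, l3.2.2.2.2.2⟩,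
    fun e => k2 (e ▸ k3), k1, k2, k1', k2'⟩

end Ctx2

end Pool.Agent.Lib.MP_77fd7e_co
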