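import Pool.Agent.Lib.MP_77fd7e_co.Pot

namespace Pool.Agent.Lib.MP_77fd7e_co

open Finset

set_option linter.unusedSectionVars false

variable {V : Type} [Fintype V] [DecidableEq V] (G : SimpleGraph V) [DecidableRel G.Adj]

noncomputable def gain (X : Finset V) (v : V) : ℤ := phi G X - phi G (mv G X v)
noncomputable def bs (X : Finset V) (v : V) : ℤ :=
  2 + ∑ e ∈ X.filter (fun e => G.Adj e v), wt G X e
def dp (X : Finset V) (v : V) : ℕ :=
  (univ.filter fun u => u ≠ v ∧ 2 ≤ dg G X u ∧ dg G (mv G X v) u = 0).card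
noncomputable def ex (X : Finset V) (v : V) : ℤ :=
  2 * (dp G X v : ℤ) + ∑ g ∈ mv G X v, sd G X (mv G X v) g
def Pend (X : Finset V) (e : V) : Prop := e ∈ X ∧ Pv G X e ∧ 0 < na G X e
def Hot (X : Finset V) (e : V) : Prop := Pend G X e ∧
  ∀ u, G.Adj e u → dg G X u = 2 → ∀ g ∈ X, g ≠ e → G.Adj g u → na G X g = 1

variable {G}

theorem sdiff_mv (X : Finset V) (v : V) : X \ mv G X v = X.filter fun e => G.Adj e v := by
  ext e
  simp only [mem_sdiff, mem_mv, mem_filter]
  tauto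

theorem dg_mv_self (X : Finset V) (v : V) : dg G (mv G X v) v = 0 :=
  dg_zero.2 fun _ he => (mem_mv.1 he).2

theorem dep_mv (X : Finset V) (v : V) :
    dep G X (mv G X v) = dp G X v + if 2 ≤ dg G X v then 1 else 0 := by
  unfold dep dp
  simp only [card_filter]
  rw [← Finset.sum_erase_add _ _ (mem_univ v), ← Finset.sum_erase_add univ _ (mem_univ v)]
  simp only [dg_mv_self, and_true, ne_eq, not_true, false_and, if_false, add_zero]
  congr 1
  refine sum_congr rfl fun u hu => ?_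
  simp [ne_of_mem_erase hu]

theorem sum_sd_nonneg (X : Finset V) (v : V) : 0 ≤ ∑ g ∈ mv G X v, sd G X (mv G X v) g :=
  sum_nonneg fun _ hg => sd_nonneg (mv_subset X v) hg

theorem ex_nonneg (X : Finset V) (v : V) : 0 ≤ ex G X v := by
  have := sum_sd_nonneg (G := G) X v
  unfold ex
  positivity

theorem sd_le_ex {X : Finset V} {v g : V} (hg : g ∈ mv G X v) :
    sd G X (mv G X v) g ≤ ex G X v := by
  have := single_le_sum (f := sd G X (mv G X v))
    (fun _ hg => sd_nonneg (mv_subset X v) hg) hg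
  unfold ex
  omega

theorem sd2_le_ex {X : Finset V} {v g h : V} (hg : g ∈ mv G X v) (hh : h ∈ mv G X v)
    (hne : g ≠ h) : sd G X (mv G X v) g + sd G X (mv G X v) h ≤ ex G X v := by
  have := add_le_sum (f := sd G X (mv G X v))
    (fun _ hg => sd_nonneg (mv_subset X v) hg) hg hh hne
  unfold ex
  omega

theorem sd3_le_ex {X : Finset V} {v g h k : V} (hg : g ∈ mv G X v) (hh : h ∈ mv G X v)
    (hk : k ∈ mv G X v) (h1 : g ≠ h) (h2 : g ≠ k) (h3 : h ≠ k) :
    sd G X (mv G X v) g + sd G X (mv G X v) h + sd G X (mv G X v) k ≤ ex G X v := by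
  have := sum_le_sum_of_subset_of_nonneg (f := sd G X (mv G X v)) (s := {g, h, k})
    (t := mv G X v) (by intro x hx; simp at hx; rcases hx with rfl | rfl | rfl <;> assumption)
    (fun _ hg _ => sd_nonneg (mv_subset X v) hg)
  rw [sum_insert (by simp [h1, h2]), sum_insert (by simp [h3]), sum_singleton] at this
  unfold ex
  omega

theorem dp_le_ex {X : Finset V} {v u : V} (hne : u ≠ v) (h1 : 2 ≤ dg G X u)
    (h2 : dg G (mv G X v) u = 0) : 2 ≤ ex G X v := by
  have h : 0 < dp G X v := card_pos.2 ⟨u, by simp [hne, h1, h2]⟩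
  have := sum_sd_nonneg (G := G) X v
  unfold ex
  omega

theorem dp_sd_le_ex {X : Finset V} {v u g : V} (hne : u ≠ v) (h1 : 2 ≤ dg G X u)
    (h2 : dg G (mv G X v) u = 0) (hg : g ∈ mv G X v) :
    2 + sd G X (mv G X v) g ≤ ex G X v := by
  have h : 0 < dp G X v := card_pos.2 ⟨u, by simp [hne, h1, h2]⟩
  have := single_le_sum (f := sd G X (mv G X v))
    (fun _ hg => sd_nonneg (mv_subset X v) hg) hg
  unfold ex
  omega

theorem sd_zero_of_ex {X : Finset V} {v : V} (h : ex G X v ≤ 0) :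
    ∀ g ∈ mv G X v, sd G X (mv G X v) g = 0 := fun _ hg =>
  le_antisymm ((sd_le_ex hg).trans h) (sd_nonneg (mv_subset X v) hg)

theorem gain_np {X : Finset V} {v : V} (h : 2 ≤ dg G X v) : gain G X v = bs G X v + ex G X v := by
  unfold gain bs ex
  rw [phi_split (mv_subset (G := G) X v), sdiff_mv, dep_mv, if_pos h]
  push_cast
  ring

theorem filter_priv {X : Finset V} {e v : V} (he : e ∈ X) (a : G.Adj e v) (h : dg G X v ≤ 1) :
    X.filter (fun e => G.Adj e v) = {e} := by
  ext g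
  simp only [mem_filter, mem_singleton]
  exact ⟨fun h' => dg_le_one_eq h h'.1 he h'.2 a, fun h' => h' ▸ ⟨he, a⟩⟩

theorem mem_mv_priv {X : Finset V} {e v g : V} (he : e ∈ X) (a : G.Adj e v) (h : dg G X v ≤ 1) :
    g ∈ mv G X v ↔ g ∈ X ∧ g ≠ e := by
  rw [mem_mv]
  refine and_congr_right fun hg => not_congr ⟨fun h' => dg_le_one_eq h hg he h' a, fun h' => h' ▸ a⟩

theorem gain_priv {X : Finset V} {e v : V} (he : e ∈ X) (a : G.Adj e v) (h : dg G X v ≤ 1) :
    gain G X v = wt G X e + ex G X v := by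
  unfold gain ex
  rw [phi_split (mv_subset (G := G) X v), sdiff_mv, dep_mv, if_neg (by omega), filter_priv he a h,
    sum_singleton]
  push_cast
  ring

theorem mu_np {X : Finset V} {v : V} (h : 2 ≤ dg G X v) :
    mu G X ≤ mu G (mv G X v) + 1 + ex G X v := by
  have h1 := mu_split (G := G) (mv_subset (G := G) X v)
  rw [sdiff_mv, dep_mv, if_pos h, sum_eq_zero] at h1
  · unfold ex
    push_cast at h1
    omega
  · intro e he
    have := na_pos (mem_filter.1 he).2 h
    rw [if_neg (by omega)]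

theorem mu_priv {X : Finset V} {e v : V} (he : e ∈ X) (a : G.Adj e v) (h : dg G X v ≤ 1) :
    mu G X ≤ mu G (mv G X v) + (if na G X e = 0 then 1 else 0) + ex G X v := by
  have h1 := mu_split (G := G) (mv_subset (G := G) X v)
  rw [sdiff_mv, dep_mv, if_neg (by omega), filter_priv he a h, sum_singleton] at h1
  unfold ex
  push_cast at h1
  omega

theorem bs_eq (X : Finset V) (v : V) :
    bs G X v = 2 + dg G X v + ∑ e ∈ X.filter (fun e => G.Adj e v), (wt G X e - 1) := by
  unfold bs dg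
  rw [sum_sub_distrib]
  simp

theorem bs_ge (X : Finset V) (v : V) : 2 + (dg G X v : ℤ) ≤ bs G X v := by
  rw [bs_eq]
  have := sum_nonneg (s := X.filter (fun e => G.Adj e v)) (f := fun e => wt G X e - 1)
    (fun e _ => by have := wt_ge_one (G := G) X e; omega)
  omega

theorem bs_ge1 {X : Finset V} {e v : V} (he : e ∈ X) (a : G.Adj e v) :
    1 + (dg G X v : ℤ) + wt G X e ≤ bs G X v := by
  rw [bs_eq]
  have := single_le_sum (s := X.filter (fun e => G.Adj e v)) (f := fun e => wt G X e - 1)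
    (fun e _ => by have := wt_ge_one (G := G) X e; omega) (mem_filter.2 ⟨he, a⟩)
  omega

theorem bs_ge2 {X : Finset V} {e g v : V} (he : e ∈ X) (a : G.Adj e v) (hg : g ∈ X)
    (b : G.Adj g v) (hne : e ≠ g) : (dg G X v : ℤ) + wt G X e + wt G X g ≤ bs G X v := by
  rw [bs_eq]
  have := add_le_sum (s := X.filter (fun e => G.Adj e v)) (f := fun e => wt G X e - 1)
    (fun e _ => by have := wt_ge_one (G := G) X e; omega) (mem_filter.2 ⟨he, a⟩)
    (mem_filter.2 ⟨hg, b⟩) hne
  omega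

theorem bs_two {X : Finset V} {e g v : V} (hd : dg G X v ≤ 2) (he : e ∈ X) (a : G.Adj e v)
    (hg : g ∈ X) (b : G.Adj g v) (hne : e ≠ g) : bs G X v = 2 + wt G X e + wt G X g := by
  have : X.filter (fun e => G.Adj e v) = {e, g} := by
    ext h
    simp only [mem_filter, mem_insert, mem_singleton]
    refine ⟨fun h' => dg_two_eq hd he hg h'.1 hne a b h'.2, ?_⟩
    rintro (rfl | rfl)
    exacts [⟨he, a⟩, ⟨hg, b⟩]
  unfold bs
  rw [this, sum_pair hne]
  ring

/-- The base value only depends on the weights of the edges at `v`. -/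
theorem bs_congr {X Y : Finset V} (hY : Y ⊆ X) {v : V} (h : ∀ e ∈ X, G.Adj e v → e ∈ Y)
    (hw : ∀ e ∈ Y, G.Adj e v → wt G Y e = wt G X e) : bs G Y v = bs G X v := by
  unfold bs
  congr 1
  refine sum_congr ?_ fun e he => hw e (h e (mem_filter.1 he).1 (mem_filter.1 he).2)
    (mem_filter.1 he).2
  ext e
  simp only [mem_filter]
  exact ⟨fun h' => ⟨hY h'.1, h'.2⟩, fun h' => ⟨h e h'.1 h'.2, h'.2⟩⟩

theorem touch {X : Finset V} {v y g : V} (hy : 2 ≤ dg G X y) (hg : g ∈ X) (a : G.Adj g y)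
    (hall : ∀ h ∈ X, G.Adj h y → h = g ∨ G.Adj h v) :
    dg G (mv G X v) y = 0 ∨ (g ∈ mv G X v ∧ dg G (mv G X v) y = 1 ∧
      0 < kk G X (mv G X v) g) := by
  by_cases hgv : G.Adj g v
  · left
    refine dg_zero.2 fun h hh b => ?_
    rcases hall h (mem_mv.1 hh).1 b with rfl | h'
    exacts [(mem_mv.1 hh).2 hgv, (mem_mv.1 hh).2 h']
  · right
    have hg' : g ∈ mv G X v := mem_mv.2 ⟨hg, hgv⟩
    have h1 : dg G (mv G X v) y = 1 := by
      refine le_antisymm (card_le_one.2 fun p hp q hq => ?_) (dg_pos hg' a)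
      rw [mem_filter, mem_mv] at hp hq
      rcases hall p hp.1.1 hp.2 with rfl | h'
      · rcases hall q hq.1.1 hq.2 with rfl | h'
        exacts [rfl, absurd h' hq.1.2]
      · exact absurd h' hp.1.2
    exact ⟨hg', h1, kk_pos a hy h1⟩

theorem sd_plain {X Y : Finset V} (hY : Y ⊆ X) {g : V} (hg : g ∈ Y) (hp : Plain G X g)
    (hk : 0 < kk G X Y g) : 1 ≤ sd G X Y g := by
  rcases sd_cases (G := G) hY hg with h | h | h | h | h
  · omega
  · omega
  · omega
  · exact absurd hp h.1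
  · exact absurd hp h.1

theorem touch1 {X : Finset V} {v y g : V} (hne : y ≠ v) (hy : 2 ≤ dg G X y) (hg : g ∈ X)
    (a : G.Adj g y) (hp : Plain G X g) (hall : ∀ h ∈ X, G.Adj h y → h = g ∨ G.Adj h v) :
    1 ≤ ex G X v := by
  rcases touch hy hg a hall with h | ⟨h1, -, h3⟩
  · have := dp_le_ex hne hy h; omega
  · exact (sd_plain (mv_subset X v) h1 hp h3).trans (sd_le_ex h1)

theorem touch2 {X : Finset V} {v y g y' g' : V} (hne : y ≠ v) (hy : 2 ≤ dg G X y) (hg : g ∈ X)
    (a : G.Adj g y) (hp : Plain G X g) (hall : ∀ h ∈ X, G.Adj h y → h = g ∨ G.Adj h v)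
    (hne' : y' ≠ v) (hy' : 2 ≤ dg G X y') (hg' : g' ∈ X)
    (a' : G.Adj g' y') (hp' : Plain G X g') (hall' : ∀ h ∈ X, G.Adj h y' → h = g' ∨ G.Adj h v)
    (hgg : g ≠ g') : 2 ≤ ex G X v := by
  rcases touch hy hg a hall with h | ⟨h1, -, h3⟩
  · exact dp_le_ex hne hy h
  rcases touch hy' hg' a' hall' with h | ⟨h1', -, h3'⟩
  · exact dp_le_ex hne' hy' h
  have := sd_plain (mv_subset X v) h1 hp h3
  have := sd_plain (mv_subset X v) h1' hp' h3'
  have := sd2_le_ex h1 h1' hgg
  omega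

theorem Pend.not_plain {X : Finset V} {e : V} (h : Pend G X e) : ¬ Plain G X e :=
  fun h' => h'.2 h.2.1

theorem Pend.wt {X : Finset V} {e : V} (h : Pend G X e) : wt G X e = 2 :=
  wt_two h.2.2 h.not_plain

theorem move_cases {X : Finset V} {w : V} (h : Lg G X w) :
    (2 ≤ dg G X w ∧ 4 ≤ bs G X w) ∨
    (∃ e ∈ X, G.Adj e w ∧ dg G X w ≤ 1 ∧ na G X e = 0 ∧ gain G X w = 4 + ex G X w) ∨
    (∃ e, Pend G X e ∧ G.Adj e w ∧ dg G X w ≤ 1 ∧ gain G X w = 2 + ex G X w) := by
  by_cases h2 : 2 ≤ dg G X w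
  · left
    have := bs_ge (G := G) X w
    exact ⟨h2, by omega⟩
  · right
    obtain ⟨e, he, a⟩ := h
    have h1 : dg G X w ≤ 1 := by omega
    by_cases h0 : na G X e = 0
    · exact Or.inl ⟨e, he, a, h1, h0, by rw [gain_priv he a h1, wt_four h0]⟩
    · have hp : Pend G X e := ⟨he, ⟨w, a, h1⟩, by omega⟩
      exact Or.inr ⟨e, hp, a, h1, by rw [gain_priv he a h1, hp.wt]⟩

theorem S_cases {X : Finset V} {w : V} (h : Lg G X w) : 4 ≤ gain G X w ∨
    ∃ e, Pend G X e ∧ G.Adj e w ∧ dg G X w ≤ 1 ∧ gain G X w = 2 + ex G X w := by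
  have := ex_nonneg (G := G) X w
  rcases move_cases h with ⟨h1, h2⟩ | ⟨e, -, -, -, -, h1⟩ | h1
  · left; rw [gain_np h1]; omega
  · left; omega
  · exact Or.inr h1

theorem gain_ge_two {X : Finset V} {w : V} (h : Lg G X w) : 2 ≤ gain G X w := by
  have := ex_nonneg (G := G) X w
  rcases S_cases h with h | ⟨e, -, -, -, h⟩ <;> omega

/-- Change of `mu` under any move. -/
theorem mu_move {X : Finset V} {w : V} (h : Lg G X w) :
    mu G X ≤ mu G (mv G X w) + gain G X w - 2 := by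
  rcases move_cases h with ⟨h1, h2⟩ | ⟨e, he, a, h1, h0, h2⟩ | ⟨e, hp, a, h1, h2⟩
  · have := mu_np h1; rw [gain_np h1]; omega
  · have := mu_priv he a h1; rw [if_pos h0] at this; omega
  · have := mu_priv hp.1 a h1; rw [if_neg (by have := hp.2.2; omega)] at this; omega

theorem mu_move' {X : Finset V} {w : V} (h : Lg G X w) (hp : ∀ e, ¬ Pend G X e) :
    mu G X ≤ mu G (mv G X w) + gain G X w - 3 := by
  rcases move_cases h with ⟨h1, h2⟩ | ⟨e, he, a, h1, h0, h2⟩ | ⟨e, hp', a, h1, h2⟩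
  · have := mu_np h1; rw [gain_np h1]; omega
  · have := mu_priv he a h1; rw [if_pos h0] at this; omega
  · exact absurd hp' (hp e)

theorem hot_of_ex {X : Finset V} {e w : V} (hp : Pend G X e) (a : G.Adj e w) (h1 : dg G X w ≤ 1)
    (hz : ex G X w ≤ 0) : Hot G X e := by
  refine ⟨hp, fun u b hu g hg hne c => ?_⟩
  have hg' : g ∈ mv G X w := (mem_mv_priv hp.1 a h1).2 ⟨hg, hne⟩
  rcases touch (v := w) hu.ge hg c (fun h hh d => by
    rcases dg_two_eq hu.le hp.1 hg hh hne.symm b c d with rfl | rfl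
    exacts [Or.inr a, Or.inl rfl]) with h | ⟨-, -, h3⟩
  · have := dg_pos hg' c; omega
  · have h4 := sd_zero_of_ex hz g hg'
    have h5 := na_split (G := G) (mv_subset X w) hg'
    rcases sd_cases (G := G) (mv_subset X w) hg' with h | h | h | h | h <;> omega

section Zero

variable {X Y : Finset V} (hY : Y ⊆ X) (hz : ∀ g ∈ Y, sd G X Y g = 0)
include hY hz

theorem z_kk {g : V} (hg : g ∈ Y) (h : 0 < na G Y g) : kk G X Y g = 0 := by
  have := hz g hg
  rcases sd_cases (G := G) hY hg with h | h | h | h | h <;> omega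

theorem z_plain {g : V} (hg : g ∈ Y) (h : Plain G X g) : Plain G Y g := by
  refine (plain_split hY hg).2 ⟨h, ?_⟩
  by_contra hk
  have := sd_plain hY hg h (by omega)
  have := hz g hg
  omega

theorem z_na {g : V} (hg : g ∈ Y) (h : 0 < na G Y g) : na G X g = na G Y g := by
  rw [na_split hY hg, z_kk hY hz hg h, add_zero]

theorem z_wt {g : V} (hg : g ∈ Y) (h : 0 < na G Y g) : wt G Y g = wt G X g := by
  have h1 := hz g hg
  have h2 := z_kk hY hz hg h
  unfold sd at h1
  omega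

theorem z_pend {e : V} (h : Pend G Y e) : Pend G X e := by
  have h1 := z_kk hY hz h.1 h.2.2
  refine ⟨hY h.1, ?_, by rw [z_na hY hz h.1 h.2.2]; exact h.2.2⟩
  rcases (pv_split hY h.1).1 h.2.1 with h' | h'
  · exact h'
  · omega

theorem z_dg {g u : V} (hg : g ∈ Y) (h : 0 < na G Y g) (a : G.Adj g u) (hu : 2 ≤ dg G X u) :
    2 ≤ dg G Y u := by
  by_contra hc
  have := dg_pos hg a
  have := kk_pos (Y := Y) a hu (by omega)
  have := z_kk hY hz hg h
  omega

theorem z_hot {e : V} (h : Hot G Y e) : Hot G X e := by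
  refine ⟨z_pend hY hz h.1, fun u a hu g hg hne b => ?_⟩
  have h1 := z_dg hY hz h.1.1 h.1.2.2 a hu.ge
  have h2 := dg_mono (G := G) hY u
  obtain ⟨g', hg', hne', b'⟩ := dg_ex_other h1 e
  have h3 := h.2 u a (by omega) g' hg' hne' b'
  rcases dg_two_eq hu.le (hY h.1.1) (hY hg') hg hne'.symm a b' b with rfl | rfl
  · exact absurd rfl hne
  · rw [z_na hY hz hg' (by omega), h3]

end Zero

theorem hot_bs {X : Finset V} {e v : V} (h : Hot G X e) (a : G.Adj e v) (hv : 2 ≤ dg G X v) :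
    6 ≤ bs G X v := by
  have h1 := h.1.wt
  by_cases h3 : 3 ≤ dg G X v
  · have := bs_ge1 h.1.1 a; omega
  · obtain ⟨g, hg, hne, b⟩ := dg_ex_other hv e
    have h4 := h.2 v a (by omega) g hg hne b
    have h5 : 2 ≤ wt G X g := wt_ge_two fun hp => by have := hp.1; omega
    have := bs_ge2 h.1.1 a hg b hne.symm
    omega

theorem pend_bs {X : Finset V} {e v : V} (h : Pend G X e) (a : G.Adj e v) (hv : 2 ≤ dg G X v) :
    5 ≤ bs G X v := by
  have h1 := h.wt
  have := bs_ge1 h.1 a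
  omega

theorem iso_ex {X : Finset V} {e v : V} (he : e ∈ X) (a : G.Adj e v) (h0 : na G X e = 0) :
    dg G X v ≤ 1 ∧ ex G X v = 0 := by
  have h1 : dg G X v ≤ 1 := by
    by_contra hc
    have := na_pos a (show 2 ≤ dg G X v by omega)
    omega
  have h2 : ∀ u, 2 ≤ dg G X u → dg G (mv G X v) u = dg G X u := fun u hu =>
    dg_eq_of (mv_subset X v) fun g hg b => (mem_mv_priv he a h1).2 ⟨hg, fun h => by
      subst h
      have := na_pos b hu
      omega⟩
  refine ⟨h1, ?_⟩
  have h3 : dp G X v = 0 := by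
    unfold dp
    rw [card_eq_zero, filter_eq_empty_iff]
    rintro u - ⟨-, h3, h4⟩
    have := h2 u h3
    omega
  unfold ex
  rw [h3, sum_eq_zero]
  · simp
  · intro g hg
    rcases sd_cases (G := G) (mv_subset X v) hg with h | h | h | h | h
    · exact h.2
    all_goals
      obtain ⟨u, -, h3, h4⟩ := kk_ex (G := G) (X := X) (Y := mv G X v) (g := g) (by omega)
      have := h2 u h3
      omega

end Pool.Agent.Lib.MP_77fd7e_co
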