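import Pool.Agent.Lib.MP_77fd7e_co.Game

namespace Pool.Agent.Lib.MP_77fd7e_co

open Finset

set_option linter.unusedSectionVars false

variable {V : Type} [Fintype V] [DecidableEq V] (G : SimpleGraph V) [DecidableRel G.Adj]

/-- Number of undominated neighbours. -/
def dg (X : Finset V) (v : V) : ℕ := (X.filter fun e => G.Adj e v).card
/-- Number of neighbours of `e` having at least two undominated neighbours. -/
def na (X : Finset V) (e : V) : ℕ := (univ.filter fun v => G.Adj e v ∧ 2 ≤ dg G X v).card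
/-- `e` has a private neighbour. -/
def Pv (X : Finset V) (e : V) : Prop := ∃ v, G.Adj e v ∧ dg G X v ≤ 1
def Plain (X : Finset V) (e : V) : Prop := 2 ≤ na G X e ∧ ¬ Pv G X e
open Classical in
noncomputable def wt (X : Finset V) (e : V) : ℤ :=
  if na G X e = 0 then 4 else if Plain G X e then 1 else 2
def np (X : Finset V) : ℕ := (univ.filter fun v => 2 ≤ dg G X v).card
noncomputable def phi (X : Finset V) : ℤ := ∑ e ∈ X, wt G X e + 2 * (np G X : ℤ)
def mu (X : Finset V) : ℤ := (np G X : ℤ) + ∑ e ∈ X, (if na G X e = 0 then (1 : ℤ) else 0)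
def dep (X Y : Finset V) : ℕ := (univ.filter fun v => 2 ≤ dg G X v ∧ dg G Y v = 0).card
def kk (X Y : Finset V) (g : V) : ℕ :=
  (univ.filter fun v => G.Adj g v ∧ 2 ≤ dg G X v ∧ dg G Y v = 1).card
noncomputable def sd (X Y : Finset V) (g : V) : ℤ :=
  wt G X g + 2 * (kk G X Y g : ℤ) - wt G Y g

variable {G}

theorem dg_mono {X Y : Finset V} (h : Y ⊆ X) (v : V) : dg G Y v ≤ dg G X v :=
  card_le_card (filter_subset_filter _ h)

theorem dg_pos {X : Finset V} {g v : V} (hg : g ∈ X) (h : G.Adj g v) : 1 ≤ dg G X v :=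
  card_pos.2 ⟨g, mem_filter.2 ⟨hg, h⟩⟩

theorem dg_ge_two {X : Finset V} {e g v : V} (he : e ∈ X) (hg : g ∈ X) (hne : e ≠ g)
    (h1 : G.Adj e v) (h2 : G.Adj g v) : 2 ≤ dg G X v :=
  one_lt_card.2 ⟨e, mem_filter.2 ⟨he, h1⟩, g, mem_filter.2 ⟨hg, h2⟩, hne⟩

theorem dg_ge_three {X : Finset V} {e g h v : V} (he : e ∈ X) (hg : g ∈ X) (hh : h ∈ X)
    (h1 : e ≠ g) (h2 : e ≠ h) (h3 : g ≠ h)
    (a1 : G.Adj e v) (a2 : G.Adj g v) (a3 : G.Adj h v) : 3 ≤ dg G X v :=
  two_lt_card_iff.2 ⟨e, g, h, mem_filter.2 ⟨he, a1⟩, mem_filter.2 ⟨hg, a2⟩, mem_filter.2 ⟨hh, a3⟩,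
    h1, h2, h3⟩

theorem dg_zero {X : Finset V} {v : V} : dg G X v = 0 ↔ ∀ e ∈ X, ¬ G.Adj e v := by
  simp [dg, filter_eq_empty_iff]

theorem dg_le_one_eq {X : Finset V} {e g v : V} (h : dg G X v ≤ 1) (he : e ∈ X) (hg : g ∈ X)
    (h1 : G.Adj e v) (h2 : G.Adj g v) : e = g := by
  by_contra hne
  have := dg_ge_two he hg hne h1 h2
  omega

theorem dg_ex_other {X : Finset V} {v : V} (h : 2 ≤ dg G X v) (e : V) :
    ∃ g ∈ X, g ≠ e ∧ G.Adj g v := by
  obtain ⟨a, ha, b, hb, hab⟩ := one_lt_card.1 h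
  rw [mem_filter] at ha hb
  by_cases hae : a = e
  · exact ⟨b, hb.1, fun h => hab (hae.trans h.symm), hb.2⟩
  · exact ⟨a, ha.1, hae, ha.2⟩

theorem dg_ex {X : Finset V} {v : V} (h : 1 ≤ dg G X v) : ∃ g ∈ X, G.Adj g v := by
  obtain ⟨a, ha⟩ := card_pos.1 h
  rw [mem_filter] at ha
  exact ⟨a, ha.1, ha.2⟩

theorem dg_two_eq {X : Finset V} {e g h v : V} (hd : dg G X v ≤ 2) (he : e ∈ X) (hg : g ∈ X)
    (hh : h ∈ X) (hne : e ≠ g) (a1 : G.Adj e v) (a2 : G.Adj g v) (a3 : G.Adj h v) :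
    h = e ∨ h = g := by
  by_contra hc
  push Not at hc
  have := dg_ge_three he hg hh hne hc.1.symm hc.2.symm a1 a2 a3
  omega

theorem dg_lt {X Y : Finset V} (hY : Y ⊆ X) {e v : V} (he : e ∈ X) (he' : e ∉ Y)
    (a : G.Adj e v) : dg G Y v < dg G X v :=
  card_lt_card ⟨filter_subset_filter _ hY, fun h =>
    he' (mem_filter.1 (h (mem_filter.2 ⟨he, a⟩))).1⟩

theorem dg_eq_of {X Y : Finset V} (hY : Y ⊆ X) {v : V} (h : ∀ e ∈ X, G.Adj e v → e ∈ Y) :
    dg G Y v = dg G X v := by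
  unfold dg
  congr 1
  ext e
  simp only [mem_filter]
  exact ⟨fun h' => ⟨hY h'.1, h'.2⟩, fun h' => ⟨h e h'.1 h'.2, h'.2⟩⟩

theorem na_pos {X : Finset V} {e v : V} (a : G.Adj e v) (h : 2 ≤ dg G X v) : 0 < na G X e :=
  card_pos.2 ⟨v, by simp [a, h]⟩

theorem na_ex {X : Finset V} {e : V} (h : 0 < na G X e) : ∃ v, G.Adj e v ∧ 2 ≤ dg G X v := by
  obtain ⟨v, hv⟩ := card_pos.1 h
  exact ⟨v, by simpa using hv⟩

theorem na_ge_two {X : Finset V} {e u v : V} (hne : u ≠ v) (a1 : G.Adj e u) (h1 : 2 ≤ dg G X u)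
    (a2 : G.Adj e v) (h2 : 2 ≤ dg G X v) : 2 ≤ na G X e :=
  one_lt_card.2 ⟨u, by simp [a1, h1], v, by simp [a2, h2], hne⟩

theorem na_ex_other {X : Finset V} {e : V} (h : 2 ≤ na G X e) (u : V) :
    ∃ v, v ≠ u ∧ G.Adj e v ∧ 2 ≤ dg G X v := by
  obtain ⟨a, ha, b, hb, hab⟩ := one_lt_card.1 h
  simp only [mem_filter, mem_univ, true_and] at ha hb
  by_cases hae : a = u
  · exact ⟨b, fun h => hab (hae.trans h.symm), hb⟩
  · exact ⟨a, hae, ha⟩

theorem na_one_eq {X : Finset V} {e u v : V} (h : na G X e ≤ 1) (a1 : G.Adj e u)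
    (h1 : 2 ≤ dg G X u) (a2 : G.Adj e v) (h2 : 2 ≤ dg G X v) : u = v := by
  by_contra hne
  have := na_ge_two hne a1 h1 a2 h2
  omega

theorem Plain.dg {X : Finset V} {e v : V} (h : Plain G X e) (a : G.Adj e v) : 2 ≤ dg G X v := by
  by_contra hc
  exact h.2 ⟨v, a, by omega⟩

theorem wt_cases (X : Finset V) (e : V) : (na G X e = 0 ∧ wt G X e = 4) ∨
    (0 < na G X e ∧ ¬ Plain G X e ∧ wt G X e = 2) ∨ (Plain G X e ∧ wt G X e = 1) := by
  unfold wt
  by_cases h0 : na G X e = 0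
  · simp [h0]
  · by_cases h1 : Plain G X e
    · simp [h0, h1]
    · simp [h0, h1]; omega

theorem wt_ge_one (X : Finset V) (e : V) : 1 ≤ wt G X e := by
  rcases wt_cases (G := G) X e with h | h | h <;> omega

theorem wt_plain {X : Finset V} {e : V} (h : Plain G X e) : wt G X e = 1 := by
  rcases wt_cases (G := G) X e with h' | h' | h'
  · have := h.1; omega
  · exact absurd h h'.2.1
  · exact h'.2

theorem wt_ge_two {X : Finset V} {e : V} (h : ¬ Plain G X e) : 2 ≤ wt G X e := by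
  rcases wt_cases (G := G) X e with h' | h' | h'
  · omega
  · omega
  · exact absurd h'.1 h

theorem wt_two {X : Finset V} {e : V} (h0 : 0 < na G X e) (h : ¬ Plain G X e) : wt G X e = 2 := by
  rcases wt_cases (G := G) X e with h' | h' | h'
  · omega
  · omega
  · exact absurd h'.1 h

theorem wt_le_two {X : Finset V} {e : V} (h0 : 0 < na G X e) : wt G X e ≤ 2 := by
  rcases wt_cases (G := G) X e with h' | h' | h' <;> omega

theorem wt_four {X : Finset V} {e : V} (h0 : na G X e = 0) : wt G X e = 4 := by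
  rcases wt_cases (G := G) X e with h' | h' | h'
  · omega
  · omega
  · have := h'.1.1; omega

theorem plain_of_wt {X : Finset V} {e : V} (h : wt G X e ≤ 1) : Plain G X e := by
  by_contra hc
  have := wt_ge_two hc
  omega

theorem kk_pos {X Y : Finset V} {g v : V} (a : G.Adj g v) (h1 : 2 ≤ dg G X v)
    (h2 : dg G Y v = 1) : 0 < kk G X Y g := card_pos.2 ⟨v, by simp [a, h1, h2]⟩

theorem kk_ge_two {X Y : Finset V} {g u v : V} (hne : u ≠ v) (a : G.Adj g v) (h1 : 2 ≤ dg G X v)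
    (h2 : dg G Y v = 1) (a' : G.Adj g u) (h1' : 2 ≤ dg G X u) (h2' : dg G Y u = 1) :
    2 ≤ kk G X Y g :=
  one_lt_card.2 ⟨u, by simp [a', h1', h2'], v, by simp [a, h1, h2], hne⟩

theorem kk_ex {X Y : Finset V} {g : V} (h : 0 < kk G X Y g) :
    ∃ v, G.Adj g v ∧ 2 ≤ dg G X v ∧ dg G Y v = 1 := by
  obtain ⟨v, hv⟩ := card_pos.1 h
  exact ⟨v, by simpa using hv⟩

theorem na_split {X Y : Finset V} (hY : Y ⊆ X) {g : V} (hg : g ∈ Y) :
    na G X g = na G Y g + kk G X Y g := by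
  unfold na kk
  rw [← card_union_of_disjoint]
  · congr 1
    ext v
    simp only [mem_filter, mem_univ, true_and, mem_union]
    have := dg_mono (G := G) hY v
    constructor
    · rintro ⟨a, h⟩
      have := dg_pos hg a
      by_cases h2 : 2 ≤ dg G Y v
      · exact Or.inl ⟨a, h2⟩
      · exact Or.inr ⟨a, h, by omega⟩
    · rintro (⟨a, h⟩ | ⟨a, h, -⟩)
      · exact ⟨a, by omega⟩
      · exact ⟨a, h⟩
  · rw [disjoint_left]
    intro v h1 h2
    simp only [mem_filter, mem_univ, true_and] at h1 h2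
    omega

theorem pv_split {X Y : Finset V} (hY : Y ⊆ X) {g : V} (hg : g ∈ Y) :
    Pv G Y g ↔ Pv G X g ∨ 0 < kk G X Y g := by
  constructor
  · rintro ⟨v, a, h⟩
    by_cases h2 : 2 ≤ dg G X v
    · exact Or.inr (kk_pos a h2 (by have := dg_pos hg a; omega))
    · exact Or.inl ⟨v, a, by omega⟩
  · rintro (⟨v, a, h⟩ | h)
    · exact ⟨v, a, (dg_mono hY v).trans h⟩
    · obtain ⟨v, a, -, h⟩ := kk_ex h
      exact ⟨v, a, h.le⟩

theorem plain_split {X Y : Finset V} (hY : Y ⊆ X) {g : V} (hg : g ∈ Y) :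
    Plain G Y g ↔ Plain G X g ∧ kk G X Y g = 0 := by
  unfold Plain
  rw [pv_split hY hg, na_split hY hg]
  constructor
  · rintro ⟨h1, h2⟩
    push Not at h2
    exact ⟨⟨by omega, h2.1⟩, by omega⟩
  · rintro ⟨⟨h1, h2⟩, h3⟩
    exact ⟨by omega, by rintro (h | h); exacts [h2 h, by omega]⟩

theorem sd_cases {X Y : Finset V} (hY : Y ⊆ X) {g : V} (hg : g ∈ Y) :
    (kk G X Y g = 0 ∧ sd G X Y g = 0) ∨
    (Plain G X g ∧ na G Y g = 0 ∧ 2 ≤ kk G X Y g ∧ sd G X Y g = 2 * kk G X Y g - 3) ∨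
    (Plain G X g ∧ 0 < na G Y g ∧ 0 < kk G X Y g ∧ sd G X Y g = 2 * kk G X Y g - 1) ∨
    (¬ Plain G X g ∧ na G Y g = 0 ∧ 0 < kk G X Y g ∧ sd G X Y g = 2 * kk G X Y g - 2) ∨
    (¬ Plain G X g ∧ 0 < na G Y g ∧ 0 < kk G X Y g ∧ sd G X Y g = 2 * kk G X Y g) := by
  have h1 := na_split (G := G) hY hg
  have h2 := plain_split (G := G) hY hg
  have h3 := wt_cases (G := G) X g
  have h4 := wt_cases (G := G) Y g
  have h5 : Plain G X g → 2 ≤ na G X g := fun h => h.1
  have h6 : Plain G Y g → 2 ≤ na G Y g := fun h => h.1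
  unfold sd
  by_cases hp : Plain G X g <;> by_cases hq : Plain G Y g <;>
    simp only [hp, hq, true_and, false_and, not_true, not_false_iff, or_false, false_or, and_false,
      true_iff, false_iff, forall_true_left, iff_false] at * <;> omega

theorem sd_nonneg {X Y : Finset V} (hY : Y ⊆ X) {g : V} (hg : g ∈ Y) : 0 ≤ sd G X Y g := by
  rcases sd_cases (G := G) hY hg with h | h | h | h | h <;> omega

theorem np_split {X Y : Finset V} (hY : Y ⊆ X) :
    np G X = np G Y + dep G X Y + ∑ g ∈ Y, kk G X Y g := by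
  have h1 : ∑ g ∈ Y, kk G X Y g =
      (univ.filter fun v => 2 ≤ dg G X v ∧ dg G Y v = 1).card := by
    unfold kk
    simp only [card_filter]
    rw [sum_comm]
    refine sum_congr rfl fun v _ => ?_
    by_cases h : 2 ≤ dg G X v ∧ dg G Y v = 1
    · simp only [h, and_true, if_true]
      rw [← card_filter]
      exact h.2
    · simp only [h, and_false, if_false, sum_const_zero]
  rw [h1]
  unfold np dep
  simp only [card_filter]
  rw [← sum_add_distrib, ← sum_add_distrib]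
  refine sum_congr rfl fun v _ => ?_
  have := dg_mono (G := G) hY v
  split_ifs <;> omega

theorem phi_split {X Y : Finset V} (hY : Y ⊆ X) :
    phi G X = phi G Y + ∑ e ∈ X \ Y, wt G X e + 2 * dep G X Y + ∑ g ∈ Y, sd G X Y g := by
  unfold phi sd
  rw [np_split hY, ← sum_sdiff hY, sum_sub_distrib, sum_add_distrib, ← mul_sum]
  push_cast
  ring

theorem mu_split {X Y : Finset V} (hY : Y ⊆ X) :
    mu G X ≤ mu G Y + ∑ e ∈ X \ Y, (if na G X e = 0 then (1 : ℤ) else 0) + dep G X Y +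
      ∑ g ∈ Y, sd G X Y g := by
  have h : ∑ g ∈ Y, ((kk G X Y g : ℤ) + if na G X g = 0 then (1 : ℤ) else 0) ≤
      ∑ g ∈ Y, ((if na G Y g = 0 then (1 : ℤ) else 0) + sd G X Y g) := by
    refine sum_le_sum fun g hg => ?_
    have h1 := na_split (G := G) hY hg
    rcases sd_cases (G := G) hY hg with h | h | h | h | h <;> split_ifs <;> omega
  rw [sum_add_distrib, sum_add_distrib] at h
  unfold mu
  rw [np_split hY, ← sum_sdiff hY]
  push_cast
  linarith

end Pool.Agent.Lib.MP_77fd7e_co
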