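import Pool.Agent.Lib.MP_77fd7e_co.Links

namespace Pool.Agent.Lib.MP_77fd7e_co

open Finset

set_option linter.unusedSectionVars false

variable {V : Type} [Fintype V] [DecidableEq V] {G : SimpleGraph V} [DecidableRel G.Adj]

theorem dd_two_of {w a b : V} (h : ∀ x, G.Adj w x ↔ x = a ∨ x = b) (n : a ≠ b) : dd G w = 2 := by
  refine le_antisymm ?_ (dd_ge2 ((h a).2 (Or.inl rfl)) ((h b).2 (Or.inr rfl)) n)
  by_contra hc
  obtain ⟨c, n1, n2, e⟩ := nb_third (show 3 ≤ dd G w by omega) a b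
  rcases (h c).1 e with h' | h'
  exacts [n1 h', n2 h']

namespace Ctx2

variable (C : Ctx2 G)
include C

theorem no_five (hr : ∀ v, ¬ R0 G v) {X : Finset V} (ht : Tight G X) (hc : Cold G X) {v : V}
    (hv : 2 ≤ dg G X v) (h5 : 5 ≤ bs G X v) (hz : ex G X v ≤ 0) : False := by
  obtain ⟨t, x, b, g, u, -, a1, d1, a2, d2, -, n1, a3, a4, n2, p, all, d3, p2, -⟩ :=
    cold_five C.nb ht hc hv h5 hz
  exact hr g (C.five_R0 a1 d1 a2 d2 n1 a3 a4 n2 p all d3 p2)

theorem psi_aux {X : Finset V} (h : Good G X) {c d p l w w' v : V} (hp : Par G p)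
    (hl : dd G l ≤ 1) (n1 : ∀ x, G.Adj c x ↔ x = p ∨ x = d) (n2 : ∀ x, G.Adj p x ↔ x = l ∨ x = c)
    (n3 : ∀ x, G.Adj l x ↔ x = p) (n4 : ∀ x, G.Adj d x ↔ x = c ∨ x = w ∨ x = w') (hc : Tn G c)
    (hd : ¬ R2 G d) (d3 : dd G d = 3) (e2 : w' ≠ c) (pw : ¬ Par G w') (ml : l ∈ X) (mc : c ∈ X)
    (mw : w' ∈ X) (all : ∀ y, Act G X y → G.Adj y w ∨ G.Adj y w') (hv : Act G X v)
    (av : G.Adj v w) : False := by
  obtain ⟨v3, Z, k1, k2, hZ, -, mZ, -, -, k3, k4⟩ := C.gstep h hv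
  have r2p : ∀ y, R2 G y → y ≠ p := fun y hy e => C.three_not_par hy.1 (e ▸ hp)
  have a3 : G.Adj v3 w' := (all v3 k1).resolve_left fun a => k2 ⟨w, av, a⟩
  have cold : Cold G Z := C.cold_of hZ.2 fun y hy => by
    obtain ⟨j1, j2, -⟩ := (k3 y).1 hy
    exact k4 y hy ⟨w', (all y j1).resolve_left fun a => j2 ⟨w, a, av⟩, a3⟩
  have ml' : l ∈ Z := (mZ l).2 ⟨ml, fun a => r2p v hv.1 ((n3 v).1 a), fun a => by
    have := C.par_dd a.2; omega⟩
  have mc' : c ∈ Z := (mZ c).2 ⟨mc, fun a => by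
    rcases (n1 v).1 a with e | e
    exacts [r2p v hv.1 e, hd (e ▸ hv.1)], fun a => hc.2.1 a.2⟩
  have mw' : w' ∈ Z := (mZ w').2 ⟨mw, fun a => k2 ⟨w', a.symm, a3⟩, fun a => pw a.2⟩
  obtain ⟨q1, q2, -⟩ := C.par_move n1 n2 n3 hl ml' mc' (hZ.2 c mc' hc.1.ge hc.2.1)
  have adc : G.Adj d c := (n4 c).2 (Or.inl rfl)
  have adw : G.Adj d w' := (n4 w').2 (Or.inr (Or.inr rfl))
  have dw := nonleaf (C.three_not_par d3) adw
  have mw2 : w' ∈ mv G Z p := mem_mv.2 ⟨mw', fun a => by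
    rcases (n2 w').1 a.symm with e | e
    exacts [by rw [e] at dw; omega, e2 e]⟩
  have pw' := hZ.2 w' mw' dw pw
  rcases touch (v := p) (dg_ge_two mc' mw' e2.symm adc.symm adw.symm) mw' adw.symm
    (fun f hf a => by
      rcases (n4 f).1 a.symm with rfl | rfl | rfl
      · exact Or.inr ((n1 p).2 (Or.inl rfl))
      · exact absurd av.symm ((mZ f).1 hf).2.1
      · exact Or.inl rfl) with h' | ⟨-, -, kk1⟩
  · have := dg_pos mw2 adw.symm; omega
  have hot := cold_six C.nb hZ.1 cold q1.ge q2.ge mw2 pw' kk1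
  obtain ⟨p3, x, b1, b2, b3, b4, b5, -⟩ := C.r2_at k1.1 a3 pw
  have dx := nonleaf (C.three_not_par k1.1.1) b3
  have mx : x ∈ Z := (mZ x).2 ⟨k1.2 x b3, fun a => k2 ⟨x, a.symm, b3⟩, fun a => b4 a.2⟩
  have mx2 : x ∈ mv G Z p := mem_mv.2 ⟨mx, fun a => by
    rcases (n2 x).1 a.symm with e | e
    · rw [e] at dx; omega
    · rcases (n1 v3).1 (e ▸ b3.symm) with e' | e'
      exacts [r2p v3 k1.1 e', hd (e' ▸ k1.1)]⟩
  have i1 := dg_ge_two mw2 mx2 b5.symm a3.symm b3.symm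
  have i2 := dg_mono (G := G) (mv_subset (G := G) Z p) v3
  have i3 : dg G Z v3 < dd G v3 := dg_lt (subset_univ Z) (mem_univ p3)
    (fun m => ((mZ p3).1 m).2.2 ⟨b1.symm, b2⟩) b1.symm
  have i4 := k1.1.1
  have i5 := hot.2 v3 a3.symm (by omega) x mx2 b5 b3.symm
  have px := hZ.2 x mx dx b4
  have i6 := na_split (G := G) (mv_subset (G := G) Z p) mx2
  have i7 := px.1
  have := sd_plain (mv_subset Z p) mx2 px (by omega)
  have := sd_plain (mv_subset Z p) mw2 pw' kk1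
  have := sd2_le_ex mx2 mw2 b5
  have := bs_ex_le C.nb hZ.1 q1.ge
  omega

theorem psi (hr : ∀ v, ¬ R0 G v) {c d : V} (hc : Tn G c) (a : G.Adj c d) (pd : ¬ Par G d) :
    R2 G d := by
  by_contra hd
  obtain ⟨p, l, -, hp, -, hl, n1, n2, n3⟩ := C.tn_at hc a pd
  have d3 : dd G d = 3 := by
    have := nonleaf hc.2.1 a
    rcases C.types d with h | h | h | h | h
    exacts [by omega, absurd h pd, absurd a (C.tn_tn hc h), absurd h (hr d), h]
  obtain ⟨w, e1, b1⟩ := nb_other (show 2 ≤ dd G d by omega) c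
  obtain ⟨w', e2, e3, b2⟩ := nb_third d3.ge c w
  have n4 := (C.nb3_iff a b1.symm b2.symm e1.symm e2.symm e3.symm).2
  have pw : ¬ Par G w := fun h => hd ⟨d3, w, b1, h⟩
  have pw' : ¬ Par G w' := fun h => hd ⟨d3, w', b2, h⟩
  obtain ⟨X, h, ⟨ml, mc, mw, mw'⟩, hm⟩ :=
    C.minimal (fun X => l ∈ X ∧ c ∈ X ∧ w ∈ X ∧ w' ∈ X) (by simp)
  have all : ∀ y, Act G X y → G.Adj y w ∨ G.Adj y w' := fun v hv => by
    by_contra hn
    push Not at hn
    obtain ⟨v3, Z, -, -, hZ, lt, mZ, -⟩ := C.gstep h hv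
    have r2p : v ≠ p := fun e => C.three_not_par hv.1.1 (e ▸ hp)
    refine hm Z hZ lt ⟨(mZ l).2 ⟨ml, fun a => r2p ((n3 v).1 a), fun a => ?_⟩,
      (mZ c).2 ⟨mc, fun a => ?_, fun a => hc.2.1 a.2⟩,
      (mZ w).2 ⟨mw, fun a => hn.1 a.symm, fun a => pw a.2⟩,
      (mZ w').2 ⟨mw', fun a => hn.2 a.symm, fun a => pw' a.2⟩⟩
    · have := C.par_dd a.2; omega
    · rcases (n1 v).1 a with e | e
      exacts [r2p e, hd (e ▸ hv.1)]
  by_cases h0 : ∃ v, Act G X v
  · obtain ⟨v, hv⟩ := h0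
    rcases all v hv with av | av
    · exact C.psi_aux h hp hl n1 n2 n3 n4 hc hd d3 e2 pw' ml mc mw' all hv av
    · exact C.psi_aux h hp hl n1 n2 n3 (fun x => (n4 x).trans (or_congr_right or_comm)) hc hd d3
        e1 pw ml mc mw (fun y hy => (all y hy).symm) hv av
  · obtain ⟨q1, q2, q3⟩ := C.par_move n1 n2 n3 hl ml mc (h.2 c mc hc.1.ge hc.2.1)
    exact C.no_five hr h.1 (C.cold_of h.2 fun v hv => h0 ⟨v, hv⟩) q1.ge q2.ge
      (q3 (dg_ge_three mc mw mw' e1.symm e2.symm e3.symm a b1.symm b2.symm))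

theorem bs_five {x : V} (h2 : 2 ≤ dd G x) (h : ¬ R0 G x) : 5 ≤ bs G univ x := by
  unfold dd at h2
  rcases C.types x with h' | ⟨l, a, hl⟩ | ⟨-, -, p, a, hp⟩ | h' | h'
  · unfold dd at h'; omega
  · have := bs_ge1 (mem_univ l) a.symm
    have := wt_ge_two (not_plain_leaf (X := univ) hl)
    omega
  · have := bs_ge1 (mem_univ p) a.symm
    have := wt_ge_two (not_plain_par (X := univ) hp)
    omega
  · exact absurd h' h
  · have := bs_ge (G := G) univ x
    unfold dd at h'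
    omega

/-- Two degree-two vertices with a common neighbour `a` whose third neighbour is not a root. -/
theorem two_roots {a w w' a' a'' x : V} (h1 : ∀ y, G.Adj w y ↔ y = a ∨ y = a')
    (h2 : ∀ y, G.Adj w' y ↔ y = a ∨ y = a'') (n1 : a ≠ a') (n2 : a ≠ a'') (n3 : a' ≠ a'')
    (p1 : Plain G univ a') (p2 : Plain G univ a'') (ax : G.Adj a x) (e1 : w ≠ x) (e2 : w' ≠ x)
    (dx : 2 ≤ dd G x) (rx : ¬ R0 G x) : False := by
  have := touch2 (v := x) e1 (dd_two_of h1 n1).ge (mem_univ a') ((h1 a').2 (Or.inr rfl)).symm p1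
    (fun f _ b => by
      rcases (h1 f).1 b.symm with rfl | rfl
      exacts [Or.inr ax, Or.inl rfl])
    e2 (dd_two_of h2 n2).ge (mem_univ a'') ((h2 a'').2 (Or.inr rfl)).symm p2
    (fun f _ b => by
      rcases (h2 f).1 b.symm with rfl | rfl
      exacts [Or.inr ax, Or.inl rfl]) n3
  have := C.bs_five dx rx
  have := bs_ex_le C.nb C.tight (v := x) dx
  omega

theorem not_quad : ¬ Quad G := by
  rintro ⟨a1, a2, a3, a4, w1, w2, w3, w4, n12, n13, n14, n23, n24, n34, h1, h2, h3, h4⟩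
  have b11 := (h1 a1).2 (Or.inl rfl)
  have b12 := (h1 a2).2 (Or.inr rfl)
  have b22 := (h2 a2).2 (Or.inl rfl)
  have b23 := (h2 a3).2 (Or.inr rfl)
  have b33 := (h3 a3).2 (Or.inl rfl)
  have b34 := (h3 a4).2 (Or.inr rfl)
  have b44 := (h4 a4).2 (Or.inl rfl)
  have b41 := (h4 a1).2 (Or.inr rfl)
  have m12 : w1 ≠ w2 := fun e => by have := (h2 a1).1 (e ▸ b11); tauto
  have m13 : w1 ≠ w3 := fun e => by have := (h3 a1).1 (e ▸ b11); tauto
  have m14 : w1 ≠ w4 := fun e => by have := (h4 a2).1 (e ▸ b12); tauto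
  have m23 : w2 ≠ w3 := fun e => by have := (h3 a2).1 (e ▸ b22); tauto
  have m24 : w2 ≠ w4 := fun e => by have := (h4 a2).1 (e ▸ b22); tauto
  have m34 : w3 ≠ w4 := fun e => by have := (h4 a3).1 (e ▸ b33); tauto
  have d1 := dd_two_of h1 n12
  have d2 := dd_two_of h2 n23
  have d3 := dd_two_of h3 n34
  have d4 := dd_two_of h4 n14.symm
  have pa : ∀ {a w w'}, G.Adj w a → G.Adj w' a → w ≠ w' → dd G w = 2 → dd G w' = 2 →
      2 ≤ dd G a ∧ ¬ Par G a := fun b b' n d d' =>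
    ⟨dd_ge2 b.symm b'.symm n, fun hp => n (C.par_uniq hp b.symm b'.symm d.ge d'.ge)⟩
  have p1 := pa b11 b41 m14 d1 d4
  have p2 := pa b12 b22 m12 d1 d2
  have p3 := pa b23 b33 m23 d2 d3
  have p4 := pa b34 b44 m34 d3 d4
  have rw : ∀ {w a a'}, (∀ x, G.Adj w x ↔ x = a ∨ x = a') → dd G w = 2 →
      (2 ≤ dd G a ∧ ¬ Par G a) → (2 ≤ dd G a' ∧ ¬ Par G a') → R0 G w := fun h d q q' =>
    ⟨d, fun ⟨l, b, hl⟩ => by rcases (h l).1 b with rfl | rfl <;> omega,
      fun ⟨p, b, hp⟩ => by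
        rcases (h p).1 b with rfl | rfl
        exacts [q.2 hp, q'.2 hp]⟩
  have r1 := rw h1 d1 p1 p2
  have r2 := rw h2 d2 p2 p3
  have r3 := rw h3 d3 p3 p4
  have r4 := rw h4 d4 p4 p1
  have c4 : ({w1, w2, w3, w4} : Finset V).card = 4 := by
    rw [card_insert_of_notMem (by simp [m12, m13, m14]),
      card_insert_of_notMem (by simp [m23, m24]), card_pair m34]
  have sub : ({w1, w2, w3, w4} : Finset V) ⊆ sR0 G := by simp [insert_subset_iff, *]
  have k1 := C.act_bound 3 (fun v hv => C.sSh_le hv) 1 (fun X ht => by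
    rcases count_bound C.nb ht with h | h <;> omega) C.good_univ
  rw [C.sA_univ] at k1
  obtain ⟨z, k2, k3, -, k4⟩ := C.counts
  have k5 : z ≠ 0 := fun e => not_acyclic b11.symm b12 b22.symm b23 b33.symm b34 b44.symm b41
    n12 m12 n23 m23 n34 m34 n14.symm (k3 e)
  have k6 := eq_of_subset_of_card_le sub (by push_cast at k1; omega)
  have all : ∀ x, R0 G x → x = w1 ∨ x = w2 ∨ x = w3 ∨ x = w4 := fun x hx => by
    have := mem_sR0.2 hx
    rw [← k6] at this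
    simpa using this
  have d5 : dd G a1 = 2 := by
    by_contra hc
    obtain ⟨x, e1, e2, b⟩ := nb_third (show 3 ≤ dd G a1 by omega) w1 w4
    refine C.two_roots h1 (fun y => (h4 y).trans or_comm) n12 n14 n24 (plain_univ p2.1 p2.2)
      (plain_univ p4.1 p4.2) b e1.symm e2.symm (nonleaf p1.2 b) fun hx => ?_
    rcases all x hx with rfl | rfl | rfl | rfl
    · exact e1 rfl
    · have := (h2 a1).1 b.symm; tauto
    · have := (h3 a1).1 b.symm; tauto
    · exact e2 rfl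
  have n5 := fun w => nb2 (w := w) d5.le b11.symm b41.symm m14
  rcases all a1 ⟨d5, p1.2, fun ⟨p, b, hp⟩ => by
    rcases n5 p b with rfl | rfl
    exacts [r1.2.1 hp, r4.2.1 hp]⟩ with e | e | e | e
  · exact b11.ne e.symm
  · subst e
    rcases n5 a2 b22 with e | e
    · exact b12.ne e.symm
    rcases n5 a3 b23 with e' | e'
    · subst e e'
      rcases (h4 a3).1 b12.symm with e | e
      exacts [n34 e, n13 e.symm]
    · exact n23 (e.trans e'.symm)
  · subst e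
    rcases n5 a4 b34 with e | e
    · rcases n5 a3 b33 with e' | e'
      · exact n34 (e'.trans e.symm)
      · subst e e'
        rcases (h1 a3).1 b44.symm with e | e
        exacts [n13 e.symm, n23 e.symm]
    · exact b44.ne e.symm
  · exact b41.ne e.symm

theorem mu_le (X : Finset V) (ht : Tight G X) : mu G X ≤ gv G X true + 0 := by
  rcases count_bound C.nb ht with h | h
  · omega
  · exact absurd h.1 C.not_quad

end Ctx2

end Pool.Agent.Lib.MP_77fd7e_co
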