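import Pool.Agent.Lib.MP_77fd7e_co.Count

namespace Pool.Agent.Lib.MP_77fd7e_co

open Finset

set_option linter.unusedSectionVars false

variable {V : Type} [Fintype V] [DecidableEq V] (G : SimpleGraph V) [DecidableRel G.Adj]

def dd (v : V) : ℕ := dg G univ v
def Par (p : V) : Prop := ∃ l, G.Adj p l ∧ dd G l ≤ 1
def AP (c : V) : Prop := ∃ p, G.Adj c p ∧ Par G p
def Tn (c : V) : Prop := dd G c = 2 ∧ ¬ Par G c ∧ AP G c
def R2 (c : V) : Prop := dd G c = 3 ∧ AP G c
def R0 (c : V) : Prop := dd G c = 2 ∧ ¬ Par G c ∧ ¬ AP G c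

structure Ctx : Prop where
  conn : G.Connected
  nb : ∀ v, ∃ w, G.Adj v w
  val : 4 * gv G univ true = 3 * Fintype.card V

variable {G}

theorem dg_le_dd (X : Finset V) (v : V) : dg G X v ≤ dd G v := dg_mono (subset_univ X) v

theorem dd_pos {v a : V} (h : G.Adj v a) : 1 ≤ dd G v := dg_pos (mem_univ a) h.symm

theorem dd_ge2 {v a b : V} (ha : G.Adj v a) (hb : G.Adj v b) (h : a ≠ b) : 2 ≤ dd G v :=
  dg_ge_two (mem_univ a) (mem_univ b) h ha.symm hb.symm

theorem dd_ge3 {v a b c : V} (ha : G.Adj v a) (hb : G.Adj v b) (hc : G.Adj v c) (h1 : a ≠ b)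
    (h2 : a ≠ c) (h3 : b ≠ c) : 3 ≤ dd G v :=
  dg_ge_three (mem_univ a) (mem_univ b) (mem_univ c) h1 h2 h3 ha.symm hb.symm hc.symm

theorem nb1 {v a w : V} (hd : dd G v ≤ 1) (ha : G.Adj v a) (hw : G.Adj v w) : w = a :=
  dg_le_one_eq hd (mem_univ w) (mem_univ a) hw.symm ha.symm

theorem nb2 {v a b w : V} (hd : dd G v ≤ 2) (ha : G.Adj v a) (hb : G.Adj v b) (h : a ≠ b)
    (hw : G.Adj v w) : w = a ∨ w = b :=
  dg_two_eq hd (mem_univ a) (mem_univ b) (mem_univ w) h ha.symm hb.symm hw.symm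

theorem nb3 {v a b c w : V} (hd : dd G v ≤ 3) (ha : G.Adj v a) (hb : G.Adj v b) (hc : G.Adj v c)
    (h1 : a ≠ b) (h2 : a ≠ c) (h3 : b ≠ c) (hw : G.Adj v w) : w = a ∨ w = b ∨ w = c := by
  by_contra hn
  push Not at hn
  have : ({w, a, b, c} : Finset V) ⊆ univ.filter fun e => G.Adj e v := by
    intro x hx
    simp only [mem_insert, mem_singleton] at hx
    rcases hx with rfl | rfl | rfl | rfl
    exacts [mem_filter.2 ⟨mem_univ _, hw.symm⟩, mem_filter.2 ⟨mem_univ _, ha.symm⟩,
      mem_filter.2 ⟨mem_univ _, hb.symm⟩, mem_filter.2 ⟨mem_univ _, hc.symm⟩]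
  have h4 := card_le_card this
  rw [card_insert_of_notMem (by simp [hn]), card_insert_of_notMem (by simp [h1, h2]),
    card_pair h3] at h4
  unfold dd dg at hd
  omega

theorem nb_other {v : V} (hd : 2 ≤ dd G v) (a : V) : ∃ b, b ≠ a ∧ G.Adj v b := by
  obtain ⟨b, -, h1, h2⟩ := dg_ex_other hd a
  exact ⟨b, h1, h2.symm⟩

theorem nb_third {v : V} (hd : 3 ≤ dd G v) (a b : V) : ∃ c, c ≠ a ∧ c ≠ b ∧ G.Adj v c := by
  by_contra hn
  push Not at hn
  have : (univ.filter fun e => G.Adj e v) ⊆ {a, b} := by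
    intro x hx
    by_contra h
    simp only [mem_insert, mem_singleton, not_or] at h
    exact hn x h.1 h.2 (mem_filter.1 hx).2.symm
  have h4 := (card_le_card this).trans card_le_two
  unfold dd dg at hd
  omega

theorem closed_univ (hc : G.Connected) (s : Finset V) {v0 : V} (h0 : v0 ∈ s)
    (h : ∀ v ∈ s, ∀ w, G.Adj v w → w ∈ s) (x : V) : x ∈ s := by
  obtain ⟨p⟩ := hc.preconnected v0 x
  induction p with
  | nil => exact h0
  | cons a _ ih => exact ih (h _ h0 _ a)

theorem closed_card (hc : G.Connected) (l : List V) {v0 : V} (h0 : v0 ∈ l)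
    (h : ∀ v ∈ l, ∀ w, G.Adj v w → w ∈ l) : (∀ x, x ∈ l) ∧ Fintype.card V ≤ l.length := by
  have := closed_univ hc l.toFinset (List.mem_toFinset.2 h0)
    (fun v hv w a => List.mem_toFinset.2 (h v (List.mem_toFinset.1 hv) w a))
  exact ⟨fun x => List.mem_toFinset.1 (this x),
    (card_le_card fun x _ => this x).trans (List.toFinset_card_le l)⟩

theorem not_plain_par {X : Finset V} {p : V} (h : Par G p) : ¬ Plain G X p := fun hp => by
  obtain ⟨l, a, hl⟩ := h
  have := hp.dg a
  have := dg_le_dd (G := G) X l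
  omega

theorem not_plain_leaf {X : Finset V} {l : V} (h : dd G l ≤ 1) : ¬ Plain G X l := fun hp => by
  obtain ⟨u, a, -⟩ := na_ex (show 0 < na G X l by have := hp.1; omega)
  obtain ⟨v, hv, b, -⟩ := na_ex_other hp.1 u
  exact hv (nb1 h a b)

theorem plain_univ {e : V} (h2 : 2 ≤ dd G e) (hp : ¬ Par G e) : Plain G univ e := by
  have k : ∀ v, G.Adj e v → 2 ≤ dd G v := fun v a => by
    by_contra hc
    exact hp ⟨v, a, by omega⟩
  obtain ⟨u, -, a⟩ := nb_other h2 e
  obtain ⟨v, hv, b⟩ := nb_other h2 u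
  exact ⟨na_ge_two hv b (k v b) a (k u a), fun ⟨x, c, hx⟩ => by
    have := k x c
    unfold dd at this
    omega⟩

theorem np_univ : np G univ + (univ.filter fun v => dd G v ≤ 1).card = Fintype.card V := by
  have := card_filter_add_card_filter_not (s := (univ : Finset V)) (fun v => 2 ≤ dg G univ v)
  rw [← card_univ, ← this]
  unfold np
  congr 2
  exact filter_congr fun v _ => by unfold dd; omega

namespace Ctx

variable (C : Ctx G)
include C

theorem card_pos : 0 < Fintype.card V := by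
  have := C.conn.nonempty
  exact Fintype.card_pos

theorem card_mod : Fintype.card V % 4 = 0 := by have := C.val; omega

theorem na_ne (e : V) : na G univ e ≠ 0 := fun h0 => by
  obtain ⟨l, a⟩ := C.nb e
  have k : ∀ v, G.Adj e v → dd G v ≤ 1 := fun v b => (iso_ex (mem_univ e) b h0).1
  have hs := closed_univ C.conn (univ.filter fun x => x = e ∨ G.Adj e x) (v0 := e) (by simp) (by
    intro v hv w b
    simp only [mem_filter, mem_univ, true_and] at hv ⊢
    rcases hv with rfl | hv
    exacts [Or.inr b, Or.inl (nb1 (k v hv) hv.symm b)])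
  have h1 := gv_D_le (G := G) (X := univ) (v := e) ⟨l, mem_univ l, a.symm⟩
  have he : e ∈ mv G univ e := mem_mv.2 ⟨mem_univ e, G.irrefl⟩
  obtain ⟨w, ⟨f, hf, b⟩, h2⟩ := gv_S_ex C.nb (ne_empty_of_mem he)
  have only : ∀ x ∈ mv G univ e, x = e := fun x hx => by
    have := hs x
    simp only [mem_filter, mem_univ, true_and] at this
    exact this.resolve_right fun h => (mem_mv.1 hx).2 h.symm
  have h3 : mv G (mv G univ e) w = ∅ := eq_empty_of_forall_notMem fun x hx =>
    (mem_mv.1 hx).2 (by rw [only x (mem_mv.1 hx).1, ← only f hf]; exact b)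
  rw [h3, gv_empty] at h2
  have := C.val
  have := C.card_pos
  omega

theorem par_dd {p : V} (h : Par G p) : 2 ≤ dd G p := by
  by_contra hc
  obtain ⟨l, a, hl⟩ := h
  obtain ⟨u, b, hu⟩ := na_ex (Nat.pos_of_ne_zero (C.na_ne p))
  rw [nb1 (by omega) a b] at hu
  unfold dd at hl
  omega

open Classical in
theorem tight_univ : Tight G univ ∧
    (univ.filter fun v => dd G v ≤ 1).card = (univ.filter fun v => Par G v).card := by
  have h1 : ∑ e, wt G univ e = ∑ e : V, (1 + (if dd G e ≤ 1 then 1 else 0) +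
      (if Par G e then 1 else 0) : ℤ) := by
    refine sum_congr rfl fun e _ => ?_
    have h0 := Nat.pos_of_ne_zero (C.na_ne e)
    by_cases hp : Par G e
    · have := C.par_dd hp
      rw [wt_two h0 (not_plain_par hp), if_neg (by omega), if_pos hp]; rfl
    · by_cases hl : dd G e ≤ 1
      · rw [wt_two h0 (not_plain_leaf hl), if_pos hl, if_neg hp]; rfl
      · rw [wt_plain (plain_univ (by omega) hp), if_neg hl, if_neg hp]; rfl
  rw [sum_add_distrib, sum_add_distrib, sum_boole, sum_boole] at h1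
  have h2 := np_univ (G := G)
  have h3 : (univ.filter fun v => Par G v).card ≤ (univ.filter fun v => dd G v ≤ 1).card := by
    refine card_le_card_of_forall_subsingleton (fun p l => G.Adj p l) (fun p hp => ?_) ?_
    · obtain ⟨l, a, hl⟩ := (mem_filter.1 hp).2
      exact ⟨l, mem_filter.2 ⟨mem_univ l, hl⟩, a⟩
    · intro l hl p hp q hq
      exact nb1 (mem_filter.1 hl).2 hq.2.symm hp.2.symm
  have h4 := main_bound C.nb (univ : Finset V)
  have h5 := C.val
  unfold Tight
  unfold phi at h4 ⊢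
  simp only [sum_const, card_univ, nsmul_eq_mul, mul_one] at h1
  constructor <;> omega

theorem tight : Tight G univ := C.tight_univ.1

theorem mu_univ : mu G univ + (univ.filter fun v => dd G v ≤ 1).card = Fintype.card V := by
  have h2 := np_univ (G := G)
  unfold mu
  rw [sum_eq_zero fun e _ => if_neg (C.na_ne e)]
  omega

theorem dd_le (v : V) : dd G v ≤ 3 := by
  by_contra hc
  unfold dd at hc
  have h1 := bs_ge (G := G) univ v
  obtain ⟨e, he, a⟩ := lemB C.nb C.tight (y := v) (by omega) (by omega)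
  have := bs_ge1 he.1.1 a
  have := he.1.wt
  have := bs_ex_le C.nb C.tight (v := v) (by omega)
  have := ex_nonneg (G := G) univ v
  omega

theorem par_two {p : V} (h : Par G p) : dd G p = 2 := by
  have h2 := C.par_dd h
  by_contra hc
  obtain ⟨l, a, hl⟩ := h
  have h1 := bs_ge1 (mem_univ l) a.symm
  have h3 := wt_ge_two (not_plain_leaf (X := univ) hl)
  unfold dd at hc h2
  obtain ⟨e, he, b⟩ := lemB C.nb C.tight (y := p) h2 (by omega)
  have hne : e ≠ l := by
    rintro rfl
    obtain ⟨x, c, hx⟩ := he.1.2.1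
    rw [nb1 hl a.symm c] at hx
    omega
  have := bs_ge2 he.1.1 b (mem_univ l) a.symm hne
  have := he.1.wt
  have := bs_ex_le C.nb C.tight (v := p) h2
  have := ex_nonneg (G := G) univ p
  omega

/-- A parent has only one neighbour that is not a leaf. -/
theorem par_uniq {p a b : V} (h : Par G p) (ha : G.Adj p a) (hb : G.Adj p b) (da : 2 ≤ dd G a)
    (db : 2 ≤ dd G b) : a = b := by
  have h2 := C.par_two h
  obtain ⟨l, c, hl⟩ := h
  have h1 : l ≠ a := fun h => by rw [h] at hl; omega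
  rcases nb2 h2.le c ha h1 hb with rfl | rfl
  · omega
  · rfl

theorem par_nb {p : V} (h : Par G p) : ∃ l c, G.Adj p l ∧ dd G l ≤ 1 ∧ G.Adj p c ∧ 2 ≤ dd G c ∧
    ∀ w, G.Adj p w → w = l ∨ w = c := by
  obtain ⟨c, b, hc⟩ := na_ex (Nat.pos_of_ne_zero (C.na_ne p))
  have h2 := C.par_two h
  obtain ⟨l, a, hl⟩ := h
  have h1 : l ≠ c := fun h => by rw [h] at hl; unfold dd at hl; omega
  exact ⟨l, c, a, hl, b, hc, fun w d => nb2 h2.le a b h1 d⟩

/-- The leaf of a parent whose other neighbour is known. -/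
theorem par_leaf {p c : V} (h : Par G p) (a : G.Adj c p) (hc : 2 ≤ dd G c) :
    ∃ l, G.Adj p l ∧ dd G l ≤ 1 ∧ (∀ w, G.Adj p w ↔ w = l ∨ w = c) ∧ ∀ w, G.Adj l w ↔ w = p := by
  obtain ⟨l, c', h1, h2, h3, h4, h5⟩ := C.par_nb h
  have := C.par_uniq h h3 a.symm h4 hc
  subst this
  exact ⟨l, h1, h2, fun w => ⟨h5 w, by rintro (rfl | rfl); exacts [h1, h3]⟩,
    fun w => ⟨fun d => nb1 h2 h1.symm d, by rintro rfl; exact h1.symm⟩⟩

open Classical in
theorem card_ge (s : Finset V) (hs : ∀ v ∈ s, 2 ≤ dd G v ∧ ¬ Par G v) :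
    2 * (univ.filter fun v => Par G v).card + s.card ≤ Fintype.card V := by
  have h1 := C.tight_univ.2
  have d1 : Disjoint (univ.filter fun v => dd G v ≤ 1) (univ.filter fun v => Par G v) := by
    rw [disjoint_left]
    intro v h1 h2
    have := C.par_dd (mem_filter.1 h2).2
    have := (mem_filter.1 h1).2
    omega
  have d2 : Disjoint ((univ.filter fun v => dd G v ≤ 1) ∪ (univ.filter fun v => Par G v)) s := by
    rw [disjoint_right]
    intro v hv h
    have := hs v hv
    rcases mem_union.1 h with h | h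
    · have := (mem_filter.1 h).2; omega
    · exact this.2 (mem_filter.1 h).2
  have := card_le_univ
    (((univ.filter fun v => dd G v ≤ 1) ∪ (univ.filter fun v => Par G v)) ∪ s)
  rw [card_union_of_disjoint d2, card_union_of_disjoint d1] at this
  omega

theorem ap_uniq (hpp : ∀ p q, Par G p → Par G q → ¬ G.Adj p q) {c p q : V} (hp : Par G p)
    (hq : Par G q) (a : G.Adj c p) (b : G.Adj c q) : p = q := by
  classical
  by_contra hne
  have h2 := dd_ge2 a b hne
  by_cases h3 : 3 ≤ dd G c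
  · have := bs_ge2 (mem_univ p) a.symm (mem_univ q) b.symm hne
    have := wt_ge_two (not_plain_par (X := univ) hp)
    have := wt_ge_two (not_plain_par (X := univ) hq)
    have := bs_ex_le C.nb C.tight (v := c) h2
    have := ex_nonneg (G := G) univ c
    unfold dd at h3
    omega
  obtain ⟨l, -, -, n1, n2⟩ := C.par_leaf hp a h2
  obtain ⟨m, -, -, n3, n4⟩ := C.par_leaf hq b h2
  have n5 := fun w => nb2 (w := w) (show dd G c ≤ 2 by omega) a b hne
  have h4 := (closed_card C.conn [c, p, q, l, m] (v0 := c) (by simp) (by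
    simp only [List.mem_cons, List.not_mem_nil, or_false, forall_eq_or_imp, forall_eq, n1, n2, n3,
      n4]
    refine ⟨fun w d => ?_, ?_, ?_, ?_, ?_⟩
    · rcases n5 w d with h | h <;> simp [h]
    all_goals simp)).2
  have h5 := C.card_ge {c} (by simpa using ⟨h2, fun h => hpp c p h hp a⟩)
  have h6 : 1 < (univ.filter fun v => Par G v).card :=
    one_lt_card.2 ⟨p, by simp [hp], q, by simp [hq], hne⟩
  have := C.card_mod
  simp at h4 h5
  omega

end Ctx

end Pool.Agent.Lib.MP_77fd7e_co
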