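import Pool.Agent.Lib.MP_77fd7e_co.Struct

namespace Pool.Agent.Lib.MP_77fd7e_co

open Finset

set_option linter.unusedSectionVars false

variable {V : Type} [Fintype V] [DecidableEq V] (G : SimpleGraph V) [DecidableRel G.Adj]

structure Ctx2 : Prop extends Ctx G where
  pp : ∀ p q, Par G p → Par G q → ¬ G.Adj p q

open Classical in
noncomputable def sT : Finset V := univ.filter fun v => Tn G v
open Classical in
noncomputable def sR2 : Finset V := univ.filter fun v => R2 G v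
open Classical in
noncomputable def sR0 : Finset V := univ.filter fun v => R0 G v
def s3 : Finset V := univ.filter fun v => dd G v = 3

variable {G}

@[simp] theorem mem_sT {v : V} : v ∈ sT G ↔ Tn G v := by simp [sT]
@[simp] theorem mem_sR2 {v : V} : v ∈ sR2 G ↔ R2 G v := by simp [sR2]
@[simp] theorem mem_sR0 {v : V} : v ∈ sR0 G ↔ R0 G v := by simp [sR0]
@[simp] theorem mem_s3 {v : V} : v ∈ s3 G ↔ dd G v = 3 := by simp [s3]

theorem nonleaf {v w : V} (h : ¬ Par G v) (a : G.Adj v w) : 2 ≤ dd G w := by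
  by_contra hc
  exact h ⟨w, a, by omega⟩

namespace Ctx2

variable (C : Ctx2 G)
include C

theorem types (v : V) : dd G v ≤ 1 ∨ Par G v ∨ Tn G v ∨ R0 G v ∨ dd G v = 3 := by
  have := C.dd_le v
  unfold Tn R0
  by_cases h1 : Par G v
  · exact Or.inr (Or.inl h1)
  by_cases h2 : AP G v <;> simp only [h1, h2, not_true, not_false_iff, and_true, and_false,
    false_or, or_false] <;> omega

theorem three_not_par {v : V} (h : dd G v = 3) : ¬ Par G v := fun hp => by
  have := C.par_two hp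
  omega

theorem ap_type {c : V} (h : AP G c) (h2 : 2 ≤ dd G c) : Tn G c ∨ R2 G c := by
  have := C.dd_le c
  obtain ⟨p, a, hp⟩ := h
  by_cases h3 : dd G c = 3
  · exact Or.inr ⟨h3, p, a, hp⟩
  · exact Or.inl ⟨by omega, fun h => C.pp c p h hp a, p, a, hp⟩

theorem ap_eq {c p q : V} (hp : Par G p) (hq : Par G q) (a : G.Adj c p) (b : G.Adj c q) : p = q :=
  C.ap_uniq C.pp hp hq a b

theorem tn_at {c d : V} (h : Tn G c) (a : G.Adj c d) (hd : ¬ Par G d) : ∃ p l, G.Adj c p ∧
    Par G p ∧ G.Adj p l ∧ dd G l ≤ 1 ∧ (∀ w, G.Adj c w ↔ w = p ∨ w = d) ∧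
    (∀ w, G.Adj p w ↔ w = l ∨ w = c) ∧ ∀ w, G.Adj l w ↔ w = p := by
  obtain ⟨h2, -, p, b, hp⟩ := h
  obtain ⟨l, k1, k2, k3, k4⟩ := C.par_leaf hp b h2.ge
  refine ⟨p, l, b, hp, k1, k2, fun w => ⟨nb2 h2.le b a (fun h => hd (h ▸ hp)), ?_⟩, k3, k4⟩
  rintro (rfl | rfl)
  exacts [b, a]

theorem tn_tn {c d : V} (h : Tn G c) (h' : Tn G d) : ¬ G.Adj c d := fun a => by
  classical
  obtain ⟨p, l, b, hp, -, -, n1, n2, n3⟩ := C.tn_at h a h'.2.1
  obtain ⟨q, m, b', hq, -, -, n4, n5, n6⟩ := C.tn_at h' a.symm h.2.1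
  have h4 := (closed_card C.conn [c, d, p, q, l, m] (v0 := c) (by simp) (by
    simp only [List.mem_cons, List.not_mem_nil, or_false, forall_eq_or_imp, forall_eq, n1, n2, n3,
      n4, n5, n6]
    simp)).2
  have h5 := C.card_ge {c, d} (by simpa using ⟨⟨h.1.ge, h.2.1⟩, h'.1.ge, h'.2.1⟩)
  have h6 : 1 < (univ.filter fun v => Par G v).card :=
    one_lt_card.2 ⟨p, by simp [hp], q, by simp [hq], fun e =>
      a.ne (C.par_uniq hp b.symm (e ▸ b'.symm) h.1.ge h'.1.ge)⟩
  have := C.card_mod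
  rw [card_pair a.ne] at h5
  simp at h4
  omega

theorem tn_nb {c : V} (h : Tn G c) : ∃ d, G.Adj c d ∧ ¬ Par G d ∧ (R0 G d ∨ dd G d = 3) := by
  obtain ⟨p, b, hp⟩ := h.2.2
  obtain ⟨d, hd, a⟩ := nb_other h.1.ge p
  have h1 : ¬ Par G d := fun h' => hd (C.ap_eq h' hp a b)
  refine ⟨d, a, h1, ?_⟩
  have := nonleaf h.2.1 a
  rcases C.types d with h' | h' | h' | h'
  · omega
  · exact absurd h' h1
  · exact absurd a (C.tn_tn h h')
  · exact h'

theorem r2_at {c u : V} (h : R2 G c) (a : G.Adj c u) (hu : ¬ Par G u) : ∃ p u', G.Adj c p ∧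
    Par G p ∧ G.Adj c u' ∧ ¬ Par G u' ∧ u' ≠ u ∧ ∀ w, G.Adj c w ↔ w = p ∨ w = u ∨ w = u' := by
  obtain ⟨h3, p, b, hp⟩ := h
  obtain ⟨u', n1, n2, b'⟩ := nb_third h3.ge p u
  refine ⟨p, u', b, hp, b', fun h' => n1 (C.ap_eq h' hp b' b), n2, fun w =>
    ⟨nb3 h3.le b a b' (fun h => hu (h ▸ hp)) n1.symm n2.symm, ?_⟩⟩
  rintro (rfl | rfl | rfl)
  exacts [b, a, b']

theorem r2_ex {c : V} (h : R2 G c) : ∃ u, G.Adj c u ∧ ¬ Par G u := by
  obtain ⟨h3, p, b, hp⟩ := h
  obtain ⟨u, n1, b'⟩ := nb_other (show 2 ≤ dd G c by omega) p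
  exact ⟨u, b', fun h' => n1 (C.ap_eq h' hp b' b)⟩

theorem counts : ∃ z : ℕ, 2 * z + (sT G).card + (sR2 G).card = (s3 G).card + 2 ∧
    (z = 0 → G.IsAcyclic) ∧
    Fintype.card V = 3 * (sT G).card + 2 * (sR2 G).card + (sR0 G).card + (s3 G).card ∧
    4 * ((gv G univ true : ℤ) - mu G univ) =
      (sT G).card + 2 * (sR2 G).card - (sR0 G).card - (s3 G).card := by
  classical
  have h1 := C.tight_univ.2
  have h2 := C.mu_univ
  have key : ∀ v, (1 = (if dd G v ≤ 1 then 1 else 0) + (if Par G v then 1 else 0) +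
      (if Tn G v then 1 else 0) + (if R0 G v then 1 else 0) + (if dd G v = 3 then 1 else 0)) ∧
      dd G v = (if dd G v ≤ 1 then 1 else 0) + 2 * (if Par G v then 1 else 0) +
      2 * (if Tn G v then 1 else 0) + 2 * (if R0 G v then 1 else 0) +
      3 * (if dd G v = 3 then 1 else 0) := fun v => by
    have := C.dd_le v
    obtain ⟨w, a⟩ := C.nb v
    have := dd_pos a
    have h3 : Par G v → dd G v = 2 := C.par_two
    unfold Tn R0
    by_cases k1 : Par G v <;> by_cases k2 : AP G v <;>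
      simp only [k1, k2, not_true, not_false_iff, and_true, and_false, if_true, if_false,
        forall_true_left] at h3 ⊢ <;> split_ifs <;> omega
  have h3 : Fintype.card V = (univ.filter fun v => dd G v ≤ 1).card +
      (univ.filter fun v => Par G v).card + (sT G).card + (sR0 G).card + (s3 G).card := by
    unfold sT sR0 s3
    simp only [card_filter, ← sum_add_distrib]
    rw [← card_univ, card_eq_sum_ones]
    exact sum_congr rfl fun v _ => (key v).1
  have h4 : ∑ v, G.degree v = (univ.filter fun v => dd G v ≤ 1).card +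
      2 * (univ.filter fun v => Par G v).card + 2 * (sT G).card + 2 * (sR0 G).card +
      3 * (s3 G).card := by
    unfold sT sR0 s3
    simp only [card_filter, mul_sum, ← sum_add_distrib]
    refine sum_congr rfl fun v _ => Eq.trans ?_ (key v).2
    unfold dd dg
    rw [← SimpleGraph.card_neighborFinset_eq_degree, SimpleGraph.neighborFinset_eq_filter]
    congr 1
    exact filter_congr fun w _ => G.adj_comm v w
  have h5 : (univ.filter fun v => Par G v).card * 1 = (sT G ∪ sR2 G).card * 1 := by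
    refine card_mul_eq_card_mul (fun p c => G.Adj c p) (fun p hp => ?_) (fun c hc => ?_)
    · have hp := (mem_filter.1 hp).2
      obtain ⟨l, c, -, -, a, hc, -⟩ := C.par_nb hp
      refine card_eq_one.2 ⟨c, ?_⟩
      ext x
      simp only [mem_bipartiteAbove, mem_union, mem_sT, mem_sR2, mem_singleton]
      refine ⟨fun h => C.par_uniq hp h.2.symm a ?_ hc, ?_⟩
      · rcases h.1 with h | h
        exacts [h.1.ge, by have := h.1; omega]
      · rintro rfl
        exact ⟨C.ap_type ⟨p, a.symm, hp⟩ hc, a.symm⟩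
    · obtain ⟨p, a, hp⟩ : AP G c := by
        rcases mem_union.1 hc with h | h
        exacts [(mem_sT.1 h).2.2, (mem_sR2.1 h).2]
      refine card_eq_one.2 ⟨p, ?_⟩
      ext x
      simp only [mem_bipartiteBelow, mem_filter, mem_univ, true_and, mem_singleton]
      exact ⟨fun h => C.ap_eq h.1 hp h.2 a, by rintro rfl; exact ⟨hp, a⟩⟩
  rw [card_union_of_disjoint (disjoint_left.2 fun v h h' => by
    have := (mem_sT.1 h).1
    have := (mem_sR2.1 h').1
    omega)] at h5
  rw [G.sum_degrees_eq_twice_card_edges] at h4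
  have h6 := C.conn.card_vert_le_card_edgeSet_add_one
  have h7 : Nat.card G.edgeSet = G.edgeFinset.card := by
    rw [Nat.card_eq_fintype_card, SimpleGraph.edgeFinset_card]
  have h8 := C.val
  rw [Nat.card_eq_fintype_card, h7] at h6
  refine ⟨G.edgeFinset.card + 1 - Fintype.card V, by omega, fun hz => ?_, by omega, by omega⟩
  exact (SimpleGraph.isTree_iff_connected_and_card.2 ⟨C.conn, by
    rw [Nat.card_eq_fintype_card (α := V), h7]; omega⟩).isAcyclic

end Ctx2

theorem not_acyclic {a1 a2 a3 a4 w1 w2 w3 w4 : V} (h1 : G.Adj a1 w1) (h2 : G.Adj w1 a2)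
    (h3 : G.Adj a2 w2) (h4 : G.Adj w2 a3) (h5 : G.Adj a3 w3) (h6 : G.Adj w3 a4)
    (h7 : G.Adj a4 w4) (h8 : G.Adj w4 a1) (n1 : a1 ≠ a2) (n2 : w1 ≠ w2) (n3 : a2 ≠ a3)
    (n4 : w2 ≠ w3) (n5 : a3 ≠ a4) (n6 : w3 ≠ w4) (n7 : a4 ≠ a1) : ¬ G.IsAcyclic := fun h => by
  have k : ∀ {x y z : V}, G.Adj x y → x ≠ z → s(x, y) ≠ s(y, z) := fun a n e => by
    rcases Sym2.eq_iff.1 e with e | e
    exacts [a.ne e.1, n e.1]
  have := (h.isPath_iff_isChain (.cons h1 (.cons h2 (.cons h3 (.cons h4 (.cons h5 (.cons h6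
    (.cons h7 (.cons h8 .nil))))))))).2 (by
      simp only [SimpleGraph.Walk.edges_cons, SimpleGraph.Walk.edges_nil, List.isChain_cons_cons,
        List.isChain_singleton, and_true]
      exact ⟨k h1 n1, k h2 n2, k h3 n3, k h4 n4, k h5 n5, k h6 n6, k h7 n7⟩)
  simp at this

end Pool.Agent.Lib.MP_77fd7e_co
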