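import Pool.Agent.Lib.MP_77fd7e_co.Move

namespace Pool.Agent.Lib.MP_77fd7e_co

open Finset

set_option linter.unusedSectionVars false

variable {V : Type} [Fintype V] [DecidableEq V] {G : SimpleGraph V} [DecidableRel G.Adj]

theorem phi_empty : phi G ∅ = 0 := by simp [phi, np, dg]

theorem mu_empty : mu G ∅ = 0 := by simp [mu, np, dg]

theorem lg_of_dg {X : Finset V} {v : V} (h : 1 ≤ dg G X v) : Lg G X v := dg_ex h

theorem dg_other {X : Finset V} {e g v : V} (hd : dg G X v ≤ 2) (he : e ∈ X) (hg : g ∈ X)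
    (hne : g ≠ e) (a : G.Adj e v) (b : G.Adj g v) {w : V} (c : G.Adj e w) :
    ∀ h ∈ X, G.Adj h v → h = g ∨ G.Adj h w := fun h hh d => by
  rcases dg_two_eq hd he hg hh hne.symm a b d with rfl | rfl
  exacts [Or.inr c, Or.inl rfl]

/-- All edges plain and all degrees at most two. -/
theorem allplain {X : Finset V} (hp : ∀ e ∈ X, Plain G X e) (hd : ∀ v, dg G X v ≤ 2) {u : V}
    (hu : Lg G X u) : 2 ≤ dg G X u ∧ bs G X u = 4 ∧ 1 ≤ ex G X u ∧
      (ex G X u ≤ 1 → ∀ g, ¬ Pend G (mv G X u) g) := by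
  obtain ⟨f1, hf1, a1⟩ := hu
  have h2 := (hp f1 hf1).dg a1
  obtain ⟨f2, hf2, hne, a2⟩ := dg_ex_other h2 f1
  obtain ⟨y1, hy1, b1, d1⟩ := na_ex_other (hp f1 hf1).1 u
  obtain ⟨y2, hy2, b2, d2⟩ := na_ex_other (hp f2 hf2).1 u
  obtain ⟨g1, hg1, n1, c1⟩ := dg_ex_other d1 f1
  obtain ⟨g2, hg2, n2, c2⟩ := dg_ex_other d2 f2
  have o1 := dg_other (hd y1) hf1 hg1 n1 b1 c1 a1
  have o2 := dg_other (hd y2) hf2 hg2 n2 b2 c2 a2
  refine ⟨h2, by rw [bs_two (hd u) hf1 a1 hf2 a2 hne.symm, wt_plain (hp _ hf1),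
    wt_plain (hp _ hf2)]; rfl, touch1 hy1 d1 hg1 c1 (hp _ hg1) o1, fun hex g hg => ?_⟩
  rcases touch d1 hg1 c1 o1 with h | ⟨m1, e1, k1⟩
  · have := dp_le_ex hy1 d1 h; omega
  rcases touch d2 hg2 c2 o2 with h | ⟨m2, e2, k2⟩
  · have := dp_le_ex hy2 d2 h; omega
  have s1 := sd_plain (mv_subset X u) m1 (hp _ hg1) k1
  have s2 := sd_plain (mv_subset X u) m2 (hp _ hg2) k2
  have h12 : g1 = g2 := by
    by_contra hc
    have := sd2_le_ex m1 m2 hc
    omega
  subst h12
  have hy : y1 ≠ y2 := by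
    rintro rfl
    rcases dg_two_eq (hd y1) hf1 hf2 hg1 hne.symm b1 b2 c1 with h | h
    exacts [n1 h, n2 h]
  have k3 := kk_ge_two hy c2 d2 e2 c1 d1 e1
  have hgX := mv_subset X u hg.1
  have k4 : 0 < kk G X (mv G X u) g := by
    rcases (pv_split (mv_subset X u) hg.1).1 hg.2.1 with h | h
    exacts [absurd h (hp _ hgX).2, h]
  have s3 := sd_plain (mv_subset X u) hg.1 (hp _ hgX) k4
  have h13 : g = g1 := by
    by_contra hc
    have := sd2_le_ex hg.1 m1 hc
    omega
  subst h13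
  have := sd_le_ex hg.1
  have := hg.2.2
  have := hp _ hgX
  rcases sd_cases (G := G) (mv_subset X u) hg.1 with h | h | h | h | h
  · omega
  · omega
  · omega
  · exact h.1 this
  · exact h.1 this

theorem no_pend_of_bs {X : Finset V} (h : ∀ v, 2 ≤ dg G X v → bs G X v ≤ 4) (e : V) :
    ¬ Pend G X e := fun hp => by
  obtain ⟨v, a, hv⟩ := na_ex hp.2.2
  have := pend_bs hp a hv
  have := h v hv
  omega

theorem allplain_of_bs {X : Finset V} (h : ∀ v, 2 ≤ dg G X v → bs G X v ≤ 4)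
    (h0 : ∀ e ∈ X, na G X e ≠ 0) : (∀ e ∈ X, Plain G X e) ∧ ∀ v, dg G X v ≤ 2 := by
  refine ⟨fun e he => ?_, fun v => ?_⟩
  · obtain ⟨v, a, hv⟩ := na_ex (Nat.pos_of_ne_zero (h0 e he))
    have := bs_ge1 he a
    have := h v hv
    exact plain_of_wt (by omega)
  · by_contra hc
    have := bs_ge (G := G) X v
    have := h v (by omega)
    omega

theorem S_ge_four {X : Finset V} (h : ∀ e, ¬ Pend G X e) {w : V} (hw : Lg G X w) :
    4 ≤ gain G X w := by
  rcases S_cases hw with h' | ⟨e, he, -⟩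
  exacts [h', absurd he (h e)]

theorem S_ge_three {X : Finset V} (h : ∀ e, ¬ Hot G X e) {w : V} (hw : Lg G X w) :
    3 ≤ gain G X w := by
  rcases S_cases hw with h' | ⟨e, he, a, h1, h2⟩
  · omega
  · by_contra hc
    exact h e (hot_of_ex he a h1 (by omega))

theorem exists_valid (hG : ∀ v, ∃ w, G.Adj v w) {X : Finset V} (hX : X ≠ ∅) :
    ∃ v, Lg G X v ∧ 4 ≤ gain G X v ∧
      ∀ w, Lg G (mv G X v) w → 8 ≤ gain G X v + gain G (mv G X v) w := by
  by_cases h6 : ∃ v, Lg G X v ∧ 6 ≤ gain G X v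
  · obtain ⟨v, hv, h⟩ := h6
    exact ⟨v, hv, by omega, fun w hw => by have := gain_ge_two hw; omega⟩
  push Not at h6
  by_cases h5 : ∃ v, 2 ≤ dg G X v ∧ 5 ≤ bs G X v
  · obtain ⟨v, hv, h⟩ := h5
    have h1 := h6 v (lg_of_dg (by omega))
    have h2 := gain_np hv
    have h3 := ex_nonneg (G := G) X v
    refine ⟨v, lg_of_dg (by omega), by omega, fun w hw => ?_⟩
    have := S_ge_three (fun e he => by
      have he' := z_hot (mv_subset X v) (sd_zero_of_ex (by omega)) he
      obtain ⟨u, a, hu⟩ := na_ex he'.1.2.2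
      have := hot_bs he' a hu
      have := h6 u (lg_of_dg (by omega))
      have := gain_np hu
      have := ex_nonneg (G := G) X u
      omega) hw
    omega
  have h4 : ∀ v, 2 ≤ dg G X v → bs G X v ≤ 4 := fun v hv => by
    by_contra hc
    exact h5 ⟨v, hv, by omega⟩
  by_cases h0 : ∃ e ∈ X, na G X e = 0
  · obtain ⟨e, he, h0⟩ := h0
    obtain ⟨v, a⟩ := hG e
    obtain ⟨h1, h2⟩ := iso_ex he a h0
    have h3 := gain_priv he a h1
    rw [wt_four h0] at h3
    refine ⟨v, ⟨e, he, a⟩, by omega, fun w hw => ?_⟩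
    have := S_ge_four (fun g hg => no_pend_of_bs h4 g
      (z_pend (mv_subset X v) (sd_zero_of_ex h2.le) hg)) hw
    omega
  · obtain ⟨hp, hd⟩ := allplain_of_bs h4 fun e he h => h0 ⟨e, he, h⟩
    obtain ⟨u, hu⟩ := exists_lg hG hX
    obtain ⟨h1, h2, h3, h7⟩ := allplain hp hd hu
    have h8 := gain_np h1
    have h9 := h6 u hu
    refine ⟨u, hu, by omega, fun w hw => ?_⟩
    have := S_ge_four (h7 (by omega)) hw
    omega

theorem main_bound (hG : ∀ v, ∃ w, G.Adj v w) (X : Finset V) :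
    4 * (gv G X true : ℤ) ≤ phi G X := by
  induction h : X.card using Nat.strong_induction_on generalizing X with
  | _ n ih =>
    by_cases hX : X = ∅
    · rw [hX, gv_empty, phi_empty]; rfl
    obtain ⟨v, hv, h4, h8⟩ := exists_valid hG hX
    have h1 := gv_D_le hv
    by_cases hY : mv G X v = ∅
    · unfold gain at h4
      rw [hY, gv_empty] at h1
      rw [hY, phi_empty] at h4
      omega
    · obtain ⟨w, hw, h2⟩ := gv_S_ex hG hY
      have h3 := ih _ (h ▸ (mv_card_lt hw).trans (mv_card_lt hv)) _ rfl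
      have h5 := h8 w hw
      unfold gain at h5
      omega

variable (G) in
def Tight (X : Finset V) : Prop := 4 * (gv G X true : ℤ) = phi G X

variable (G) in
def Cold (X : Finset V) : Prop := ∀ e, ¬ Hot G X e

section

variable (hG : ∀ v, ∃ w, G.Adj v w)
include hG

theorem step {X : Finset V} (ht : Tight G X) {v : V} (hv : Lg G X v) :
    (mv G X v = ∅ ∧ gain G X v ≤ 4) ∨ ∃ w, Lg G (mv G X v) w ∧
      gain G X v + gain G (mv G X v) w ≤ 8 ∧ (8 ≤ gain G X v + gain G (mv G X v) w →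
        Tight G (mv G (mv G X v) w) ∧ gv G X true = gv G (mv G (mv G X v) w) true + 2) := by
  have h1 := gv_D_le hv
  unfold Tight at *
  by_cases hY : mv G X v = ∅
  · left
    unfold gain
    rw [hY, gv_empty] at h1
    rw [hY, phi_empty]
    exact ⟨rfl, by omega⟩
  · right
    obtain ⟨w, hw, h2⟩ := gv_S_ex hG hY
    have h3 := main_bound hG (mv G (mv G X v) w)
    unfold gain
    exact ⟨w, hw, by omega, fun h => by omega⟩

theorem gain_le_six {X : Finset V} (ht : Tight G X) {v : V} (hv : Lg G X v) : gain G X v ≤ 6 := by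
  rcases step hG ht hv with h | ⟨w, hw, h, -⟩
  · omega
  · have := gain_ge_two hw; omega

theorem bs_ex_le {X : Finset V} (ht : Tight G X) {v : V} (hv : 2 ≤ dg G X v) :
    bs G X v + ex G X v ≤ 6 := by
  rw [← gain_np hv]
  exact gain_le_six hG ht (lg_of_dg (by omega))

theorem six_move {X : Finset V} (ht : Tight G X) {v : V} (hv : Lg G X v) (h6 : 6 ≤ gain G X v) :
    ∃ e w, Hot G (mv G X v) e ∧ G.Adj e w ∧ dg G (mv G X v) w ≤ 1 ∧ ex G (mv G X v) w ≤ 0 ∧
      gain G (mv G X v) w = 2 ∧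
      Tight G (mv G (mv G X v) w) ∧ gv G X true = gv G (mv G (mv G X v) w) true + 2 := by
  rcases step hG ht hv with h | ⟨w, hw, h, h'⟩
  · omega
  · have h2 := gain_ge_two hw
    rcases S_cases hw with h3 | ⟨e, he, a, h3, h4⟩
    · omega
    · exact ⟨e, w, hot_of_ex he a h3 (by omega), a, h3, by omega, by omega, h' (by omega)⟩

theorem six_move' {X : Finset V} (ht : Tight G X) {v : V} (hv : 2 ≤ dg G X v)
    (h6 : 6 ≤ bs G X v + ex G X v) :
    ∃ e w, Hot G (mv G X v) e ∧ G.Adj e w ∧ dg G (mv G X v) w ≤ 1 ∧ ex G (mv G X v) w ≤ 0 ∧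
      gain G (mv G X v) w = 2 ∧
      Tight G (mv G (mv G X v) w) ∧ gv G X true = gv G (mv G (mv G X v) w) true + 2 :=
  six_move hG ht (lg_of_dg (by omega)) (by rw [gain_np hv]; exact h6)

theorem lemB {X : Finset V} (ht : Tight G X) {y : V} (hy : 2 ≤ dg G X y) (h6 : 6 ≤ bs G X y) :
    ∃ e, Hot G X e ∧ G.Adj e y := by
  induction h : X.card using Nat.strong_induction_on generalizing X with
  | _ n ih =>
    by_contra hno
    push Not at hno
    have h1 := bs_ex_le hG ht hy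
    have h2 := ex_nonneg (G := G) X y
    have z1 := sd_zero_of_ex (show ex G X y ≤ 0 by omega)
    obtain ⟨e, -, he, -⟩ := six_move' hG ht hy (by omega)
    have heX := z_hot (mv_subset X y) z1 he
    obtain ⟨v, a, hv⟩ := na_ex he.1.2.2
    have hv' := hv.trans (dg_mono (mv_subset X y) v)
    have h3 := hot_bs heX a hv'
    have h4 := bs_ex_le hG ht hv'
    have h5 := ex_nonneg (G := G) X v
    have z2 := sd_zero_of_ex (show ex G X v ≤ 0 by omega)
    obtain ⟨e4, w, he4, a4, d4, x4, -, ht', -⟩ := six_move' hG ht hv' (by omega)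
    have z3 := sd_zero_of_ex x4
    have k1 : ∀ f ∈ X, G.Adj f y → f ∈ mv G X v := by
      intro f hf b
      refine mem_mv.2 ⟨hf, fun c => ?_⟩
      have l1 := dg_lt (mv_subset X y) hf (fun h => (mem_mv.1 h).2 b) c
      have l2 := bs_ge1 heX.1.1 a
      have l3 := heX.1.wt
      obtain ⟨g, hg, hne, d⟩ := dg_ex_other hv e
      have l4 := he.2 v a (by omega) g hg hne d
      have l5 := bs_ge2 heX.1.1 a (mv_subset X y hg) d hne.symm
      have l6 := z_plain (mv_subset X y) z1 hg (plain_of_wt (by omega))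
      have := l6.1
      omega
    have k2 : ∀ f ∈ mv G X v, G.Adj f y → f ∈ mv G (mv G X v) w := fun f hf b =>
      (mem_mv_priv he4.1.1 a4 d4).2 ⟨hf, fun h => hno f (h ▸ z_hot (mv_subset X v) z2 he4) b⟩
    have d1 := dg_eq_of (mv_subset X v) k1
    have d2 := dg_eq_of (mv_subset _ w) k2
    have b1 := bs_congr (mv_subset X v) k1 fun f hf b =>
      z_wt (mv_subset X v) z2 hf (na_pos b (by omega))
    have b2 := bs_congr (mv_subset _ w) k2 fun f hf b =>
      z_wt (mv_subset _ w) z3 hf (na_pos b (by omega))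
    obtain ⟨e5, he5, a5⟩ := ih _ (h ▸ (mv_card_lt ⟨e4, he4.1.1, a4⟩).trans
      (mv_card_lt (lg_of_dg (by omega)))) ht' (by omega) (by omega) rfl
    exact hno e5 (z_hot (mv_subset X v) z2 (z_hot (mv_subset _ w) z3 he5)) a5

theorem cold_bs {X : Finset V} (ht : Tight G X) (hc : Cold G X) {y : V} (hy : 2 ≤ dg G X y) :
    bs G X y ≤ 5 := by
  by_contra h
  obtain ⟨e, he, -⟩ := lemB hG ht hy (by omega)
  exact hc e he

end

end Pool.Agent.Lib.MP_77fd7e_co
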